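import Pool.Agent.Lib_helper46.O2.L5

/-! Dirac case: two disjoint red pairs. -/

set_option autoImplicit false
set_option linter.unusedSectionVars false
set_option linter.unusedVariables false

open scoped Classical
open Finset

namespace Pool.Agent.O2

variable {V : Type}

private theorem G2c_cover {G : SimpleGraph V} {S : Finset V} {K : ℕ} {x : V} {c c' : Fin K → V}
    (h : Conf G S K x c c') : S = insert x (univ.image c) ∪ univ.image c' := by
  ext v
  simp only [mem_union, mem_insert, mem_image, mem_univ, true_and]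
  constructor
  · intro hv
    rcases h.cov v hv with h1 | ⟨i, h1⟩ | ⟨i, h1⟩
    · exact Or.inl (Or.inl h1)
    · exact Or.inl (Or.inr ⟨i, h1.symm⟩)
    · exact Or.inr ⟨i, h1.symm⟩
  · rintro ((h1 | ⟨i, h1⟩) | ⟨i, h1⟩)
    · exact h1 ▸ h.hx
    · exact h1 ▸ h.mc i
    · exact h1 ▸ h.mc' i

private theorem G2c_disj {G : SimpleGraph V} {S : Finset V} {K : ℕ} {x : V} {c c' : Fin K → V}
    (h : Conf G S K x c c') : Disjoint (insert x (univ.image c)) (univ.image c') := by
  rw [disjoint_left]
  intro v hv hv'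
  obtain ⟨j, -, rfl⟩ := mem_image.1 hv'
  rcases mem_insert.1 hv with h1 | h1
  · exact h.cx' j h1
  · obtain ⟨i, -, h2⟩ := mem_image.1 h1
    exact h.ne i j h2

/-- every `c' l` has a neighbour in `X` -/
private theorem G2c_one {G : SimpleGraph V} {S : Finset V} {K : ℕ} {x : V} {c c' : Fin K → V}
    (h : Conf G S K x c c') (l : Fin K) : 1 ≤ dg G (insert x (univ.image c)) (c' l) := by
  have h1 := h.crit.dg_ge (h.mc' l)
  rw [G2c_cover h, dg_union (G2c_disj h)] at h1
  have h2 : dg G (univ.image c') (c' l) + 1 ≤ K := by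
    have h3 := dg_add_nd (G := G) (X := univ.image c') (v := c' l)
      (mem_image_of_mem _ (mem_univ l))
    rw [card_image_of_injective _ h.ic', card_univ, Fintype.card_fin] at h3
    omega
  omega

/-- the two colourings -/
private theorem G2c_col {K : ℕ} {x : V} {c c' : Fin K → V} (ic : Function.Injective c)
    (ic' : Function.Injective c') (cx : ∀ i, c i ≠ x) (i j : Fin K) :
    ∃ φ ψ : V → Fin K, φ x = j ∧ (∀ l, φ (c l) = if l = j then i else l) ∧ ∀ l, ψ (c' l) = l := by
  refine ⟨fun v => if v = x then j else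
      if h : ∃ l, c l = v then (if h.choose = j then i else h.choose) else i,
    fun v => if h : ∃ l, c' l = v then h.choose else i, by simp, ?_, ?_⟩
  · intro l
    have h1 : ∃ l', c l' = c l := ⟨l, rfl⟩
    have h2 : h1.choose = l := ic h1.choose_spec
    simp only [cx l, if_false, h1, dif_pos, h2]
  · intro l
    have h1 : ∃ l', c' l' = c' l := ⟨l, rfl⟩
    have h2 : h1.choose = l := ic' h1.choose_spec
    simp only [h1, dif_pos, h2]

/-- G2c. For a red pair `i j`: PROOF. `X = {x} ∪ range c`, `Y = range c'`. Colour `X` by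
`c l ↦ l` (`l ≠ j`), `c j ↦ i`, `x ↦ j`, and `Y` by `c' l ↦ l`. `glue_or` gives `P`, `Q` with
`|P| + |Q| = K + 1`, all pairs of classes joined. `|P|, |Q| ≥ 2`: `2 K - 2 ≤ |P| |Q| ≤ pr G X Y`
(`mul_le_pr`). `|Q| = 1`, `P = univ`: `c' q` has `≥ K` neighbours in `X`, and every other `c' l` has
`≥ 1` (degree `≥ K`, at most `K - 1` neighbours in `Y`), so `2 K - 1 ≤ pr G X Y`. `|P| = 1`,
`Q = univ`, `P = {l}`: `l ≠ i, j` is impossible as `c l`, `c' l` are not adjacent, `l = j` is
impossible as `x` has no neighbour in `Y`, and `l = i` gives `K ≤ pr G {c i, c j} Y`. -/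
theorem Conf.one {G : SimpleGraph V} {S : Finset V} {K : ℕ} {x : V} {c c' : Fin K → V}
    (h : Conf G S K x c c') {i j : Fin K} (hij : i ≠ j) (hr : ¬ G.Adj (c i) (c j)) :
    2 * K ≤ pr G (insert x (univ.image c)) (univ.image c') + 2 ∨
      K ≤ pr G {c i, c j} (univ.image c') := by
  obtain ⟨φ, ψ, hx, hc, hc'⟩ := G2c_col h.ic h.ic' h.cx i j
  set X : Finset V := insert x (univ.image c) with hX
  set Y : Finset V := univ.image c' with hY
  have hcX : ∀ l, c l ∈ X := fun l => mem_insert_of_mem (mem_image_of_mem _ (mem_univ l))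
  have hcY : ∀ l, c' l ∈ Y := fun l => mem_image_of_mem _ (mem_univ l)
  have memX : ∀ v ∈ X, v = x ∨ ∃ l, v = c l := by
    intro v hv
    rcases mem_insert.1 hv with h1 | h1
    · exact Or.inl h1
    · obtain ⟨l, -, h2⟩ := mem_image.1 h1
      exact Or.inr ⟨l, h2.symm⟩
  have memY : ∀ v ∈ Y, ∃ l, v = c' l := by
    intro v hv
    obtain ⟨l, -, h2⟩ := mem_image.1 hv
    exact ⟨l, h2.symm⟩
  have hji : j ≠ i := hij.symm
  have pcX : PC G X φ := by
    intro a ha b hb hab he
    rcases memX a ha with rfl | ⟨l, rfl⟩ <;> rcases memX b hb with rfl | ⟨m, rfl⟩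
    · exact G.irrefl hab
    · rw [hx, hc] at he
      split_ifs at he with h1
      · exact hji he
      · exact h1 he.symm
    · rw [hx, hc] at he
      split_ifs at he with h1
      · exact hji he.symm
      · exact h1 he
    · rw [hc, hc] at he
      split_ifs at he with h1 h2 h2
      · rw [h1, h2] at hab; exact G.irrefl hab
      · rw [h1, ← he] at hab; exact hr hab.symm
      · rw [h2, he] at hab; exact hr hab
      · rw [he] at hab; exact G.irrefl hab
  have pcY : PC G Y ψ := by
    intro a ha b hb hab he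
    obtain ⟨l, rfl⟩ := memY a ha
    obtain ⟨m, rfl⟩ := memY b hb
    rw [hc', hc'] at he
    rw [he] at hab
    exact G.irrefl hab
  have hn : ¬ Cb G (X ∪ Y) K := by
    rw [← G2c_cover h]
    exact h.crit.1
  obtain ⟨P, Q, hPQ, hadj⟩ := glue_or pcX pcY hn
  have hPK : P.card ≤ K := by simpa using card_le_card (subset_univ P)
  have hQK : Q.card ≤ K := by simpa using card_le_card (subset_univ Q)
  have hKp : 2 ≤ K := by
    have h1 : ({i, j} : Finset (Fin K)).card = 2 := card_pair hij
    have h2 := card_le_card (subset_univ ({i, j} : Finset (Fin K)))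
    rw [h1, card_univ, Fintype.card_fin] at h2
    exact h2
  by_cases hP1 : P.card = 1
  · -- `P = {l}`, `Q = univ`
    obtain ⟨l, rfl⟩ := card_eq_one.1 hP1
    have hQ : Q = univ := by
      rw [← card_eq_iff_eq_univ, Fintype.card_fin]
      omega
    have hadj' : ∀ q, ∃ a ∈ X, φ a = l ∧ G.Adj a (c' q) := by
      intro q
      obtain ⟨a, ha, b, hb, h1, h2, h3⟩ := hadj l (mem_singleton_self l) q (hQ ▸ mem_univ q)
      obtain ⟨m, rfl⟩ := memY b hb
      rw [hc'] at h2
      rw [h2] at h3
      exact ⟨a, ha, h1, h3⟩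
    right
    have hli : l = i := by
      by_contra hli
      obtain ⟨a, ha, h1, h2⟩ := hadj' l
      rcases memX a ha with rfl | ⟨m, rfl⟩
      · exact h.adj' l h2
      · rw [hc] at h1
        split_ifs at h1 with h3
        · exact hli h1.symm
        · rw [h1] at h2
          exact h.non l h2
    rw [pr_sum']
    have h1 : ∀ q : Fin K, 1 ≤ dg G {c i, c j} (c' q) := by
      intro q
      obtain ⟨a, ha, h1, h2⟩ := hadj' q
      refine card_pos.2 ⟨a, mem_filter.2 ⟨?_, h2.symm⟩⟩
      rw [mem_insert, mem_singleton]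
      rcases memX a ha with rfl | ⟨m, rfl⟩
      · exact absurd h2 (h.adj' q)
      · rw [hc] at h1
        split_ifs at h1 with h3
        · exact Or.inr (by rw [h3])
        · exact Or.inl (by rw [h1, hli])
    rw [hY, sum_image (fun a _ b _ hab => h.ic' hab)]
    calc K = ∑ _q : Fin K, 1 := by simp
      _ ≤ ∑ q : Fin K, dg G {c i, c j} (c' q) := sum_le_sum fun q _ => h1 q
  left
  by_cases hQ1 : Q.card = 1
  · obtain ⟨q, rfl⟩ := card_eq_one.1 hQ1
    have hP : P = univ := by
      rw [← card_eq_iff_eq_univ, Fintype.card_fin]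
      omega
    have h1 : K ≤ dg G X (c' q) := by
      have h2 : (univ : Finset (Fin K)) ⊆ (X.filter fun a => G.Adj (c' q) a).image φ := by
        intro p _
        obtain ⟨a, ha, b, hb, h1, h2, h3⟩ := hadj p (hP ▸ mem_univ p) q (mem_singleton_self q)
        obtain ⟨m, rfl⟩ := memY b hb
        rw [hc'] at h2
        rw [h2] at h3
        exact mem_image.2 ⟨a, mem_filter.2 ⟨ha, h3.symm⟩, h1⟩
      have h3 := (card_le_card h2).trans card_image_le
      rw [card_univ, Fintype.card_fin] at h3
      exact h3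
    rw [pr_sum', hY, sum_image (fun a _ b _ hab => h.ic' hab)]
    have h2 : ∑ l ∈ univ.erase q, 1 ≤ ∑ l ∈ univ.erase q, dg G X (c' l) :=
      sum_le_sum fun l _ => G2c_one h l
    have h3 := add_sum_erase univ (fun l => dg G X (c' l)) (mem_univ q)
    rw [sum_const, card_erase_of_mem (mem_univ q), card_univ, Fintype.card_fin, smul_eq_mul,
      mul_one] at h2
    omega
  · have h1 := mul_le_pr hadj
    have h2 : 2 ≤ P.card := by omega
    have h3 : 2 ≤ Q.card := by omega
    obtain ⟨p, hp⟩ := Nat.exists_eq_add_of_le h2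
    obtain ⟨q, hq⟩ := Nat.exists_eq_add_of_le h3
    rw [hp, hq] at h1
    have h4 : (2 + p) * (2 + q) = 4 + 2 * p + 2 * q + p * q := by ring
    have h5 : 2 * K ≤ (2 + p) * (2 + q) + 2 := by
      rw [h4]
      have : K + 1 = 2 + p + (2 + q) := by omega
      have h6 : 0 ≤ p * q := Nat.zero_le _
      omega
    omega

/-- two disjoint red pairs. PROOF: `Conf.one` twice. -/
theorem Conf.disj {G : SimpleGraph V} {S : Finset V} {K : ℕ} {x : V} {c c' : Fin K → V}
    (h : Conf G S K x c c') {i j k l : Fin K} (hij : i ≠ j) (hkl : k ≠ l) (hik : i ≠ k)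
    (hil : i ≠ l) (hjk : j ≠ k) (hjl : j ≠ l) (hr : ¬ G.Adj (c i) (c j))
    (hr' : ¬ G.Adj (c k) (c l)) :
    2 * K ≤ pr G (insert x (univ.image c)) (univ.image c') + 2 := by
  rcases h.one hij hr with h1 | h1
  · exact h1
  rcases h.one hkl hr' with h2 | h2
  · exact h2
  have hd : Disjoint ({c i, c j} : Finset V) {c k, c l} := by
    rw [disjoint_left]
    intro v hv hv'
    rw [mem_insert, mem_singleton] at hv hv'
    rcases hv with h3 | h3 <;> rcases hv' with h4 | h4 <;> rw [h3] at h4
    · exact hik (h.ic h4)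
    · exact hil (h.ic h4)
    · exact hjk (h.ic h4)
    · exact hjl (h.ic h4)
  have h3 := pr_union_left (G := G) (univ.image c') hd
  have h4 : ({c i, c j} : Finset V) ∪ {c k, c l} ⊆ insert x (univ.image c) := by
    intro v hv
    apply mem_insert_of_mem
    rw [mem_union, mem_insert, mem_singleton, mem_insert, mem_singleton] at hv
    rcases hv with (h5 | h5) | (h5 | h5) <;> rw [h5] <;> exact mem_image_of_mem _ (mem_univ _)
  have h5 := pr_mono (G := G) h4 (Subset.refl (univ.image c'))
  omega

end Pool.Agent.O2
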