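import Pool.Agent.Lib_helper46.O2.L1

/-! A graph without two disjoint edges is a star or a triangle. -/

set_option autoImplicit false
set_option linter.unusedSectionVars false
set_option linter.unusedVariables false

open scoped Classical
open Finset

namespace Pool.Agent.O2

variable {V : Type}

theorem G2d_star {K : ℕ} (R : Fin K → Fin K → Prop) (hs : ∀ i j, R i j → R j i)
    (a : Fin K) (ha : ∀ x y, R x y → x = a ∨ y = a) :
    2 * (univ.filter fun j => ∃ i, R j i).card ≤
      ∑ j, (univ.filter fun i => R j i).card + 2 := by
  set S : Finset (Fin K) := univ.filter fun j => ∃ i, R j i with hS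
  have hdeg : ∀ j ∈ S, 1 ≤ (univ.filter fun i => R j i).card := by
    intro j hj
    obtain ⟨i, hi⟩ := (mem_filter.1 hj).2
    exact card_pos.2 ⟨i, mem_filter.2 ⟨mem_univ _, hi⟩⟩
  have h1 : (S.erase a).card ≤ (univ.filter fun i => R a i).card := by
    apply card_le_card
    intro j hj
    obtain ⟨hja, hjS⟩ := mem_erase.1 hj
    obtain ⟨i, hi⟩ := (mem_filter.1 hjS).2
    refine mem_filter.2 ⟨mem_univ _, ?_⟩
    rcases ha j i hi with h | h
    · exact absurd h hja
    · subst h
      exact hs _ _ hi
  have h2 : S.card ≤ (S.erase a).card + 1 := by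
    by_cases h : a ∈ S
    · rw [card_erase_of_mem h]; omega
    · rw [erase_eq_of_notMem h]; omega
  have h3 : (S.erase a).card ≤ ∑ j ∈ S.erase a, (univ.filter fun i => R j i).card := by
    rw [card_eq_sum_ones]
    exact sum_le_sum fun j hj => hdeg j (mem_of_mem_erase hj)
  have h4 : (univ.filter fun i => R a i).card + ∑ j ∈ S.erase a, (univ.filter fun i => R j i).card
      ≤ ∑ j, (univ.filter fun i => R j i).card := by
    rw [← sum_insert (f := fun j => (univ.filter fun i => R j i).card) (notMem_erase a S)]
    exact sum_le_sum_of_subset (subset_univ _)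
  omega

/-- G2d. PROOF. If there are no edges both sides are clear. Let `a b` be an edge. If all edges
contain `a`: the number `T` of non-isolated vertices is at most `1 + deg a` and the degree sum is at
least `2 deg a`. The same for `b`. Otherwise there are an edge not containing `a`, so containing `b`,
say `b c`, and one not containing `b`, so containing `a`, say `a d`; they meet, so `c = d` and every
edge lies inside `{a, b, c}`: `T ≤ 3`, degree sum `≥ 6`. -/
theorem star_or_triangle {K : ℕ} (R : Fin K → Fin K → Prop) (hs : ∀ i j, R i j → R j i)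
    (hi : ∀ i, ¬ R i i) (hno : ∀ a b c d, R a b → R c d → a = c ∨ a = d ∨ b = c ∨ b = d) :
    2 * (univ.filter fun j => ∃ i, R j i).card ≤
      ∑ j, (univ.filter fun i => R j i).card + 2 := by
  by_cases hne : ∃ a b, R a b
  · obtain ⟨a, b, hab⟩ := hne
    by_cases h1 : ∀ x y, R x y → x = a ∨ y = a
    · exact G2d_star R hs a h1
    by_cases h2 : ∀ x y, R x y → x = b ∨ y = b
    · exact G2d_star R hs b h2
    push Not at h1 h2
    obtain ⟨x, y, hxy, hxa, hya⟩ := h1
    obtain ⟨u, v, huv, hub, hvb⟩ := h2
    obtain ⟨c, hbc, hca⟩ : ∃ c, R b c ∧ c ≠ a := by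
      rcases hno a b x y hab hxy with h | h | h | h
      · exact absurd h.symm hxa
      · exact absurd h.symm hya
      · subst h; exact ⟨y, hxy, hya⟩
      · subst h; exact ⟨x, hs _ _ hxy, hxa⟩
    obtain ⟨d, had, hdb⟩ : ∃ d, R a d ∧ d ≠ b := by
      rcases hno a b u v hab huv with h | h | h | h
      · subst h; exact ⟨v, huv, hvb⟩
      · subst h; exact ⟨u, hs _ _ huv, hub⟩
      · exact absurd h.symm hub
      · exact absurd h.symm hvb
    have hne1 : a ≠ b := fun h => hi a (by rw [← h] at hab; exact hab)
    have hne2 : b ≠ c := fun h => hi b (by rw [← h] at hbc; exact hbc)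
    have hcd : c = d := by
      rcases hno b c a d hbc had with h | h | h | h
      · exact absurd h.symm hne1
      · exact absurd h.symm hdb
      · exact absurd h hca
      · exact h
    subst hcd
    have hsub : (univ.filter fun j => ∃ i, R j i) ⊆ ({a, b, c} : Finset (Fin K)) := by
      intro j hj
      obtain ⟨i, hji⟩ := (mem_filter.1 hj).2
      by_contra hcon
      simp only [mem_insert, mem_singleton, not_or] at hcon
      obtain ⟨hja, hjb, hjc⟩ := hcon
      have e1 := hno j i a b hji hab
      have e2 := hno j i b c hji hbc
      have e3 := hno j i a c hji had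
      simp only [hja, hjb, hjc, false_or] at e1 e2 e3
      rcases e1 with e1 | e1
      · subst e1
        rcases e2 with e2 | e2
        · exact hne1 e2
        · exact hca e2.symm
      · subst e1
        rcases e3 with e3 | e3
        · exact hne1 e3.symm
        · exact hne2 e3
    have hT : (univ.filter fun j => ∃ i, R j i).card ≤ 3 :=
      (card_le_card hsub).trans card_le_three
    have hDa : 2 ≤ (univ.filter fun i => R a i).card := by
      have : ({b, c} : Finset (Fin K)) ⊆ univ.filter fun i => R a i := by
        intro j hj
        simp only [mem_insert, mem_singleton] at hj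
        rcases hj with rfl | rfl
        · exact mem_filter.2 ⟨mem_univ _, hab⟩
        · exact mem_filter.2 ⟨mem_univ _, had⟩
      calc 2 = ({b, c} : Finset (Fin K)).card := (card_pair hne2).symm
        _ ≤ _ := card_le_card this
    have hDb : 2 ≤ (univ.filter fun i => R b i).card := by
      have : ({a, c} : Finset (Fin K)) ⊆ univ.filter fun i => R b i := by
        intro j hj
        simp only [mem_insert, mem_singleton] at hj
        rcases hj with rfl | rfl
        · exact mem_filter.2 ⟨mem_univ _, hs _ _ hab⟩
        · exact mem_filter.2 ⟨mem_univ _, hbc⟩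
      calc 2 = ({a, c} : Finset (Fin K)).card := (card_pair (Ne.symm hca)).symm
        _ ≤ _ := card_le_card this
    have hsum : (univ.filter fun i => R a i).card + (univ.filter fun i => R b i).card
        ≤ ∑ j, (univ.filter fun i => R j i).card := by
      have : ∑ j ∈ ({a, b} : Finset (Fin K)), (univ.filter fun i => R j i).card
          ≤ ∑ j, (univ.filter fun i => R j i).card := sum_le_sum_of_subset (subset_univ _)
      rwa [sum_pair hne1] at this
    omega
  · have : (univ.filter fun j => ∃ i, R j i) = ∅ := by
      apply filter_eq_empty_iff.2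
      intro j _ hj
      obtain ⟨i, hji⟩ := hj
      exact hne ⟨j, i, hji⟩
    rw [this]
    simp

end Pool.Agent.O2
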