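import Pool.Agent.Lib_helper46.O2.G2b
import Pool.Agent.Lib_helper46.O2.G2c
import Pool.Agent.Lib_helper46.O2.G2d

/-! Dirac case, counting. -/

set_option autoImplicit false
set_option linter.unusedSectionVars false
set_option linter.unusedVariables false

open scoped Classical
open Finset

namespace Pool.Agent.O2

variable {V : Type}

theorem G2e_card {G : SimpleGraph V} {S : Finset V} {K : ℕ} {x : V} {c c' : Fin K → V}
    (h : Conf G S K x c c') :
    (insert x (univ.image c)).card = K + 1 ∧ (univ.image c').card = K ∧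
      Disjoint (insert x (univ.image c)) (univ.image c') ∧
      insert x (univ.image c) ∪ univ.image c' = S := by
  refine ⟨?_, ?_, ?_, ?_⟩
  · rw [card_insert_of_notMem, card_image_of_injective _ h.ic, card_univ, Fintype.card_fin]
    intro hx
    obtain ⟨i, -, hi⟩ := mem_image.1 hx
    exact h.cx i hi
  · rw [card_image_of_injective _ h.ic', card_univ, Fintype.card_fin]
  · rw [disjoint_left]
    intro v hv hv'
    obtain ⟨j, -, hj⟩ := mem_image.1 hv'
    rcases mem_insert.1 hv with h1 | h1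
    · exact h.cx' j (by rw [hj, h1])
    · obtain ⟨i, -, hi⟩ := mem_image.1 h1
      exact h.ne i j (by rw [hi, hj])
  · ext v
    constructor
    · intro hv
      rcases mem_union.1 hv with h1 | h1
      · rcases mem_insert.1 h1 with h2 | h2
        · rw [h2]; exact h.hx
        · obtain ⟨i, -, hi⟩ := mem_image.1 h2
          rw [← hi]; exact h.mc i
      · obtain ⟨i, -, hi⟩ := mem_image.1 h1
        rw [← hi]; exact h.mc' i
    · intro hv
      rcases h.cov v hv with h1 | ⟨i, h1⟩ | ⟨i, h1⟩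
      · exact mem_union_left _ (mem_insert.2 (Or.inl h1))
      · exact mem_union_left _ (mem_insert_of_mem (mem_image.2 ⟨i, mem_univ _, h1.symm⟩))
      · exact mem_union_right _ (mem_image.2 ⟨i, mem_univ _, h1.symm⟩)

theorem G2e_msX {G : SimpleGraph V} {S : Finset V} {K : ℕ} {x : V} {c c' : Fin K → V}
    (h : Conf G S K x c c') :
    ms G (insert x (univ.image c)) ≤
      ∑ j, (univ.filter fun l : Fin K => l ≠ j ∧ ¬ G.Adj (c j) (c l)).card := by
  rw [ms_sum, sum_insert, sum_image (fun i _ j _ hij => h.ic hij)]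
  · have h1 : nd G (insert x (univ.image c)) x = 0 := by
      unfold nd
      rw [card_eq_zero, filter_eq_empty_iff]
      rintro y hy ⟨h2, h3⟩
      rcases mem_insert.1 hy with h4 | h4
      · exact h2 h4
      · obtain ⟨i, -, hi⟩ := mem_image.1 h4
        exact h3 (by rw [← hi]; exact h.adj i)
    rw [h1, zero_add]
    refine sum_le_sum fun j _ => ?_
    unfold nd
    have h2 : ((insert x (univ.image c)).filter fun y => y ≠ c j ∧ ¬ G.Adj (c j) y) ⊆
        (univ.filter fun l : Fin K => l ≠ j ∧ ¬ G.Adj (c j) (c l)).image c := by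
      intro y hy
      obtain ⟨h3, h4, h5⟩ := mem_filter.1 hy
      rcases mem_insert.1 h3 with h6 | h6
      · exact absurd (by rw [h6]; exact (h.adj j).symm) h5
      · obtain ⟨i, -, hi⟩ := mem_image.1 h6
        refine mem_image.2 ⟨i, mem_filter.2 ⟨mem_univ _, ?_, ?_⟩, hi⟩
        · rintro rfl
          exact h4 hi.symm
        · rw [hi]; exact h5
    exact (card_le_card h2).trans card_image_le
  · intro hx
    obtain ⟨i, -, hi⟩ := mem_image.1 hx
    exact h.cx i hi

/-- G2 with a configuration. PROOF. `X = {x} ∪ range c`, `Y = range c'`, `ρ j` the number of `l ≠ j`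
with `c l, c j` not adjacent, `β j` the same for `c'`, `R = Σ ρ j`, `Bt = Σ β j`, `T` the number of
`j` with `ρ j ≥ 1`, `m = pr G X Y`. `pr G X X = K (K + 1) - R`, `pr G Y Y = K (K - 1) - Bt`,
`pr G S S = 2 K² - R - Bt + 2 m`; the claim is `R + Bt + 2 K ≤ 2 m + 2`. For every `j`
`dg G X (c' j) = dg G S (c' j) - (K - 1 - β j) ≥ 1 + β j + (ρ j - 1)⁺` (`Conf.deg`), so
`m ≥ Bt + R + K - T`. If `2 T ≤ R + Bt + 2` we are done. Otherwise (`T ≤ K`) `R + Bt ≤ 2 K - 3`
and `star_or_triangle` gives two disjoint red pairs, `Conf.disj`: `2 m ≥ 4 K - 4`. -/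
theorem Conf.ms_le {G : SimpleGraph V} {S : Finset V} {K : ℕ} {x : V} {c c' : Fin K → V}
    (h : Conf G S K x c c') (hn : S.card = 2 * K + 1) : ms G S ≤ 2 * K ^ 2 + 2 := by
  obtain ⟨hXc, hYc, hd, hS⟩ := G2e_card h
  have hmX := G2e_msX h
  obtain ⟨X, hX⟩ : ∃ X, X = insert x (univ.image c) := ⟨_, rfl⟩
  obtain ⟨Y, hY⟩ : ∃ Y, Y = univ.image c' := ⟨_, rfl⟩
  obtain ⟨ρ, hρ⟩ : ∃ ρ : Fin K → ℕ, ρ = fun j =>
    (univ.filter fun l : Fin K => l ≠ j ∧ ¬ G.Adj (c j) (c l)).card := ⟨_, rfl⟩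
  have hρ' : ∀ j, ρ j = (univ.filter fun l : Fin K => l ≠ j ∧ ¬ G.Adj (c j) (c l)).card :=
    fun j => by rw [hρ]
  simp_rw [← hρ'] at hmX
  have hYm : ∀ j, c' j ∈ Y := fun j => by rw [hY]; exact mem_image.2 ⟨j, mem_univ _, rfl⟩
  have hYs : ∀ F : V → ℕ, ∑ y ∈ Y, F y = ∑ j, F (c' j) := by
    intro F
    rw [hY, sum_image (fun i _ j _ hij => h.ic' hij)]
  rw [← hX] at hXc hd hS hmX
  rw [← hY] at hYc hd hS
  -- pairs
  have e1 : pr G S S = pr G X X + pr G Y Y + 2 * pr G X Y := by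
    rw [← hS, pr_union_left _ hd, pr_union_right _ hd, pr_union_right _ hd, pr_symm G Y X]
    ring
  have e2 := pr_add_ms G S
  have e3 := pr_add_ms G X
  have e4 := pr_add_ms G Y
  have e5 : pr G X Y = ∑ j, dg G X (c' j) := by rw [pr_sum', hYs]
  have e6 : ms G Y = ∑ j, nd G Y (c' j) := by rw [ms_sum, hYs]
  -- degrees
  have h1 : ∀ j : Fin K, nd G Y (c' j) + ρ j + 1 ≤
      dg G X (c' j) + if 1 ≤ ρ j then 1 else 0 := by
    intro j
    have h2 := dg_add_nd (G := G) (hYm j)
    have h3 := h.deg j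
    have h4 := h.crit.dg_ge (h.mc' j)
    rw [← hρ' j] at h3
    rw [← hS, dg_union hd] at h3 h4
    rw [hYc] at h2
    split_ifs with h5 <;> omega
  have h2 := sum_le_sum fun j (_ : j ∈ (univ : Finset (Fin K))) => h1 j
  rw [sum_add_distrib, sum_add_distrib, sum_add_distrib, ← e5, ← e6, ← card_filter, sum_const,
    card_univ, Fintype.card_fin, smul_eq_mul, mul_one] at h2
  have h3 : (univ.filter fun j : Fin K => 1 ≤ ρ j).card ≤ K := by
    have := card_le_card (filter_subset (fun j : Fin K => 1 ≤ ρ j) univ)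
    simpa using this
  rw [hXc] at e3
  rw [hYc] at e4
  rw [hn] at e2
  have key : (∑ j, ρ j) + ms G Y + 2 * K ≤ 2 * pr G X Y + 2 := by
    by_cases h4 : 2 * (univ.filter fun j : Fin K => 1 ≤ ρ j).card ≤ ∑ j, ρ j + 2
    · omega
    · -- two disjoint red pairs
      have h5 : ¬ ∀ a b d e : Fin K, (b ≠ a ∧ ¬ G.Adj (c a) (c b)) →
          (e ≠ d ∧ ¬ G.Adj (c d) (c e)) → a = d ∨ a = e ∨ b = d ∨ b = e := by
        intro h6
        obtain ⟨R, hR⟩ : ∃ R : Fin K → Fin K → Prop, ∀ i j, R i j ↔ (j ≠ i ∧ ¬ G.Adj (c i) (c j)) :=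
          ⟨fun i j => j ≠ i ∧ ¬ G.Adj (c i) (c j), fun _ _ => Iff.rfl⟩
        have h7 := star_or_triangle R
          (fun i j hij => (hR j i).2 ⟨((hR i j).1 hij).1.symm, fun h8 => ((hR i j).1 hij).2 h8.symm⟩)
          (fun i hi => ((hR i i).1 hi).1 rfl)
          (fun a b d e h8 h9 => h6 a b d e ((hR a b).1 h8) ((hR d e).1 h9))
        refine h4 (le_trans (Nat.mul_le_mul_left 2 (card_le_card ?_))
          (h7.trans (Nat.add_le_add_right (sum_le_sum fun j _ => ?_) 2)))
        · intro j hj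
          have h8 := (mem_filter.1 hj).2
          rw [hρ' j, Nat.one_le_iff_ne_zero, ← Nat.pos_iff_ne_zero, card_pos] at h8
          obtain ⟨i, hi⟩ := h8
          exact mem_filter.2 ⟨mem_univ _, i, (hR j i).2 (mem_filter.1 hi).2⟩
        · rw [hρ' j]
          exact card_le_card fun i hi => mem_filter.2 ⟨mem_univ _, (hR j i).1 (mem_filter.1 hi).2⟩
      push Not at h5
      obtain ⟨a, b, d, e, ⟨h6, h7⟩, ⟨h8, h9⟩, h10, h11, h12, h13⟩ := h5
      have h14 := h.disj h6.symm h8.symm h10 h11 h12 h13 h7 h9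
      rw [← hX, ← hY] at h14
      omega
  nlinarith

end Pool.Agent.O2
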