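import Pool.Agent.Lib_helper46.O2.G2a
import Pool.Agent.Lib_helper46.O2.G2e

/-! Dirac case. -/

set_option autoImplicit false
set_option linter.unusedSectionVars false
set_option linter.unusedVariables false

open scoped Classical
open Finset

namespace Pool.Agent.O2

variable {V : Type}

/-- G2. PROOF. If all degrees in `S` are `≥ K + 1` then `ms G S ≤ (2 K + 1) (K - 1)`. Otherwise
some `x` has degree `K` (`CrOn.dg_ge`), `exists_conf` and `Conf.ms_le`. -/
theorem dirac_case {G : SimpleGraph V} {S : Finset V} {K : ℕ} (h : CrOn G S K)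
    (hn : S.card = 2 * K + 1) (hpm : ∀ y ∈ S, PM Gᶜ (S.erase y)) : ms G S ≤ 2 * K ^ 2 + 2 := by
  by_cases hx : ∃ x ∈ S, dg G S x = K
  · obtain ⟨x, hx, hd⟩ := hx
    obtain ⟨c, c', hc⟩ := exists_conf h hn hx hd (hpm x hx)
    exact hc.ms_le hn
  · push Not at hx
    have h1 : ∀ x ∈ S, nd G S x + 1 ≤ K := by
      intro x hxS
      have h2 := h.dg_ge hxS
      have h3 := hx x hxS
      have h4 := dg_add_nd (G := G) hxS
      omega
    have h2 : ∑ x ∈ S, (nd G S x + 1) ≤ ∑ _x ∈ S, K := sum_le_sum h1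
    rw [sum_add_distrib, ← ms_sum, sum_const, sum_const, hn] at h2
    simp only [smul_eq_mul, mul_one] at h2
    nlinarith

end Pool.Agent.O2
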