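import Pool.Agent.Lib_helper46.O2.G1
import Pool.Agent.Lib_helper46.O2.G2

/-! Gallai's bound. -/

set_option autoImplicit false
set_option linter.unusedSectionVars false
set_option linter.unusedVariables false

open scoped Classical
open Finset

namespace Pool.Agent.O2

variable {V : Type}

/-- G3. PROOF by strong induction on `|S|`. `Joined`: `CrOn.join`, `K₁ + K₂ + 1 = K`, so
`q₁ + q₂ = q` (`CrOn.card_ge`), `ms_join`; `2 q₁² + 2 + 2 q₂² + 2 ≤ 2 q² + 2` if `q₁, q₂ ≥ 2`.
Not joined, `|S| ≤ 2 K + 1`: `gallai_conn`, so `q = K`; `K = 0`: `|S| = 1`; `K = 1` is impossible (a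
non-`1`-colourable `S` has an edge `a b`; delete the third vertex); `K ≥ 2`: `dirac_case`.
Not joined, `|S| ≥ 2 K + 2`: `q ≥ K + 1`, `nd G S v ≤ q` by `CrOn.dg_ge`, `dg_add_nd`, so
`ms G S ≤ |S| q ≤ 2 q²`; `q = 1` gives `K = 0`, `|S| = 2`, impossible. -/
theorem gallai {G : SimpleGraph V} (S : Finset V) : ∀ (K q : ℕ), CrOn G S K →
    S.card = K + 1 + q → q ≠ 1 ∧ (q = 0 → ms G S = 0) ∧ ms G S ≤ 2 * q ^ 2 + 2 := by
  induction S using Finset.strongInduction with
  | H S ih =>
    intro K q h hc
    by_cases hj : Joined G S
    · obtain ⟨S₁, S₂, hn1, hn2, hd, hu, hadj⟩ := hj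
      subst hu
      obtain ⟨K₁, K₂, hK, h1, h2⟩ := CrOn.join hn1 hn2 hd hadj h
      have hc1 := h1.card_ge
      have hc2 := h2.card_ge
      have hcu := card_union_of_disjoint hd
      have hs1 : S₁ ⊂ S₁ ∪ S₂ := by
        refine ⟨subset_union_left, fun hs => ?_⟩
        obtain ⟨b, hb⟩ := hn2
        exact disjoint_left.1 hd (hs (mem_union_right _ hb)) hb
      have hs2 : S₂ ⊂ S₁ ∪ S₂ := by
        refine ⟨subset_union_right, fun hs => ?_⟩
        obtain ⟨b, hb⟩ := hn1
        exact disjoint_left.1 hd hb (hs (mem_union_left _ hb))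
      obtain ⟨q₁, hq1⟩ := Nat.exists_eq_add_of_le hc1
      obtain ⟨q₂, hq2⟩ := Nat.exists_eq_add_of_le hc2
      obtain ⟨a1, a2, a3⟩ := ih S₁ hs1 K₁ q₁ h1 hq1
      obtain ⟨b1, b2, b3⟩ := ih S₂ hs2 K₂ q₂ h2 hq2
      have hq : q = q₁ + q₂ := by omega
      have hm := ms_join hd hadj
      rw [hm, hq]
      refine ⟨by omega, ?_, ?_⟩
      · intro h0
        rw [a2 (by omega), b2 (by omega)]
      · rcases Nat.eq_zero_or_pos q₁ with h0 | h0
        · rw [a2 h0, h0]
          simpa using b3
        · rcases Nat.eq_zero_or_pos q₂ with h0' | h0'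
          · rw [b2 h0', h0']
            simpa using a3
          · nlinarith [Nat.mul_pos h0 h0']
    · rcases le_or_gt S.card (2 * K + 1) with hle | hgt
      · obtain ⟨h1, h2⟩ := gallai_conn h hj hle
        have hq : q = K := by omega
        subst hq
        rcases Nat.lt_or_ge q 2 with hq2 | hq2
        · interval_cases q
          · have h3 := pr_add_ms G S
            rw [h1] at h3
            omega
          · exfalso
            have h3 : ∃ a ∈ S, ∃ b ∈ S, G.Adj a b := by
              by_contra hcon
              push Not at hcon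
              exact h.1 (cb_one hcon)
            obtain ⟨a, ha, b, hb, hab⟩ := h3
            have h4 : ∃ z ∈ S, z ≠ a ∧ z ≠ b := by
              by_contra hcon
              push Not at hcon
              have h5 : S ⊆ {a, b} := by
                intro z hz
                rw [mem_insert, mem_singleton]
                by_cases hza : z = a
                · exact Or.inl hza
                · exact Or.inr (hcon z hz hza)
              have h6 := (card_le_card h5).trans card_le_two
              omega
            obtain ⟨z, hz, hza, hzb⟩ := h4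
            obtain ⟨φ, h5, h6⟩ := h.2 z hz
            have ha' : a ∈ S.erase z := mem_erase.2 ⟨hza.symm, ha⟩
            have hb' : b ∈ S.erase z := mem_erase.2 ⟨hzb.symm, hb⟩
            have h7 := h5 a ha'
            have h8 := h5 b hb'
            exact h6 a ha' b hb' hab (by omega)
        · exact ⟨by omega, fun h0 => by omega, dirac_case h h1 h2⟩
      · have hnd : ∀ v ∈ S, nd G S v ≤ q := by
          intro v hv
          have h3 := h.dg_ge hv
          have h4 := dg_add_nd (G := G) hv
          omega
        have h5 : ms G S ≤ S.card * q := by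
          rw [ms_sum, ← smul_eq_mul, ← sum_const]
          exact sum_le_sum hnd
        have hqK : K + 1 ≤ q := by omega
        refine ⟨?_, fun h0 => by omega, ?_⟩
        · intro h0
          have hK : K = 0 := by omega
          subst hK
          obtain ⟨x, hx⟩ := h.nonempty
          have h6 := cb_zero.1 (h.2 x hx)
          have h7 := card_erase_of_mem hx
          rw [h6, card_empty] at h7
          omega
        · rw [hc] at h5
          nlinarith

end Pool.Agent.O2
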