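import Pool.Agent.Lib_helper46.O2.M2
import Pool.Agent.Lib_helper46.O2.G3

/-! The critical piece on the side B. -/

set_option autoImplicit false
set_option linter.unusedSectionVars false
set_option linter.unusedVariables false

open scoped Classical
open Finset

namespace Pool.Agent.O2

variable {V : Type}

theorem M5b_adj_mono {G : SimpleGraph V} {F : Finset (V × V)} {a b : V} (h : G.Adj a b) :
    (addE G F).Adj a b := Or.inl h

/-- an added edge which is useless on `S` -/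
theorem M5b_erase {G : SimpleGraph V} {F : Finset (V × V)} {S : Finset V} {f : V × V}
    (hne : f.1 ≠ f.2)
    (h : f.1 ∉ S ∨ f.2 ∉ S ∨ G.Adj f.1 f.2 ∨ (f.2, f.1) ∈ F) {a b : V} (ha : a ∈ S) (hb : b ∈ S)
    (hab : (addE G F).Adj a b) : (addE G (F.erase f)).Adj a b := by
  rcases hab with hab | ⟨h1, h2⟩
  · exact Or.inl hab
  · rcases h2 with h2 | h2
    · by_cases hf : (a, b) = f
      · subst hf
        rcases h with h | h | h | h
        · exact absurd ha h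
        · exact absurd hb h
        · exact Or.inl h
        · exact Or.inr ⟨h1, Or.inr (mem_erase.2 ⟨fun e => hne (congrArg Prod.snd e), h⟩)⟩
      · exact Or.inr ⟨h1, Or.inl (mem_erase.2 ⟨hf, h2⟩)⟩
    · by_cases hf : (b, a) = f
      · subst hf
        rcases h with h | h | h | h
        · exact absurd hb h
        · exact absurd ha h
        · exact Or.inl h.symm
        · exact Or.inr ⟨h1, Or.inl (mem_erase.2 ⟨fun e => hne (congrArg Prod.snd e), h⟩)⟩
      · exact Or.inr ⟨h1, Or.inr (mem_erase.2 ⟨hf, h2⟩)⟩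

theorem M5b_cb {G H : SimpleGraph V} {S : Finset V} {k : ℕ}
    (h : ∀ a ∈ S, ∀ b ∈ S, G.Adj a b → H.Adj a b) (hH : Cb H S k) : Cb G S k := by
  obtain ⟨φ, h1, h2⟩ := hH
  exact ⟨φ, h1, fun a ha b hb hab => h2 a ha b hb (h a ha b hb hab)⟩

/-- the added edges -/
theorem M5b_pr (G : SimpleGraph V) (F : Finset (V × V)) (S : Finset V) :
    pr (addE G F) S S ≤ pr G S S + 2 * F.card := by
  have h1 : ((S ×ˢ S).filter fun p => (addE G F).Adj p.1 p.2) ⊆
      ((S ×ˢ S).filter fun p => G.Adj p.1 p.2) ∪ (F ∪ F.image Prod.swap) := by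
    intro p hp
    obtain ⟨h2, h3⟩ := mem_filter.1 hp
    rcases h3 with h3 | ⟨-, h3 | h3⟩
    · exact mem_union_left _ (mem_filter.2 ⟨h2, h3⟩)
    · exact mem_union_right _ (mem_union_left _ h3)
    · exact mem_union_right _ (mem_union_right _ (mem_image.2 ⟨_, h3, rfl⟩))
  have h2 : (F ∪ F.image Prod.swap).card ≤ 2 * F.card := by
    have h3 := card_union_le F (F.image Prod.swap)
    have h4 : (F.image Prod.swap).card ≤ F.card := card_image_le
    omega
  have h3 := card_le_card h1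
  have h4 := card_union_le ((S ×ˢ S).filter fun p => G.Adj p.1 p.2) (F ∪ F.image Prod.swap)
  unfold pr
  omega

/-- M5b. PROOF. `addE G F` on `B` is not `K`-colourable (a colouring is one of `G` on `B`, `exists_heavy`,
and the heavy class contains a pair of `F`). Take `F' ⊆ F` of least cardinality with
`¬ Cb (addE G F') B K`, and a critical `B' ⊆ B` for `addE G F'` (`exists_crOn`). `F'` is not empty as
`B` is colourable. If `f ∈ F'` had an end outside `B'`, or `G.Adj f.1 f.2`, or `(f.2, f.1) ∈ F'`,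
then `addE G F'` and `addE G (F'.erase f)` would be the same on `B'`, so `B'` and `B` would not be
colourable for `addE G (F'.erase f)`, against minimality. `Cb (addE G (F'.erase f)) B K` gives `ψ`.
`gallai` for `addE G F'`, and `pr (addE G F') B' B' ≤ pr G B' B' + 2 |F'|`. -/
theorem Sit.pieceB [Fintype V] {G : SimpleGraph V} {K c : ℕ} {A B : Finset V}
    (h : Sit G K c A B) {F : Finset (V × V)} (hF : ∀ f ∈ F, f.1 ∈ B ∧ f.2 ∈ B ∧ f.1 ≠ f.2)
    (hQ : ∀ Q, Heavy G K A B Q → ∃ f ∈ F, f.1 ∈ Q ∧ f.2 ∈ Q) :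
    ∃ (F' : Finset (V × V)) (B' : Finset V) (t : ℕ), F' ⊆ F ∧ F'.Nonempty ∧ B' ⊆ B ∧
      B'.card = K + 1 + t ∧ t ≠ 1 ∧
      (∀ f ∈ F', f.1 ∈ B' ∧ f.2 ∈ B' ∧ ¬ G.Adj f.1 f.2 ∧ (f.2, f.1) ∉ F') ∧
      (∀ f ∈ F', ∃ ψ : V → Fin K, PC G B ψ ∧ ∀ g ∈ F', g ≠ f → ψ g.1 ≠ ψ g.2) ∧
      (t = 0 → ∀ a ∈ B', ∀ b ∈ B', a ≠ b → G.Adj a b ∨ (a, b) ∈ F' ∨ (b, a) ∈ F') ∧
      (K + 1 + t) * (K + t) ≤
        pr G B' B' + 2 * F'.card + 2 * t ^ 2 + (if t = 0 then 0 else 2) := by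
  have hK : 0 < K := by have := h.small; omega
  -- the heavy classes are destroyed
  have hF0 : ¬ Cb (addE G F) B K := by
    intro hc
    obtain ⟨ψ, hψ⟩ := (cb_fin hK).1 hc
    have hψ' : PC G B ψ := fun a ha b hb hab => hψ a ha b hb (Or.inl hab)
    obtain ⟨j, hj⟩ := h.exists_heavy hψ'
    obtain ⟨f, hf, h1, h2⟩ := hQ _ hj
    obtain ⟨h3, h4, h5⟩ := hF f hf
    refine hψ f.1 h3 f.2 h4 (Or.inr ⟨h5, Or.inl hf⟩) ?_
    rw [(mem_filter.1 h1).2, (mem_filter.1 h2).2]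
  obtain ⟨F', hF', hmin⟩ := exists_min_image
    (F.powerset.filter fun F' => ¬ Cb (addE G F') B K) card
    ⟨F, mem_filter.2 ⟨mem_powerset.2 (Subset.refl _), hF0⟩⟩
  obtain ⟨hF'F, hF'c⟩ := mem_filter.1 hF'
  rw [mem_powerset] at hF'F
  have her : ∀ f ∈ F', Cb (addE G (F'.erase f)) B K := by
    intro f hf
    by_contra hcon
    have h1 := hmin (F'.erase f)
      (mem_filter.2 ⟨mem_powerset.2 ((erase_subset _ _).trans hF'F), hcon⟩)
    have h2 := card_erase_lt_of_mem hf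
    omega
  obtain ⟨B', hB', hcr⟩ := exists_crOn hF'c
  have hpair : ∀ f ∈ F', f.1 ∈ B' ∧ f.2 ∈ B' ∧ ¬ G.Adj f.1 f.2 ∧ (f.2, f.1) ∉ F' := by
    intro f hf
    by_contra hcon
    have h1 : f.1 ∉ B' ∨ f.2 ∉ B' ∨ G.Adj f.1 f.2 ∨ (f.2, f.1) ∈ F' := by tauto
    exact hcr.1 (M5b_cb (fun a ha b hb hab => M5b_erase (hF f (hF'F hf)).2.2 h1 ha hb hab)
      (cb_sub hB' (her f hf)))
  obtain ⟨t, ht⟩ : ∃ t, B'.card = K + 1 + t := ⟨B'.card - (K + 1), by have := hcr.card_ge; omega⟩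
  obtain ⟨g1, g2, g3⟩ := gallai B' K t hcr ht
  refine ⟨F', B', t, hF'F, ?_, hB', ht, g1, hpair, ?_, ?_, ?_⟩
  · rw [nonempty_iff_ne_empty]
    rintro rfl
    obtain ⟨ψ, hψ⟩ := h.colB
    apply hF'c
    refine M5b_cb (H := G) ?_ (cb_of_pc hψ)
    rintro a - b - (hab | ⟨-, hab | hab⟩)
    · exact hab
    · exact absurd hab (notMem_empty _)
    · exact absurd hab (notMem_empty _)
  · intro f hf
    obtain ⟨ψ, hψ⟩ := (cb_fin hK).1 (her f hf)
    refine ⟨ψ, fun a ha b hb hab => hψ a ha b hb (Or.inl hab), fun g hg hgf => ?_⟩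
    obtain ⟨h1, h2, -, -⟩ := hpair g hg
    exact hψ g.1 (hB' h1) g.2 (hB' h2)
      (Or.inr ⟨(hF g (hF'F hg)).2.2, Or.inl (mem_erase.2 ⟨hgf, hg⟩)⟩)
  · intro ht0 a ha b hb hab
    have h1 := g2 ht0
    unfold ms at h1
    rw [card_eq_zero, filter_eq_empty_iff] at h1
    have h2 := h1 (x := (a, b)) (mem_product.2 ⟨ha, hb⟩)
    have h3 : (addE G F').Adj a b := by
      by_contra hcon
      exact h2 ⟨hab, hcon⟩
    rcases h3 with h3 | ⟨-, h3⟩
    · exact Or.inl h3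
    · exact Or.inr h3
  · have h1 := pr_add_ms (addE G F') B'
    have h2 := M5b_pr G F' B'
    rw [ht] at h1
    have h3 : (K + 1 + t) * (K + 1 + t) = (K + 1 + t) * (K + t) + (K + 1 + t) := by ring
    rw [h3] at h1
    split_ifs with ht0
    · have h4 := g2 ht0
      omega
    · omega

end Pool.Agent.O2
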