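import Pool.Agent.Lib_helper46.O2.L2

/-! The structure lemma. -/

set_option autoImplicit false
set_option linter.unusedSectionVars false
set_option linter.unusedVariables false

open scoped Classical
open Finset

namespace Pool.Agent.O2

variable {V : Type}

/-- counting by fibres -/
theorem C1_fib [Fintype V] (P : Finset (V × V)) (f : V × V → V) (g : V → ℕ)
    (h : ∀ v, (P.filter fun p => f p = v).card ≤ g v) : P.card ≤ ∑ v, g v := by
  rw [card_eq_sum_card_fiberwise (f := f) (t := univ) (fun _ _ => by simp)]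
  exact sum_le_sum fun v _ => h v

/-- colour `univ - a` by moving `x` to the class of `a` -/
theorem C1_pca [Fintype V] {G : SimpleGraph V} {K : ℕ} {x : V} {φ : V → Fin K}
    (hφ : PC G (univ.erase x) φ) {a : V} (ha : ∀ y, G.Adj x y → φ y = φ a → y = a) :
    PC G (univ.erase a) (fun v => if v = x then φ a else φ v) := by
  intro u hu v hv huv
  have hua := (mem_erase.1 hu).1
  have hva := (mem_erase.1 hv).1
  by_cases h1 : u = x <;> by_cases h2 : v = x
  · rw [h1, h2] at huv; exact absurd huv G.irrefl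
  · simp only [h1, h2, if_true, if_false]
    rw [h1] at huv
    exact fun h3 => hva (ha v huv h3.symm)
  · simp only [h1, h2, if_true, if_false]
    rw [h2] at huv
    exact fun h3 => hua (ha u huv.symm h3)
  · simp only [h1, h2, if_false]
    exact hφ u (mem_erase.2 ⟨h1, mem_univ _⟩) v (mem_erase.2 ⟨h2, mem_univ _⟩) huv

/-- colour `univ - w` by moving `x` to the class of `a` and `a` to the class of `w` -/
theorem C1_pcw [Fintype V] {G : SimpleGraph V} {K : ℕ} {x : V} {φ : V → Fin K}
    (hφ : PC G (univ.erase x) φ) {a w : V} (hax : a ≠ x)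
    (ha : ∀ y, G.Adj x y → φ y = φ a → y = a)
    (hw : ∀ y, y ≠ x → G.Adj a y → φ y = φ w → y = w) (hne : φ a ≠ φ w) :
    PC G (univ.erase w) (fun v => if v = x then φ a else if v = a then φ w else φ v) := by
  have key : ∀ u v, u ≠ w → v ≠ w → G.Adj u v → (u = x ∨ (u = a ∧ v ≠ x)) →
      (if u = x then φ a else if u = a then φ w else φ u) ≠
        (if v = x then φ a else if v = a then φ w else φ v) := by
    intro u v hu hv huv h
    rcases h with rfl | ⟨rfl, h⟩
    · have hvx : v ≠ u := huv.ne'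
      by_cases h2 : v = a
      · simp only [if_true, hvx, if_false, h2]
        simpa [hax] using hne
      · simp only [if_true, hvx, if_false, h2]
        exact fun h3 => h2 (ha v huv h3.symm)
    · have hva : v ≠ u := huv.ne'
      simp only [hax, if_false, if_true, h, hva]
      exact fun h3 => hv (hw v h huv h3.symm)
  intro u hu v hv huv
  have huw := (mem_erase.1 hu).1
  have hvw := (mem_erase.1 hv).1
  by_cases h1 : u = x
  · exact key u v huw hvw huv (Or.inl h1)
  by_cases h2 : v = x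
  · exact (key v u hvw huw huv.symm (Or.inl h2)).symm
  by_cases h3 : u = a
  · exact key u v huw hvw huv (Or.inr ⟨h3, h2⟩)
  by_cases h4 : v = a
  · exact (key v u hvw huw huv.symm (Or.inr ⟨h4, h1⟩)).symm
  simp only [h1, h2, h3, h4, if_false]
  exact hφ u (mem_erase.2 ⟨h1, mem_univ _⟩) v (mem_erase.2 ⟨h2, mem_univ _⟩) huv

/-- exchange `a` and `w` and move `x` to the class of `a` -/
theorem C1_ex [Fintype V] {G : SimpleGraph V} {K : ℕ} {x : V} {φ : V → Fin K}
    (hφ : PC G (univ.erase x) φ) {a w : V} (hax : a ≠ x) (hwx : w ≠ x)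
    (ha : ∀ y, G.Adj x y → φ y = φ a → y = a)
    (hw : ∀ y, y ≠ x → G.Adj a y → φ y = φ w → y = w) (hne : φ a ≠ φ w)
    (hxw : ¬ G.Adj x w) (hu : ∀ y, y ≠ x → G.Adj w y → φ y = φ a → y = a) :
    Cb G univ K := by
  have h0 := C1_pcw hφ hax ha hw hne
  have haw : a ≠ w := fun h => hne (by rw [h])
  apply cb_of_pc (φ := fun v => if v = w then φ a else
    (if v = x then φ a else if v = a then φ w else φ v))
  have key : ∀ v, v ≠ w → G.Adj w v →
      φ a ≠ (if v = x then φ a else if v = a then φ w else φ v) := by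
    intro v hv hwv
    have hvx : v ≠ x := fun h => hxw (by rw [← h]; exact hwv.symm)
    by_cases h2 : v = a
    · simp only [hvx, if_false, h2]
      simpa [hax] using hne
    · simp only [hvx, if_false, h2]
      exact fun h3 => h2 (hu v hvx hwv h3.symm)
  intro u _ v _ huv
  by_cases h1 : u = w <;> by_cases h2 : v = w
  · rw [h1, h2] at huv; exact absurd huv G.irrefl
  · rw [h1] at huv ⊢
    simp only [if_true, h2, if_false]
    exact key v h2 huv
  · rw [h2] at huv ⊢
    simp only [if_true, h1, if_false]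
    exact (key u h1 huv.symm).symm
  · simp only [h1, h2, if_false]
    exact h0 u (mem_erase.2 ⟨h1, mem_univ _⟩) v (mem_erase.2 ⟨h2, mem_univ _⟩) huv

/-- C1. PROOF. Let `φ` colour `univ.erase x`, `C_i` its classes, `I` the colours `i` for which `x` has
exactly one neighbour `c_i` in `C_i`, `X = {x} ∪ {c_i : i ∈ I}`; `CrOn.nbr_all`, `CrOn.two_le`:
`2 K ≤ |I| + deg x`. Ordered non-adjacent pairs of `X` are pairs `(c_i, c_j)`.
(1) Pairs for which `c_i` has `≥ 2` neighbours in `C_j`. `univ.erase c_i` is coloured by `φ` with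
`x ↦ i`, so by `CrOn.two_le` for `c_i` there are `≤ deg c_i - K` such `j`.
(2) Pairs for which `c_i` has exactly one neighbour `w` in `C_j`, `w ≠ c_j`. If `c_i` were the only
neighbour of `w` in `C_i`, exchange the colours of `c_i` and `w` and give `x` the colour `i`:
a colouring of `G`. So `w` has `≥ 2` neighbours in `C_i`. `univ.erase w` is coloured by
`c_i ↦ j`, `x ↦ i` and `φ` elsewhere; in this colouring `w` has `≥ 2` neighbours in every class
`i' ≠ i` belonging to another pair `(i', j)` of this kind with the same `w`; so each `w` belongs to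
`≤ deg w - K + 1` pairs `(i, j)` (`j = φ w`), and these are `≤ Σ (deg w - K + 1)` pairs. -/
theorem struct_lemma [Fintype V] {G : SimpleGraph V} {K : ℕ} (hK : 1 ≤ K)
    (h : CrOn G univ K) (x : V) :
    ∃ X : Finset V, x ∈ X ∧ X.card ≤ K + 1 ∧ 2 * K + 1 ≤ X.card + dg G univ x ∧
      ms G X + 2 * K * Fintype.card V ≤ 2 * pr G univ univ + Fintype.card V := by
  obtain ⟨φ, hφ⟩ := h.pc hK (mem_univ x)
  set C : Finset V := univ.filter fun y => G.Adj x y ∧ ∀ z, G.Adj x z → φ z = φ y → z = y with hC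
  have hCm : ∀ {y}, y ∈ C ↔ G.Adj x y ∧ ∀ z, G.Adj x z → φ z = φ y → z = y := by
    intro y; simp [hC]
  have hinj : Set.InjOn φ (C : Set V) := by
    intro a ha b hb hab
    exact (hCm.1 hb).2 a (hCm.1 ha).1 hab
  have hxC : x ∉ C := fun hx => G.irrefl (hCm.1 hx).1
  -- the number of elements of `C`
  have hNs : ∀ i, ∃ y, G.Adj x y ∧ φ y = i := by
    intro i
    obtain ⟨y, -, -, h1, h2⟩ := h.nbr_all (mem_univ x) hφ i
    exact ⟨y, h1, h2⟩
  have hcard : K ≤ C.card + (univ.filter fun i : Fin K =>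
      2 ≤ (univ.filter fun y => G.Adj x y ∧ φ y = i).card).card := by
    have h1 : (univ : Finset (Fin K)) ⊆ C.image φ ∪ (univ.filter fun i : Fin K =>
        2 ≤ (univ.filter fun y => G.Adj x y ∧ φ y = i).card) := by
      intro i _
      by_cases h2 : 2 ≤ (univ.filter fun y => G.Adj x y ∧ φ y = i).card
      · exact mem_union_right _ (mem_filter.2 ⟨mem_univ _, h2⟩)
      · apply mem_union_left
        obtain ⟨y, h3, h4⟩ := hNs i
        refine mem_image.2 ⟨y, hCm.2 ⟨h3, fun z hz hzy => ?_⟩, h4⟩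
        have h5 : (univ.filter fun y => G.Adj x y ∧ φ y = i).card ≤ 1 := by omega
        rw [card_le_one] at h5
        exact h5 z (mem_filter.2 ⟨mem_univ _, hz, hzy.trans h4⟩) y
          (mem_filter.2 ⟨mem_univ _, h3, h4⟩)
    have h2 := card_le_card h1
    have h3 := card_union_le (C.image φ) (univ.filter fun i : Fin K =>
        2 ≤ (univ.filter fun y => G.Adj x y ∧ φ y = i).card)
    have h4 : (C.image φ).card ≤ C.card := card_image_le
    rw [card_univ, Fintype.card_fin] at h2
    omega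
  have hCK : C.card ≤ K := by
    have h1 := card_image_of_injOn hinj
    have h2 := card_le_card (subset_univ (C.image φ))
    rw [card_univ, Fintype.card_fin] at h2
    omega
  have htwo := h.two_le (mem_univ x) hφ
  have hcX : (insert x C).card = C.card + 1 := card_insert_of_notMem hxC
  refine ⟨insert x C, mem_insert_self _ _, by omega, by omega, ?_⟩
  -- the excess
  have hex : ∑ v : V, (dg G univ v - K) + K * Fintype.card V = pr G univ univ := by
    rw [pr_sum]
    have h1 : ∀ v ∈ (univ : Finset V), dg G univ v = (dg G univ v - K) + K := fun v _ => by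
      have := h.dg_ge (mem_univ v)
      omega
    rw [sum_congr rfl h1, sum_add_distrib, sum_const, card_univ, smul_eq_mul, mul_comm K]
  set P : Finset (V × V) := (C ×ˢ C).filter fun p => p.1 ≠ p.2 ∧ ¬ G.Adj p.1 p.2 with hP
  have hms : ms G (insert x C) ≤ P.card := by
    unfold ms
    refine card_le_card fun p hp => ?_
    obtain ⟨h1, h2, h3⟩ := mem_filter.1 hp
    obtain ⟨h4, h5⟩ := mem_product.1 h1
    have e1 : p.1 ∈ C := by
      rcases mem_insert.1 h4 with e | e
      · exfalso
        rcases mem_insert.1 h5 with e' | e'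
        · exact h2 (e.trans e'.symm)
        · rw [e] at h3; exact h3 (hCm.1 e').1
      · exact e
    have e2 : p.2 ∈ C := by
      rcases mem_insert.1 h5 with e | e
      · exfalso
        rw [e] at h3; exact h3 (hCm.1 e1).1.symm
      · exact e
    exact mem_filter.2 ⟨mem_product.2 ⟨e1, e2⟩, h2, h3⟩
  -- the neighbours of `a` of the colour `j`, without `x`
  let M : V → Fin K → Finset V := fun a j => univ.filter fun y => y ≠ x ∧ G.Adj a y ∧ φ y = j
  have hM : ∀ {a j y}, y ∈ M a j ↔ y ≠ x ∧ G.Adj a y ∧ φ y = j := by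
    intro a j y; simp [M]
  set P1 := P.filter fun p => 2 ≤ (M p.1 (φ p.2)).card with hP1
  set P2 := P.filter fun p => ¬ 2 ≤ (M p.1 (φ p.2)).card with hP2
  have hP12 : P.card = P1.card + P2.card := (card_filter_add_card_filter_not _).symm
  have hPm : ∀ {p}, p ∈ P → p.1 ∈ C ∧ p.2 ∈ C ∧ p.1 ≠ p.2 ∧ ¬ G.Adj p.1 p.2 ∧ φ p.1 ≠ φ p.2 := by
    intro p hp
    obtain ⟨h1, h2, h3⟩ := mem_filter.1 hp
    obtain ⟨h4, h5⟩ := mem_product.1 h1
    exact ⟨h4, h5, h2, h3, fun e => h2 (hinj h4 h5 e)⟩
  -- first kind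
  have hone : P1.card ≤ ∑ v : V, (dg G univ v - K) := by
    refine C1_fib P1 Prod.fst _ fun a => ?_
    by_cases hne : (P1.filter fun p => p.1 = a) = ∅
    · rw [hne]; simp
    obtain ⟨p0, hp0⟩ := nonempty_iff_ne_empty.2 hne
    have haC : a ∈ C := by
      rw [← (mem_filter.1 hp0).2]
      exact (hPm (mem_filter.1 (mem_filter.1 hp0).1).1).1
    have hax : a ≠ x := fun e => hxC (by rw [← e]; exact haC)
    have h1 := C1_pca hφ (hCm.1 haC).2
    have h2 := h.two_le (mem_univ a) h1
    have h3 : (P1.filter fun p => p.1 = a).card ≤ (univ.filter fun i : Fin K =>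
        2 ≤ (univ.filter fun y => G.Adj a y ∧ (if y = x then φ a else φ y) = i).card).card := by
      refine card_le_card_of_injOn (fun p => φ p.2) ?_ ?_
      · intro p hp
        obtain ⟨h4, h5⟩ := mem_filter.1 (mem_coe.1 hp)
        obtain ⟨h6, h7⟩ := mem_filter.1 h4
        obtain ⟨-, -, -, -, h8⟩ := hPm h6
        refine mem_coe.2 (mem_filter.2 ⟨mem_univ _, h7.trans (card_le_card fun y hy => ?_)⟩)
        obtain ⟨e1, e2, e3⟩ := hM.1 hy
        rw [h5] at e2
        refine mem_filter.2 ⟨mem_univ _, e2, ?_⟩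
        rw [if_neg e1]; exact e3
      · intro p hp q hq hpq
        obtain ⟨h4, h5⟩ := mem_filter.1 (mem_coe.1 hp)
        obtain ⟨h6, h7⟩ := mem_filter.1 (mem_coe.1 hq)
        have e1 := (hPm (mem_filter.1 h4).1).2.1
        have e2 := (hPm (mem_filter.1 h6).1).2.1
        exact Prod.ext (h5.trans h7.symm) (hinj e1 e2 hpq)
    omega
  -- second kind
  have hw : ∀ p ∈ P2, ∃ w, w ≠ x ∧ G.Adj p.1 w ∧ φ w = φ p.2 ∧
      (∀ y, y ≠ x → G.Adj p.1 y → φ y = φ w → y = w) ∧ 2 ≤ (M w (φ p.1)).card := by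
    intro p hp
    obtain ⟨h1, h2⟩ := mem_filter.1 hp
    obtain ⟨ha, hb, hab, hnadj, hcol⟩ := hPm h1
    have hax : p.1 ≠ x := fun e => hxC (by rw [← e]; exact ha)
    have hpa := C1_pca hφ (hCm.1 ha).2
    obtain ⟨w, -, -, hw1, hw2⟩ := h.nbr_all (mem_univ p.1) hpa (φ p.2)
    have hwx : w ≠ x := by
      intro e
      rw [if_pos e] at hw2
      exact hcol hw2
    rw [if_neg hwx] at hw2
    have huniq : ∀ y, y ≠ x → G.Adj p.1 y → φ y = φ w → y = w := by
      intro y hy1 hy2 hy3
      have h5 : (M p.1 (φ p.2)).card ≤ 1 := by omega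
      rw [card_le_one] at h5
      exact h5 y (hM.2 ⟨hy1, hy2, hy3.trans hw2⟩) w (hM.2 ⟨hwx, hw1, hw2⟩)
    refine ⟨w, hwx, hw1, hw2, huniq, ?_⟩
    by_contra h6
    have h7 : (M w (φ p.1)).card ≤ 1 := by omega
    rw [card_le_one] at h7
    have hxw : ¬ G.Adj x w := by
      intro hxw
      have := (hCm.1 hb).2 w hxw hw2
      rw [this] at hw1
      exact hnadj hw1
    refine h.1 (C1_ex hφ hax hwx (hCm.1 ha).2 huniq (by rw [hw2]; exact hcol) hxw ?_)
    intro y hy1 hy2 hy3
    exact h7 y (hM.2 ⟨hy1, hy2, hy3⟩) p.1 (hM.2 ⟨hax, hw1.symm, rfl⟩)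
  haveI : Nonempty V := ⟨x⟩
  choose! wf hwf using hw
  have htwo' : P2.card ≤ ∑ v : V, ((dg G univ v - K) + 1) := by
    refine C1_fib P2 wf _ fun w => ?_
    by_cases hne : (P2.filter fun p => wf p = w) = ∅
    · rw [hne]; simp
    obtain ⟨p0, hp0⟩ := nonempty_iff_ne_empty.2 hne
    obtain ⟨hp0', hw0⟩ := mem_filter.1 hp0
    obtain ⟨h1, h2, h3, h4, h5⟩ := hwf p0 hp0'
    rw [hw0] at h1 h2 h3 h4 h5
    obtain ⟨ha, hb, hab, hnadj, hcol⟩ := hPm (mem_filter.1 hp0').1
    have hax : p0.1 ≠ x := fun e => hxC (by rw [← e]; exact ha)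
    have hpc := C1_pcw hφ hax (hCm.1 ha).2 h4 (by rw [h3]; exact hcol)
    have h6 := h.two_le (mem_univ w) hpc
    have h7 : ((P2.filter fun p => wf p = w).erase p0).card ≤ (univ.filter fun i : Fin K =>
        2 ≤ (univ.filter fun y => G.Adj w y ∧
          (if y = x then φ p0.1 else if y = p0.1 then φ w else φ y) = i).card).card := by
      have hsame : ∀ q ∈ (P2.filter fun p => wf p = w), q.2 = p0.2 ∧ q.1 ∈ C ∧
          2 ≤ (M w (φ q.1)).card ∧ φ q.1 ≠ φ q.2 := by
        intro q hq
        obtain ⟨e1, e2⟩ := mem_filter.1 hq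
        obtain ⟨g1, g2, g3, g4, g5⟩ := hwf q e1
        rw [e2] at g3 g5
        obtain ⟨k1, k2, -, -, k5⟩ := hPm (mem_filter.1 e1).1
        exact ⟨hinj k2 hb (g3.symm.trans h3), k1, g5, k5⟩
      refine card_le_card_of_injOn (fun p => φ p.1) ?_ ?_
      · intro q hq
        obtain ⟨hq1, hq2⟩ := mem_erase.1 (mem_coe.1 hq)
        obtain ⟨e1, e2, e3, e4⟩ := hsame q hq2
        have hne' : φ q.1 ≠ φ p0.1 := by
          intro e
          exact hq1 (Prod.ext (hinj e2 ha e) e1)
        refine mem_coe.2 (mem_filter.2 ⟨mem_univ _, e3.trans (card_le_card fun y hy => ?_)⟩)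
        obtain ⟨k1, k2, k3⟩ := hM.1 hy
        refine mem_filter.2 ⟨mem_univ _, k2, ?_⟩
        have k4 : y ≠ p0.1 := by
          intro e
          rw [e] at k3
          exact hne' k3.symm
        rw [if_neg k1, if_neg k4]; exact k3
      · intro q hq q' hq' hqq
        obtain ⟨-, hq2⟩ := mem_erase.1 (mem_coe.1 hq)
        obtain ⟨-, hq2'⟩ := mem_erase.1 (mem_coe.1 hq')
        obtain ⟨e1, e2, -, -⟩ := hsame q hq2
        obtain ⟨f1, f2, -, -⟩ := hsame q' hq2'
        exact Prod.ext (hinj e2 f2 hqq) (e1.trans f1.symm)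
    rw [card_erase_of_mem hp0] at h7
    omega
  rw [sum_add_distrib, sum_const, card_univ, smul_eq_mul, mul_one] at htwo'
  have hKn : 2 * K * Fintype.card V = 2 * (K * Fintype.card V) := by ring
  omega

end Pool.Agent.O2
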