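import Pool.Agent.Lib_helper46.O2.C2a

/-! The minimal cut. -/

set_option autoImplicit false
set_option linter.unusedSectionVars false
set_option linter.unusedVariables false

open scoped Classical
open Finset

namespace Pool.Agent.O2

variable {V : Type}

/-- moving a vertex -/
theorem C2_move {G : SimpleGraph V} {A B : Finset V} {v : V} (hv : v ∈ A) (hd : Disjoint A B) :
    pr G (A.erase v) (insert v B) + dg G B v = pr G A B + dg G A v := by
  have h1 : v ∉ B := fun h => disjoint_left.1 hd hv h
  have h2 : pr G (A.erase v) (insert v B) = pr G (A.erase v) B + dg G A v := by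
    rw [pr_sum' G (A.erase v) (insert v B), sum_insert h1, dg_erase_self, ← pr_sum']
    omega
  have h3 : pr G A B = pr G (A.erase v) B + dg G B v := by
    rw [pr_sum G A B, pr_sum G (A.erase v) B, ← sum_erase_add A _ hv]
  omega

/-- size of one side -/
theorem C2_size [Fintype V] {G : SimpleGraph V} {K p : ℕ} (h : CrOn G univ K) {A B : Finset V}
    (hd : Disjoint A B) (hu : A ∪ B = univ) (hA : K + 1 ≤ 2 * A.card)
    (hm : pr G A B ≤ 6 * (p + 1) * (K + 1)) : K + 1 ≤ A.card + 12 * (p + 1) := by
  by_contra hcon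
  have h1 : K * A.card ≤ pr G A univ := by
    rw [pr_sum]
    have h2 : ∑ _v ∈ A, K ≤ ∑ v ∈ A, dg G univ v := sum_le_sum fun v _ => h.dg_ge (mem_univ v)
    rw [sum_const, smul_eq_mul] at h2
    nlinarith
  have h3 : pr G A univ = pr G A A + pr G A B := by rw [← hu, pr_union_right A hd]
  have h4 := pr_le G A
  have h5 : 0 < A.card := by omega
  obtain ⟨t, ht⟩ : ∃ t, K + 1 = A.card + 12 * (p + 1) + (t + 1) :=
    ⟨K + 1 - (A.card + 12 * (p + 1)) - 1, by omega⟩
  have h6 : (K + 1) * A.card ≤ A.card * A.card + 6 * (p + 1) * (K + 1) := by nlinarith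
  have h7 : 6 * (p + 1) * (K + 1) ≤ 12 * (p + 1) * A.card := by nlinarith
  have h8 : (K + 1) * A.card = A.card * A.card + 12 * (p + 1) * A.card + (t + 1) * A.card := by
    rw [ht]; ring
  have h9 : 0 < (t + 1) * A.card := Nat.mul_pos (Nat.succ_pos t) h5
  omega

/-- PROOF. Among the sets `A` with `K + 1 ≤ 2 |A|`, `K + 1 ≤ 2 |univ \ A|` take one with
`pr G A (univ \ A)` minimal; `m ≤ 6 (p + 1) (K + 1)`. `|A| (|A| - 1) + m ≥ pr G A univ ≥ K |A|`,
so `|A| (K + 1 - |A|) ≤ m ≤ 12 (p + 1) |A|` if `|A| ≤ K`: the sizes. Moving `v` from `A` to the other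
side keeps `K + 1 ≤ 2 |A|` and changes `m` by `dg G A v - dg G B v`. -/
theorem min_cut [Fintype V] {G : SimpleGraph V} {K p : ℕ} (hp : 1 ≤ p)
    (hpK : 1000 * (p + 1) ≤ K) (h : CrOn G univ K) (hn : Fintype.card V = 2 * K + 1 + p)
    (hex : (pr G univ univ : ℤ) < (K : ℤ) * (2 * K + 1 + p) + p * (K + 1 - p) + K - 4) :
    ∃ A B : Finset V, Disjoint A B ∧ A ∪ B = univ ∧ pr G A B ≤ 6 * (p + 1) * (K + 1) ∧
      (∀ v ∈ A, dg G B v ≤ dg G A v) ∧ (∀ v ∈ B, dg G A v ≤ dg G B v) ∧
      K + 1 ≤ A.card + 12 * (p + 1) ∧ K + 1 ≤ B.card + 12 * (p + 1) := by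
  obtain ⟨X, hX1, hX2, hX3⟩ := init_cut hp (by omega) h hn hex
  set F : Finset (Finset V) :=
    univ.filter fun A => K + 1 ≤ 2 * A.card ∧ K + 1 ≤ 2 * (univ \ A).card with hF
  obtain ⟨A, hA, hmin⟩ := exists_min_image F (fun A => pr G A (univ \ A))
    ⟨X, mem_filter.2 ⟨mem_univ _, hX1, hX2⟩⟩
  obtain ⟨-, hA1, hA2⟩ := mem_filter.1 hA
  set B := univ \ A with hB
  have hd : Disjoint A B := disjoint_sdiff
  have hu : A ∪ B = univ := union_sdiff_of_subset (subset_univ A)
  have hm : pr G A B ≤ 6 * (p + 1) * (K + 1) :=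
    (hmin X (mem_filter.2 ⟨mem_univ _, hX1, hX2⟩)).trans hX3
  have hsA := C2_size (p := p) h hd hu hA1 hm
  have hsB := C2_size (p := p) h hd.symm (by rw [union_comm]; exact hu) hA2
    (by rw [pr_symm]; exact hm)
  have hmin' : ∀ A' B' : Finset V, Disjoint A' B' → A' ∪ B' = univ → K + 1 ≤ 2 * A'.card →
      K + 1 ≤ 2 * B'.card → pr G A B ≤ pr G A' B' := by
    intro A' B' h1 h2 h3 h4
    have h5 : univ \ A' = B' := by
      rw [← h2, union_sdiff_cancel_left h1]
    have h6 := hmin A' (mem_filter.2 ⟨mem_univ _, h3, by rw [h5]; exact h4⟩)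
    rw [h5] at h6
    exact h6
  refine ⟨A, B, hd, hu, hm, ?_, ?_, hsA, hsB⟩
  · intro v hv
    by_contra hcon
    have hvB : v ∉ B := fun h => disjoint_left.1 hd hv h
    have h1 := C2_move (G := G) hv hd
    have h2 := hmin' (A.erase v) (insert v B)
      (by
        rw [disjoint_left]
        intro a ha hb
        obtain ⟨ha1, ha2⟩ := mem_erase.1 ha
        rcases mem_insert.1 hb with h3 | h3
        · exact ha1 h3
        · exact disjoint_left.1 hd ha2 h3)
      (by
        ext a
        constructor
        · intro _; exact mem_univ a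
        · intro _
          have h3 : a ∈ A ∪ B := by rw [hu]; exact mem_univ a
          rcases mem_union.1 h3 with h4 | h4
          · by_cases h5 : a = v
            · exact mem_union_right _ (mem_insert.2 (Or.inl h5))
            · exact mem_union_left _ (mem_erase.2 ⟨h5, h4⟩)
          · exact mem_union_right _ (mem_insert_of_mem h4))
      (by rw [card_erase_of_mem hv]; omega)
      (by rw [card_insert_of_notMem hvB]; omega)
    omega
  · intro v hv
    by_contra hcon
    have hvA : v ∉ A := fun h => disjoint_left.1 hd h hv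
    have h1 := C2_move (G := G) hv hd.symm
    have h2 := hmin' (insert v A) (B.erase v)
      (by
        rw [disjoint_left]
        intro a hb ha
        obtain ⟨ha1, ha2⟩ := mem_erase.1 ha
        rcases mem_insert.1 hb with h3 | h3
        · exact ha1 h3
        · exact disjoint_left.1 hd h3 ha2)
      (by
        ext a
        constructor
        · intro _; exact mem_univ a
        · intro _
          have h3 : a ∈ A ∪ B := by rw [hu]; exact mem_univ a
          rcases mem_union.1 h3 with h4 | h4
          · exact mem_union_left _ (mem_insert_of_mem h4)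
          · by_cases h5 : a = v
            · exact mem_union_left _ (mem_insert.2 (Or.inl h5))
            · exact mem_union_right _ (mem_erase.2 ⟨h5, h4⟩))
      (by rw [card_insert_of_notMem hvA]; omega)
      (by rw [card_erase_of_mem hv]; omega)
    rw [pr_symm G (insert v A)] at h2
    rw [pr_symm G B A] at h1
    omega

end Pool.Agent.O2
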