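import Pool.Agent.Lib_helper46.O2.C1

/-! The first cut. -/

set_option autoImplicit false
set_option linter.unusedSectionVars false
set_option linter.unusedVariables false

open scoped Classical
open Finset

namespace Pool.Agent.O2

variable {V : Type}

/-- C2. PROOF. `Σ_v (deg v - K) < (p + 1)(K + 1)`, so some `x` has `2 (deg x - K) ≤ p` (otherwise the
sum is `≥ (2 K + 1 + p)(p + 1) / 2`). `struct_lemma` for `x`: `K + 1 - p / 2 ≤ |X| ≤ K + 1`.
`pr G X Xᶜ = Σ_(v ∈ X) deg v - pr G X X ≤ K |X| + ex - (|X|² - |X| - ms G X)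
≤ |X| (K + 1 - |X|) + 3 ex + n`, `ex = pr G univ univ - K n < (p + 1)(K + 1)`. -/
theorem init_cut [Fintype V] {G : SimpleGraph V} {K p : ℕ} (hp : 1 ≤ p) (hpK : 100 * p ≤ K)
    (h : CrOn G univ K) (hn : Fintype.card V = 2 * K + 1 + p)
    (hex : (pr G univ univ : ℤ) < (K : ℤ) * (2 * K + 1 + p) + p * (K + 1 - p) + K - 4) :
    ∃ X : Finset V, K + 1 ≤ 2 * X.card ∧ K + 1 ≤ 2 * (univ \ X).card ∧
      pr G X (univ \ X) ≤ 6 * (p + 1) * (K + 1) := by
  have hx : ∃ x, 2 * dg G univ x ≤ 2 * K + p := by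
    by_contra hcon
    push Not at hcon
    have h1 : ∑ x : V, (2 * K + p + 1) ≤ ∑ x : V, 2 * dg G univ x :=
      sum_le_sum fun x _ => hcon x
    rw [sum_const, card_univ, hn, smul_eq_mul, ← mul_sum, ← pr_sum] at h1
    have h2 : (((2 * K + 1 + p) * (2 * K + p + 1) : ℕ) : ℤ) ≤ ((2 * pr G univ univ : ℕ) : ℤ) := by
      exact_mod_cast h1
    push_cast at h2
    nlinarith
  obtain ⟨x, hx⟩ := hx
  obtain ⟨X, hxX, hX1, hX2, hX3⟩ := struct_lemma (K := K) (by omega) h x
  have hc : (univ \ X).card + X.card = 2 * K + 1 + p := by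
    rw [card_sdiff_add_card_eq_card (subset_univ X), card_univ, hn]
  refine ⟨X, by omega, by omega, ?_⟩
  have hd : Disjoint X (univ \ X) := disjoint_sdiff
  have hu : X ∪ (univ \ X) = univ := by
    rw [union_sdiff_of_subset (subset_univ X)]
  have e1 := pr_union_left (G := G) univ hd
  rw [hu] at e1
  have e2 := pr_union_right (G := G) X hd
  rw [hu] at e2
  have e3 := pr_add_ms G X
  have e4 : (univ \ X).card * K ≤ pr G (univ \ X) univ := by
    rw [pr_sum, ← smul_eq_mul, ← sum_const]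
    exact sum_le_sum fun v _ => h.dg_ge (mem_univ v)
  rw [hn] at hX3
  generalize pr G univ univ = P at *
  generalize pr G X univ = a at *
  generalize pr G (univ \ X) univ = b at *
  generalize pr G X X = c at *
  generalize pr G X (univ \ X) = d at *
  generalize ms G X = m at *
  generalize X.card = s at *
  generalize (univ \ X).card = t at *
  zify at *
  have ht : (t : ℤ) = 2 * K + 1 + p - s := by linarith
  rw [ht] at e4
  have h5 : (s : ℤ) * (K + 1 - s) ≤ (K + 1) * (K + 1 - s) := by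
    apply mul_le_mul_of_nonneg_right <;> linarith
  have h6 : 2 * ((K : ℤ) + 1 - s) ≤ p := by linarith
  nlinarith

end Pool.Agent.O2
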