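import Pool.Agent.Lib_helper46.O2.L2

/-! (3a): a small cover of the non-edges. -/

set_option autoImplicit false
set_option linter.unusedSectionVars false
set_option linter.unusedVariables false

open scoped Classical
open Finset

namespace Pool.Agent.O2

variable {V : Type}

theorem C3_match (R : V → V → Prop) : ∀ S : Finset V, ∃ F : Finset (V × V),
    (∀ p ∈ F, p.1 ∈ S ∧ p.2 ∈ S ∧ p.1 ≠ p.2 ∧ R p.1 p.2) ∧
    (∀ g : V → ℕ, ∑ p ∈ F, (g p.1 + g p.2) ≤ ∑ u ∈ S, g u) ∧
    ∃ W : Finset V, W ⊆ S ∧ W.card ≤ 2 * F.card ∧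
      ∀ u ∈ S, ∀ v ∈ S, u ≠ v → R u v → u ∈ W ∨ v ∈ W := by
  intro S
  induction S using Finset.strongInduction with
  | H S ih =>
    by_cases h : ∃ u ∈ S, ∃ v ∈ S, u ≠ v ∧ R u v
    · obtain ⟨u, hu, v, hv, huv, hR⟩ := h
      have hv' : v ∈ S.erase u := mem_erase.2 ⟨huv.symm, hv⟩
      have hss : (S.erase u).erase v ⊂ S :=
        (erase_ssubset hv').trans_subset (erase_subset _ _)
      obtain ⟨F, h1, h2, W, hW, h3, h4⟩ := ih _ hss
      have hnot : (u, v) ∉ F := by
        intro hF
        have := (h1 _ hF).1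
        simp at this
      refine ⟨insert (u, v) F, ?_, ?_, insert u (insert v W), ?_, ?_, ?_⟩
      · intro p hp
        rcases mem_insert.1 hp with rfl | hp
        · exact ⟨hu, hv, huv, hR⟩
        · obtain ⟨h5, h6, h7, h8⟩ := h1 p hp
          exact ⟨hss.1 h5, hss.1 h6, h7, h8⟩
      · intro g
        rw [sum_insert hnot]
        have h5 := h2 g
        have h6 := add_sum_erase S g hu
        have h7 := add_sum_erase (S.erase u) g hv'
        dsimp only
        omega
      · intro w hw
        rcases mem_insert.1 hw with rfl | hw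
        · exact hu
        · rcases mem_insert.1 hw with rfl | hw
          · exact hv
          · exact hss.1 (hW hw)
      · rw [card_insert_of_notMem hnot]
        have h5 := card_insert_le u (insert v W)
        have h6 := card_insert_le v W
        omega
      · intro a ha b hb hab hRab
        by_cases e1 : a = u
        · left; rw [e1]; exact mem_insert_self _ _
        by_cases e2 : a = v
        · left; rw [e2]; exact mem_insert_of_mem (mem_insert_self _ _)
        by_cases e3 : b = u
        · right; rw [e3]; exact mem_insert_self _ _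
        by_cases e4 : b = v
        · right; rw [e4]; exact mem_insert_of_mem (mem_insert_self _ _)
        rcases h4 a (mem_erase.2 ⟨e2, mem_erase.2 ⟨e1, ha⟩⟩) b
          (mem_erase.2 ⟨e4, mem_erase.2 ⟨e3, hb⟩⟩) hab hRab with h5 | h5
        · left; exact mem_insert_of_mem (mem_insert_of_mem h5)
        · right; exact mem_insert_of_mem (mem_insert_of_mem h5)
    · push Not at h
      refine ⟨∅, by simp, by simp, ∅, by simp, by simp, ?_⟩
      intro u hu v hv huv hR
      exact absurd hR (h u hu v hv huv)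

/-- few classes contain neighbours of a vertex -/
theorem C3_bad {K : ℕ} (G : SimpleGraph V) (B : Finset V) (φ : V → Fin K) (u : V) :
    (univ.filter fun l : Fin K => ∃ b ∈ B, φ b = l ∧ G.Adj u b).card ≤ dg G B u := by
  have h : (univ.filter fun l : Fin K => ∃ b ∈ B, φ b = l ∧ G.Adj u b) ⊆
      (B.filter fun y => G.Adj u y).image φ := by
    intro l hl
    obtain ⟨b, hb, hbl, hub⟩ := (mem_filter.1 hl).2
    exact mem_image.2 ⟨b, mem_filter.2 ⟨hb, hub⟩, hbl⟩
  exact (card_le_card h).trans card_image_le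

/-- few classes of `A` have edges to a set -/
theorem C3_bad2 {K : ℕ} (G : SimpleGraph V) (A Q : Finset V) (φ : V → Fin K) :
    (univ.filter fun l : Fin K => ∃ a ∈ A, φ a = l ∧ ∃ b ∈ Q, G.Adj a b).card ≤ pr G A Q := by
  have h : (univ.filter fun l : Fin K => ∃ a ∈ A, φ a = l ∧ ∃ b ∈ Q, G.Adj a b) ⊆
      ((A ×ˢ Q).filter fun p => G.Adj p.1 p.2).image fun p => φ p.1 := by
    intro l hl
    obtain ⟨a, ha, hal, b, hb, hab⟩ := (mem_filter.1 hl).2
    exact mem_image.2 ⟨(a, b), mem_filter.2 ⟨mem_product.2 ⟨ha, hb⟩, hab⟩, hal⟩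
  exact (card_le_card h).trans card_image_le

theorem C3_claim [Fintype V] {G : SimpleGraph V} {K : ℕ} (hn : ¬ Cb G univ K)
    {A B : Finset V} (hd : Disjoint A B) (hu : A ∪ B = univ) {x : V} (hx : x ∈ A)
    {φ : V → Fin K} (hφ : PC G (univ.erase x) φ) {u v : V} (hu' : u ∈ A.erase x)
    (hv' : v ∈ A.erase x) (hcol : φ u ≠ φ v) (huv : ¬ G.Adj u v)
    (h1u : ∀ w ∈ A.erase x, φ w = φ u → w = u) (h1v : ∀ w ∈ A.erase x, φ w = φ v → w = v) :
    K ≤ dg G B x + 3 + ((dg G B u + pr G A (cls B φ (φ u))) +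
      (dg G B v + pr G A (cls B φ (φ v)))) := by
  by_contra hlt
  push Not at hlt
  -- the class l
  have b1 := C3_bad G B φ u
  have b2 := C3_bad G B φ v
  have b3 := C3_bad2 G A (cls B φ (φ v)) φ
  obtain ⟨l, hl⟩ : ∃ l, l ∉ ((((univ.filter fun l : Fin K => ∃ b ∈ B, φ b = l ∧ G.Adj u b) ∪
      (univ.filter fun l : Fin K => ∃ b ∈ B, φ b = l ∧ G.Adj v b)) ∪
      (univ.filter fun l : Fin K => ∃ a ∈ A, φ a = l ∧ ∃ b ∈ cls B φ (φ v), G.Adj a b)) ∪
      {φ u, φ v}) := by
    by_contra hcon
    push Not at hcon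
    have h1 := card_le_card (fun l (_ : l ∈ (univ : Finset (Fin K))) => hcon l)
    rw [card_univ, Fintype.card_fin] at h1
    have h2 := h1.trans (card_union_le _ _)
    have h3 := card_union_le ((univ.filter fun l : Fin K => ∃ b ∈ B, φ b = l ∧ G.Adj u b) ∪
      (univ.filter fun l : Fin K => ∃ b ∈ B, φ b = l ∧ G.Adj v b))
      (univ.filter fun l : Fin K => ∃ a ∈ A, φ a = l ∧ ∃ b ∈ cls B φ (φ v), G.Adj a b)
    have h4 := card_union_le (univ.filter fun l : Fin K => ∃ b ∈ B, φ b = l ∧ G.Adj u b)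
      (univ.filter fun l : Fin K => ∃ b ∈ B, φ b = l ∧ G.Adj v b)
    have h5 : ({φ u, φ v} : Finset (Fin K)).card ≤ 2 := card_le_two
    omega
  have c1 := C3_bad G B φ x
  have c2 := C3_bad2 G A (cls B φ (φ u)) φ
  obtain ⟨l', hl'⟩ : ∃ l', l' ∉ (((univ.filter fun l : Fin K => ∃ b ∈ B, φ b = l ∧ G.Adj x b) ∪
      (univ.filter fun l : Fin K => ∃ a ∈ A, φ a = l ∧ ∃ b ∈ cls B φ (φ u), G.Adj a b)) ∪
      {φ u, φ v, l}) := by
    by_contra hcon
    push Not at hcon
    have h1 := card_le_card (fun l (_ : l ∈ (univ : Finset (Fin K))) => hcon l)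
    rw [card_univ, Fintype.card_fin] at h1
    have h2 := h1.trans (card_union_le _ _)
    have h3 := card_union_le (univ.filter fun l : Fin K => ∃ b ∈ B, φ b = l ∧ G.Adj x b)
      (univ.filter fun l : Fin K => ∃ a ∈ A, φ a = l ∧ ∃ b ∈ cls B φ (φ u), G.Adj a b)
    have h5 : ({φ u, φ v, l} : Finset (Fin K)).card ≤ 3 := card_le_three
    omega
  simp only [mem_union, mem_filter, mem_univ, true_and, mem_insert, mem_singleton, not_or,
    cls] at hl hl'
  obtain ⟨⟨⟨l1, l2⟩, l3⟩, l4, l5⟩ := hl
  obtain ⟨⟨m1, m2⟩, m3, m4, m5⟩ := hl'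
  push Not at l1 l2 l3 m1 m2
  apply hn
  let π : Fin K → Fin K := fun t => if t = φ u ∨ t = φ v then l else if t = l then φ v
    else if t = l' then φ u else t
  refine cb_of_pc (φ := fun w => if w = x then l' else if w ∈ A then π (φ w) else φ w) ?_
  have hxB : x ∉ B := fun h => disjoint_left.1 hd hx h
  have hBA : ∀ b, b ∉ A → b ∈ B ∧ b ≠ x := by
    intro b hb
    have : b ∈ A ∪ B := by rw [hu]; exact mem_univ _
    exact ⟨(mem_union.1 this).resolve_left hb, fun e => hb (e ▸ hx)⟩
  -- pi never takes the value l'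
  have hπ : ∀ t, π t ≠ l' := by
    intro t
    simp only [π]
    split_ifs with e1 e2 e3
    · exact fun e => m5 e.symm
    · exact fun e => m4 e.symm
    · exact fun e => m3 e.symm
    · exact e3
  have hcross : ∀ a b, a ∈ A → b ∉ A → G.Adj a b →
      (if a = x then l' else π (φ a)) ≠ φ b := by
    intro a b ha hb hab
    obtain ⟨hbB, hbx⟩ := hBA b hb
    by_cases hax : a = x
    · rw [if_pos hax]
      intro e
      exact m1 b hbB e.symm (hax ▸ hab)
    · rw [if_neg hax]
      have haA : a ∈ A.erase x := mem_erase.2 ⟨hax, ha⟩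
      simp only [π]
      split_ifs with e1 e2 e3
      · intro e
        rcases e1 with e1 | e1
        · have := h1u a haA e1
          subst this
          exact l1 b hbB e.symm hab
        · have := h1v a haA e1
          subst this
          exact l2 b hbB e.symm hab
      · intro e
        exact l3 a ha e2 b ⟨hbB, e.symm⟩ hab
      · intro e
        exact m2 a ha e3 b ⟨hbB, e.symm⟩ hab
      · exact hφ a (mem_erase.2 ⟨hax, mem_univ _⟩) b (mem_erase.2 ⟨hbx, mem_univ _⟩) hab
  have hin : ∀ a b, a ∈ A.erase x → b ∈ A.erase x → G.Adj a b → π (φ a) ≠ π (φ b) := by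
    intro a b ha hb hab
    have hne : φ a ≠ φ b := hφ a (mem_erase.2 ⟨ne_of_mem_erase ha, mem_univ _⟩) b
      (mem_erase.2 ⟨ne_of_mem_erase hb, mem_univ _⟩) hab
    have huv2 : ∀ a b, a ∈ A.erase x → b ∈ A.erase x → G.Adj a b → ¬ (φ a = φ u ∧ φ b = φ v) := by
      rintro a b ha hb hab ⟨e1, e2⟩
      rw [h1u a ha e1, h1v b hb e2] at hab
      exact huv hab
    have n1 := huv2 a b ha hb hab
    have n2 := huv2 b a hb ha hab.symm
    simp only [π]
    grind
  intro a _ b _ hab
  by_cases ha : a ∈ A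
  · by_cases hb : b ∈ A
    · by_cases hax : a = x
      · have hbx : b ≠ x := fun e => hab.ne (hax.trans e.symm)
        simp only [hax, hbx, hb, if_true, if_false]
        exact (hπ _).symm
      · by_cases hbx : b = x
        · simp only [hax, hbx, ha, if_true, if_false]
          exact hπ _
        · simp only [hax, hbx, ha, hb, if_true, if_false]
          exact hin a b (mem_erase.2 ⟨hax, ha⟩) (mem_erase.2 ⟨hbx, hb⟩) hab
    · have hbx := (hBA b hb).2
      have h := hcross a b ha hb hab
      simp only [hbx, ha, hb, if_true, if_false]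
      exact h
  · by_cases hb : b ∈ A
    · have hax := (hBA a ha).2
      have h := hcross b a hb ha hab.symm
      simp only [hax, ha, hb, if_true, if_false]
      exact h.symm
    · have hax := (hBA a ha).2
      have hbx := (hBA b hb).2
      simp only [hax, hbx, ha, hb, if_false]
      exact hφ a (mem_erase.2 ⟨hax, mem_univ _⟩) b (mem_erase.2 ⟨hbx, mem_univ _⟩) hab

/-- C3. PROOF. Let `φ` colour `univ.erase x`, `P_i` the class `i` in `A - x`, `Q_i` the class in `B`,
`d = dg G B x`. If `P_i = ∅` then `x` has a neighbour in `Q_i` (`CrOn.nbr_all`), so at most `d` of the `P_i`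
are empty, and at most `2 (|A| - 1 - (K - d))` vertices lie in `P_i` with `|P_i| ≥ 2`. CLAIM: if `u ≠ v` are
not adjacent, `P_i = {u}`, `P_j = {v}` (so `i ≠ j`), then
`K ≤ d + dg G B u + dg G B v + pr G A Q_i + pr G A Q_j + 3`. Otherwise choose different `l, l'`, both
not `i, j`, such that `u, v` have no neighbours in `Q_l`, no edges between `P_l` and `Q_j`, `x` has no
neighbours in `Q_l'`, no edges between `P_l'` and `Q_i` (at most `dg G B u + dg G B v + pr G A Q_j` bad `l` and
`d + pr G A Q_i` bad `l'`). The classes `{u, v} ∪ Q_l`, `P_l ∪ Q_j`, `{x} ∪ Q_l'`, `P_l' ∪ Q_i` and the other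
`P_t ∪ Q_t` colour `G`. Take a maximal family of disjoint such pairs `{u, v}`, `ν` of them:
`ν (K - 3 - d) ≤ 2 pr G A B`. `C` = their vertices, the vertices in `P_i` with `|P_i| ≥ 2`, and `x`. -/
theorem cover_lemma [Fintype V] {G : SimpleGraph V} {K : ℕ} (hK : 1 ≤ K) (h : CrOn G univ K)
    {A B : Finset V} (hd : Disjoint A B) (hu : A ∪ B = univ) {x : V} (hx : x ∈ A) :
    ∃ (C : Finset V) (ν : ℕ), C ⊆ A ∧
      (∀ u ∈ A, ∀ v ∈ A, u ≠ v → ¬ G.Adj u v → u ∈ C ∨ v ∈ C) ∧
      C.card + 2 * K + 1 ≤ 2 * A.card + 2 * dg G B x + 2 * ν ∧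
      ν * K ≤ 2 * pr G A B + ν * (dg G B x + 3) := by
  obtain ⟨φ, hφ⟩ := h.pc (by omega) (mem_univ x)
  -- class sizes
  let P : Fin K → Finset V := fun i => (A.erase x).filter fun y => φ y = i
  let S : Finset V := (A.erase x).filter fun y => (P (φ y)).card = 1
  let Big : Finset V := (A.erase x).filter fun y => 2 ≤ (P (φ y)).card
  have hself : ∀ y ∈ A.erase x, y ∈ P (φ y) := fun y hy => mem_filter.2 ⟨hy, rfl⟩
  have hsplit : ∀ y ∈ A.erase x, y ∈ S ∨ y ∈ Big := by
    intro y hy
    have h1 : 0 < (P (φ y)).card := card_pos.2 ⟨y, hself y hy⟩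
    by_cases h2 : 2 ≤ (P (φ y)).card
    · exact Or.inr (mem_filter.2 ⟨hy, h2⟩)
    · exact Or.inl (mem_filter.2 ⟨hy, by omega⟩)
  have huniq : ∀ y ∈ S, ∀ w ∈ A.erase x, φ w = φ y → w = y := by
    intro y hy w hw hwy
    have h1 := (mem_filter.1 hy).2
    obtain ⟨z, hz⟩ := card_eq_one.1 h1
    have h2 : y ∈ P (φ y) := hself y (mem_filter.1 hy).1
    have h3 : w ∈ P (φ y) := mem_filter.2 ⟨hw, hwy⟩
    rw [hz, mem_singleton] at h2 h3
    rw [h2, h3]
  -- the number of empty classes
  have hempty : (univ.filter fun i : Fin K => P i = ∅).card ≤ dg G B x := by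
    refine le_trans (card_le_card ?_) (C3_bad G B φ x)
    intro i hi
    have hi' := (mem_filter.1 hi).2
    obtain ⟨y, -, hyx, hxy, hyi⟩ := h.nbr_all (mem_univ x) hφ i
    refine mem_filter.2 ⟨mem_univ _, y, ?_, hyi, hxy⟩
    have : y ∈ A ∪ B := by rw [hu]; exact mem_univ _
    rcases mem_union.1 this with hyA | hyB
    · exfalso
      have h1 : y ∈ P i := mem_filter.2 ⟨mem_erase.2 ⟨hyx, hyA⟩, hyi⟩
      rw [hi'] at h1
      exact notMem_empty _ h1
    · exact hyB
  -- the size of Big
  have hsum : (A.erase x).card = ∑ i, (P i).card :=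
    card_eq_sum_card_fiberwise (f := φ) (t := univ) (fun _ _ => by simp)
  have hbig : Big.card = ∑ i, if 2 ≤ (P i).card then (P i).card else 0 := by
    rw [card_eq_sum_card_fiberwise (f := φ) (s := Big) (t := univ) (fun _ _ => by simp)]
    refine sum_congr rfl fun i _ => ?_
    split_ifs with h2
    · congr 1
      ext y
      constructor
      · intro hy
        have h3 := mem_filter.1 hy
        exact mem_filter.2 ⟨(mem_filter.1 h3.1).1, h3.2⟩
      · intro hy
        have h3 := mem_filter.1 hy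
        refine mem_filter.2 ⟨mem_filter.2 ⟨h3.1, ?_⟩, h3.2⟩
        rw [h3.2]
        exact h2
    · rw [card_eq_zero, filter_eq_empty_iff]
      intro y hy hyi
      have h3 := (mem_filter.1 hy).2
      rw [hyi] at h3
      exact h2 h3
  have hemp2 : (univ.filter fun i : Fin K => P i = ∅).card =
      ∑ i, if P i = ∅ then 1 else 0 := by rw [card_filter]
  have hineq : Big.card + 2 * K ≤ 2 * (A.erase x).card +
      2 * (univ.filter fun i : Fin K => P i = ∅).card := by
    rw [hbig, hsum, hemp2, mul_sum, mul_sum, ← sum_add_distrib]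
    have h2K : 2 * K = ∑ _i : Fin K, 2 := by simp [mul_comm]
    rw [h2K, ← sum_add_distrib]
    refine sum_le_sum fun i _ => ?_
    by_cases h0 : P i = ∅
    · simp [h0]
    · have h1 : 0 < (P i).card := card_pos.2 (nonempty_iff_ne_empty.2 h0)
      simp only [h0, if_false]
      split_ifs <;> omega
  have hAc : (A.erase x).card + 1 = A.card := card_erase_add_one hx
  -- the matching
  obtain ⟨F, hF1, hF2, W, hWS, hWc, hW⟩ := C3_match (fun u v => ¬ G.Adj u v) S
  have hSA : S ⊆ A := (filter_subset _ _).trans (erase_subset _ _)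
  have hBigA : Big ⊆ A := (filter_subset _ _).trans (erase_subset _ _)
  refine ⟨insert x (Big ∪ W), F.card, ?_, ?_, ?_, ?_⟩
  · intro y hy
    rcases mem_insert.1 hy with rfl | hy
    · exact hx
    · rcases mem_union.1 hy with hy | hy
      · exact hBigA hy
      · exact hSA (hWS hy)
  · intro u hu' v hv' huv hnadj
    by_cases e1 : u = x
    · left; rw [e1]; exact mem_insert_self _ _
    by_cases e2 : v = x
    · right; rw [e2]; exact mem_insert_self _ _
    rcases hsplit u (mem_erase.2 ⟨e1, hu'⟩) with h1 | h1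
    · rcases hsplit v (mem_erase.2 ⟨e2, hv'⟩) with h2 | h2
      · rcases hW u h1 v h2 huv hnadj with h3 | h3
        · left; exact mem_insert_of_mem (mem_union_right _ h3)
        · right; exact mem_insert_of_mem (mem_union_right _ h3)
      · right; exact mem_insert_of_mem (mem_union_left _ h2)
    · left; exact mem_insert_of_mem (mem_union_left _ h1)
  · have h1 := card_insert_le x (Big ∪ W)
    have h2 := card_union_le Big W
    omega
  · have hclaim : ∀ p ∈ F, K ≤ dg G B x + 3 + ((dg G B p.1 + pr G A (cls B φ (φ p.1))) +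
        (dg G B p.2 + pr G A (cls B φ (φ p.2)))) := by
      intro p hp
      obtain ⟨h1, h2, h3, h4⟩ := hF1 p hp
      refine C3_claim h.1 hd hu hx hφ (mem_filter.1 h1).1 (mem_filter.1 h2).1 ?_ h4
        (huniq _ h1) (huniq _ h2)
      intro e
      exact h3 (huniq _ h2 _ (mem_filter.1 h1).1 e)
    have h1 := sum_le_sum hclaim
    rw [sum_const, smul_eq_mul, sum_add_distrib, sum_const, smul_eq_mul] at h1
    have h2 := hF2 fun u => dg G B u + pr G A (cls B φ (φ u))
    have h3 : ∑ u ∈ S, (dg G B u + pr G A (cls B φ (φ u))) ≤ 2 * pr G A B := by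
      rw [sum_add_distrib]
      have h4 : ∑ u ∈ S, dg G B u ≤ pr G A B := by
        rw [pr_sum]
        exact sum_le_sum_of_subset hSA
      have h5 : ∑ u ∈ S, pr G A (cls B φ (φ u)) ≤ pr G A B := by
        rw [pr_classes G A B φ, ← sum_image (f := fun i => pr G A (cls B φ i)) (g := φ)
          (s := S)]
        · exact sum_le_sum_of_subset (subset_univ _)
        · intro a ha b hb hab
          exact huniq b hb a (mem_filter.1 ha).1 hab
      omega
    omega

end Pool.Agent.O2
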