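import Pool.Agent.Lib_helper46.O2.L2

/-! (3b): few non-neighbours. -/

set_option autoImplicit false
set_option linter.unusedSectionVars false
set_option linter.unusedVariables false

open scoped Classical
open Finset

namespace Pool.Agent.O2

variable {V : Type}

private theorem C4_partners [Fintype V] {G : SimpleGraph V} {K : ℕ} {A : Finset V} {u : V}
    {C : Finset V} {φ : V → Fin K} (hφ : PC G (univ.erase u) φ)
    (hcov : ∀ a ∈ A, ∀ b ∈ A, a ≠ b → ¬ G.Adj a b → a ∈ C ∨ b ∈ C) :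
    (A.filter fun y => y ≠ u ∧ ∃ z ∈ A, z ≠ u ∧ z ≠ y ∧ φ z = φ y).card ≤ 2 * C.card := by
  set T : Finset V := A.filter fun y => y ≠ u ∧ ∃ z ∈ A, z ≠ u ∧ z ≠ y ∧ φ z = φ y with hT
  have hna : ∀ a b, a ≠ u → b ≠ u → φ a = φ b → ¬ G.Adj a b := fun a b ha hb hab h' =>
    hφ a (mem_erase.2 ⟨ha, mem_univ _⟩) b (mem_erase.2 ⟨hb, mem_univ _⟩) h' hab
  have hp : ∀ y ∈ T \ C, ∃ z ∈ C, φ z = φ y := by
    intro y hy
    obtain ⟨hyT, hyC⟩ := mem_sdiff.1 hy
    obtain ⟨hyA, hyu, z, hzA, hzu, hzy, hz⟩ := mem_filter.1 hyT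
    rcases hcov z hzA y hyA hzy (hna z y hzu hyu hz) with h2 | h2
    · exact ⟨z, h2, hz⟩
    · exact absurd h2 hyC
  choose! f hf1 hf2 using hp
  have h1 : (T \ C).card ≤ C.card := by
    refine card_le_card_of_injOn f (fun y hy => hf1 y hy) ?_
    intro y hy y' hy' hyy
    by_contra hne
    have e : φ y = φ y' := by rw [← hf2 y hy, ← hf2 y' hy', hyy]
    obtain ⟨hyT, hyC⟩ := mem_sdiff.1 hy
    obtain ⟨hyT', hyC'⟩ := mem_sdiff.1 hy'
    obtain ⟨hyA, hyu, -⟩ := mem_filter.1 hyT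
    obtain ⟨hyA', hyu', -⟩ := mem_filter.1 hyT'
    rcases hcov y hyA y' hyA' hne (hna y y' hyu hyu' e) with h2 | h2
    · exact hyC h2
    · exact hyC' h2
  have h2 : (T ∩ C).card ≤ C.card := card_le_card inter_subset_right
  have h3 := card_sdiff_add_card_inter T C
  omega

private theorem C4_key [Fintype V] {G : SimpleGraph V} {K : ℕ} (h : CrOn G univ K)
    {A B : Finset V} (hd : Disjoint A B) (hu : A ∪ B = univ) {u : V} (hu' : u ∈ A)
    {φ : V → Fin K} (hφ : PC G (univ.erase u) φ) {y : V} (hyA : y ∈ A) (hyu : y ≠ u)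
    (huy : ¬ G.Adj u y) (hy : ∀ z ∈ A, z ≠ u → φ z = φ y → z = y) :
    K ≤ dg G B u + dg G B y + pr G A (cls B φ (φ y)) := by
  have hprop : ∀ a b, a ≠ u → b ≠ u → G.Adj a b → φ a ≠ φ b := fun a b ha hb h' =>
    hφ a (mem_erase.2 ⟨ha, mem_univ _⟩) b (mem_erase.2 ⟨hb, mem_univ _⟩) h'
  have hmem : ∀ v, v ∈ A ∨ v ∈ B := fun v => mem_union.1 (by rw [hu]; exact mem_univ v)
  -- `u` has a neighbour in `B` of the colour of `y`
  have huB : ∃ b ∈ B, G.Adj u b ∧ φ b = φ y := by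
    obtain ⟨z, -, hzu, huz, hz⟩ := h.nbr_all (mem_univ u) hφ (φ y)
    rcases hmem z with hzA | hzB
    · exfalso
      rw [hy z hzA hzu hz] at huz
      exact huy huz
    · exact ⟨z, hzB, huz, hz⟩
  set L1 : Finset (Fin K) := (B.filter fun b => G.Adj u b).image φ with hL1
  set L2 : Finset (Fin K) := (B.filter fun b => G.Adj y b).image φ with hL2
  set L3 : Finset (Fin K) :=
    ((A ×ˢ cls B φ (φ y)).filter fun p => G.Adj p.1 p.2).image fun p => φ p.1 with hL3
  have hcov : (univ : Finset (Fin K)) ⊆ L1 ∪ L2 ∪ L3 := by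
    intro l _
    by_contra hl
    rw [mem_union, mem_union, not_or, not_or] at hl
    obtain ⟨⟨hl1, hl2⟩, hl3⟩ := hl
    have e1 : ∀ b ∈ B, G.Adj u b → φ b ≠ l := fun b hb hub e =>
      hl1 (mem_image.2 ⟨b, mem_filter.2 ⟨hb, hub⟩, e⟩)
    have e2 : ∀ b ∈ B, G.Adj y b → φ b ≠ l := fun b hb hub e =>
      hl2 (mem_image.2 ⟨b, mem_filter.2 ⟨hb, hub⟩, e⟩)
    have e3 : ∀ a ∈ A, ∀ b ∈ B, φ b = φ y → G.Adj a b → φ a ≠ l := fun a ha b hb hb' hab e =>
      hl3 (mem_image.2 ⟨(a, b), mem_filter.2 ⟨mem_product.2 ⟨ha, mem_filter.2 ⟨hb, hb'⟩⟩, hab⟩, e⟩)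
    have hly : φ y ≠ l := by
      obtain ⟨b, hb, hub, e⟩ := huB
      exact e ▸ e1 b hb hub
    -- the new colouring
    let χ : V → Fin K := fun v =>
      if v = u ∨ v = y then l else if v ∈ A ∧ φ v = l then φ y else φ v
    have c1 : ∀ v, v = u ∨ v = y → χ v = l := fun v hv => if_pos hv
    have c2 : ∀ v, v ≠ u → v ≠ y → v ∈ A → φ v = l → χ v = φ y := by
      intro v h1 h2 h3 h4
      have : ¬ (v = u ∨ v = y) := by tauto
      simp only [χ, this, if_false, h3, h4, and_self, if_true]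
    have c3 : ∀ v, v ≠ u → v ≠ y → ¬ (v ∈ A ∧ φ v = l) → χ v = φ v := by
      intro v h1 h2 h3
      have : ¬ (v = u ∨ v = y) := by tauto
      simp only [χ, this, if_false, h3]
    -- half of the check
    have half : ∀ a b, G.Adj a b → χ a = χ b → (a = u ∨ a = y) → False := by
      intro a b hab he ha
      rw [c1 a ha] at he
      by_cases hb : b = u ∨ b = y
      · rcases ha with rfl | rfl <;> rcases hb with rfl | rfl
        · exact G.irrefl hab
        · exact huy hab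
        · exact huy hab.symm
        · exact G.irrefl hab
      · have hb1 : b ≠ u := fun e => hb (Or.inl e)
        have hb2 : b ≠ y := fun e => hb (Or.inr e)
        by_cases hbA : b ∈ A ∧ φ b = l
        · rw [c2 b hb1 hb2 hbA.1 hbA.2] at he
          exact hly he.symm
        · rw [c3 b hb1 hb2 hbA] at he
          have hbB : b ∈ B := (hmem b).resolve_left fun e => hbA ⟨e, he.symm⟩
          rcases ha with rfl | rfl
          · exact e1 b hbB hab he.symm
          · exact e2 b hbB hab he.symm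
    have half2 : ∀ a b, G.Adj a b → χ a = χ b → ¬ (a = u ∨ a = y) → ¬ (b = u ∨ b = y) →
        (a ∈ A ∧ φ a = l) → False := by
      intro a b hab he ha hb haA
      have ha1 : a ≠ u := fun e => ha (Or.inl e)
      have ha2 : a ≠ y := fun e => ha (Or.inr e)
      have hb1 : b ≠ u := fun e => hb (Or.inl e)
      have hb2 : b ≠ y := fun e => hb (Or.inr e)
      rw [c2 a ha1 ha2 haA.1 haA.2] at he
      by_cases hbA : b ∈ A ∧ φ b = l
      · exact hprop a b ha1 hb1 hab (haA.2.trans hbA.2.symm)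
      · rw [c3 b hb1 hb2 hbA] at he
        rcases hmem b with hbA' | hbB
        · exact hb2 (hy b hbA' hb1 he.symm)
        · exact e3 a haA.1 b hbB he.symm hab haA.2
    apply h.1
    apply cb_of_pc (φ := χ)
    intro a _ b _ hab he
    by_cases ha : a = u ∨ a = y
    · exact half a b hab he ha
    by_cases hb : b = u ∨ b = y
    · exact half b a hab.symm he.symm hb
    by_cases haA : a ∈ A ∧ φ a = l
    · exact half2 a b hab he ha hb haA
    by_cases hbA : b ∈ A ∧ φ b = l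
    · exact half2 b a hab.symm he.symm hb ha hbA
    have ha1 : a ≠ u := fun e => ha (Or.inl e)
    have ha2 : a ≠ y := fun e => ha (Or.inr e)
    have hb1 : b ≠ u := fun e => hb (Or.inl e)
    have hb2 : b ≠ y := fun e => hb (Or.inr e)
    rw [c3 a ha1 ha2 haA, c3 b hb1 hb2 hbA] at he
    exact hprop a b ha1 hb1 hab he
  have hc := card_le_card hcov
  rw [card_univ, Fintype.card_fin] at hc
  have h1 : L1.card ≤ dg G B u := card_image_le
  have h2 : L2.card ≤ dg G B y := card_image_le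
  have h3 : L3.card ≤ pr G A (cls B φ (φ y)) := card_image_le
  have h4 := card_union_le (L1 ∪ L2) L3
  have h5 := card_union_le L1 L2
  omega

/-- C4. PROOF. Let `φ` colour `univ.erase u`, `P_i` the class `i` in `A - u`, `Q_i` in `B`. `Y` = the `y ∈ A`, `y ≠ u`,
not adjacent to `u`, such that `P_i = {y}` for `i = φ y`. The vertices `y ∈ A - u` with `|P_(φ y)| ≥ 2` number at
most `2 |C|`: all but at most one vertex of each `P_i` are in `C`. For `y ∈ Y`, `i = φ y`: `u` has a neighbour in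
`Q_i` (else colour `u` with `i`). Let `l` be such that `u` has no neighbour in `Q_l` (`≥ K - dg G B u` such `l`, all
`≠ i`): `y` has a neighbour in `Q_l` or there is an edge between `P_l` and `Q_i`; otherwise `{u, y} ∪ Q_l`,
`P_l ∪ Q_i` and the other classes colour `G`. So `K - dg G B u ≤ dg G B y + pr G A Q_i`; sum over `Y`:
`|Y| (K - dg G B u) ≤ 2 pr G A B`. -/
theorem miss_lemma [Fintype V] {G : SimpleGraph V} {K : ℕ} (hK : 1 ≤ K) (h : CrOn G univ K)
    {A B : Finset V} (hd : Disjoint A B) (hu : A ∪ B = univ) {u : V} (hu' : u ∈ A)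
    {C : Finset V} (hC : C ⊆ A)
    (hcov : ∀ a ∈ A, ∀ b ∈ A, a ≠ b → ¬ G.Adj a b → a ∈ C ∨ b ∈ C) :
    ∃ y : ℕ, nd G A u ≤ y + 2 * C.card ∧ y * K ≤ 2 * pr G A B + y * dg G B u := by
  obtain ⟨φ, hφ⟩ := h.pc hK (mem_univ u)
  set Y : Finset V := A.filter fun y => (y ≠ u ∧ ¬ G.Adj u y) ∧
    ∀ z ∈ A, z ≠ u → φ z = φ y → z = y with hY
  set T : Finset V := A.filter fun y => y ≠ u ∧ ∃ z ∈ A, z ≠ u ∧ z ≠ y ∧ φ z = φ y with hT
  have hT1 : T.card ≤ 2 * C.card := C4_partners hφ hcov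
  have key : ∀ y ∈ Y, K ≤ dg G B u + dg G B y + pr G A (cls B φ (φ y)) := by
    intro y hy
    obtain ⟨hyA, ⟨hyu, huy⟩, hyz⟩ := mem_filter.1 hy
    exact C4_key h hd hu hu' hφ hyA hyu huy hyz
  refine ⟨Y.card, ?_, ?_⟩
  · have hsub : (A.filter fun y => y ≠ u ∧ ¬ G.Adj u y) ⊆ Y ∪ T := by
      intro y hy
      obtain ⟨hyA, hyu, huy⟩ := mem_filter.1 hy
      by_cases hz : ∀ z ∈ A, z ≠ u → φ z = φ y → z = y
      · exact mem_union_left _ (mem_filter.2 ⟨hyA, ⟨hyu, huy⟩, hz⟩)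
      · push Not at hz
        obtain ⟨z, hzA, hzu, hz, hzy⟩ := hz
        exact mem_union_right _ (mem_filter.2 ⟨hyA, hyu, z, hzA, hzu, hzy, hz⟩)
    have h1 := card_le_card hsub
    have h2 := card_union_le Y T
    unfold nd
    omega
  · have h1 := sum_le_sum key
    rw [sum_add_distrib, sum_add_distrib, sum_const, sum_const, smul_eq_mul, smul_eq_mul] at h1
    have h2 : ∑ y ∈ Y, dg G B y ≤ pr G A B := by
      rw [pr_sum]
      exact sum_le_sum_of_subset (filter_subset _ _)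
    have h3 : ∑ y ∈ Y, pr G A (cls B φ (φ y)) ≤ pr G A B := by
      have hinj : ∀ a ∈ Y, ∀ b ∈ Y, φ a = φ b → a = b := by
        intro a ha b hb hab
        obtain ⟨haA, ⟨hau, -⟩, -⟩ := mem_filter.1 ha
        obtain ⟨-, -, hbz⟩ := mem_filter.1 hb
        exact hbz a haA hau hab
      rw [pr_classes G A B φ]
      have h4 : ∑ y ∈ Y, pr G A (cls B φ (φ y)) = ∑ j ∈ Y.image φ, pr G A (cls B φ j) := by
        rw [sum_image]
        intro a ha b hb hab
        exact hinj a ha b hb hab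
      rw [h4]
      exact sum_le_sum_of_subset (subset_univ _)
    omega

end Pool.Agent.O2
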