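import Pool.Agent.Lib_helper46.O2.C3
import Pool.Agent.Lib_helper46.O2.C4

/-! A bound for the non-edges of one side. -/

set_option autoImplicit false
set_option linter.unusedSectionVars false
set_option linter.unusedVariables false

open scoped Classical
open Finset

namespace Pool.Agent.O2

variable {V : Type}

/-- non-edges are covered -/
theorem C5a_ms {G : SimpleGraph V} {A C : Finset V} (hC : C ⊆ A)
    (hcov : ∀ a ∈ A, ∀ b ∈ A, a ≠ b → ¬ G.Adj a b → a ∈ C ∨ b ∈ C) :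
    ms G A ≤ 2 * ∑ u ∈ C, nd G A u := by
  have h1 : ((A ×ˢ A).filter fun p => p.1 ≠ p.2 ∧ ¬ G.Adj p.1 p.2) ⊆
      ((C ×ˢ A).filter fun p => p.1 ≠ p.2 ∧ ¬ G.Adj p.1 p.2) ∪
      ((A ×ˢ C).filter fun p => p.1 ≠ p.2 ∧ ¬ G.Adj p.1 p.2) := by
    intro p hp
    obtain ⟨h2, h3, h4⟩ := mem_filter.1 hp
    obtain ⟨h5, h6⟩ := mem_product.1 h2
    rcases hcov p.1 h5 p.2 h6 h3 h4 with h7 | h7
    · exact mem_union_left _ (mem_filter.2 ⟨mem_product.2 ⟨h7, h6⟩, h3, h4⟩)
    · exact mem_union_right _ (mem_filter.2 ⟨mem_product.2 ⟨h5, h7⟩, h3, h4⟩)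
  have h2 := (card_le_card h1).trans (card_union_le _ _)
  have h3 : ((C ×ˢ A).filter fun p => p.1 ≠ p.2 ∧ ¬ G.Adj p.1 p.2).card = ∑ u ∈ C, nd G A u := by
    unfold nd
    rw [card_filter, sum_product]
    refine sum_congr rfl fun x _ => ?_
    rw [card_filter]
    refine sum_congr rfl fun y _ => ?_
    simp only [ne_comm]
  have h4 : ((A ×ˢ C).filter fun p => p.1 ≠ p.2 ∧ ¬ G.Adj p.1 p.2).card = ∑ u ∈ C, nd G A u := by
    unfold nd
    rw [card_filter, sum_product_right]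
    refine sum_congr rfl fun x _ => ?_
    rw [card_filter]
    refine sum_congr rfl fun y _ => ?_
    rw [G.adj_comm x y]
  rw [h3, h4] at h2
  unfold ms
  omega

/-- C5, one side. PROOF. `P = p + 1`, `m = pr G A B`. Take `x ∈ A` with `dg G B x * |A| ≤ m`:
`d = dg G B x ≤ 7 P`. `cover_lemma`: `ν ≤ 13 P`, `|C| ≤ 67 P`. For `u ∈ A`, `miss_lemma`, with
`dg G B u ≤ dg G A u = |A| - 1 - nd G A u`: `K - dg G B u ≥ nd G A u - 13 P`, `y ≥ nd G A u - 134 P`, so
`nd G A u ≤ 134 P + z`. `ms G A ≤ 2 Σ_(u ∈ C) nd G A u`. -/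
theorem side_bound [Fintype V] {G : SimpleGraph V} {K P z : ℕ} (hP : 1 ≤ P)
    (hPK : 1000 * P ≤ K) (h : CrOn G univ K) {A B : Finset V} (hd : Disjoint A B)
    (hu : A ∪ B = univ) (hm : pr G A B ≤ 6 * P * (K + 1)) (h1 : K + 1 ≤ A.card + 12 * P)
    (h2 : A.card ≤ K + 1 + 13 * P) (hv : ∀ v ∈ A, dg G B v ≤ dg G A v)
    (hz : 2 * pr G A B < z * z) : ms G A ≤ 134 * P * (134 * P + z) := by
  have hK : 1 ≤ K := by omega
  have hA0 : 0 < A.card := by omega
  obtain ⟨x, hx, hxm⟩ := exists_min_image A (fun v => dg G B v) (card_pos.1 hA0)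
  have e1 : A.card * dg G B x ≤ pr G A B := by
    rw [pr_sum]
    have := sum_le_sum fun v hv => hxm v hv
    rwa [sum_const, smul_eq_mul] at this
  have hd7 : dg G B x ≤ 7 * P := by
    by_contra hcon
    have h3 : A.card * (7 * P + 1) ≤ A.card * dg G B x := Nat.mul_le_mul_left _ (by omega)
    have h4 : A.card * (7 * P + 1) ≤ 6 * P * (K + 1) := h3.trans (e1.trans hm)
    have h5 : (K + 1) * (7 * P + 1) ≤ (A.card + 12 * P) * (7 * P + 1) :=
      Nat.mul_le_mul_right _ h1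
    nlinarith
  obtain ⟨C, ν, hC, hcov, hc1, hc2⟩ := cover_lemma hK h hd hu hx
  have hν : ν ≤ 13 * P := by
    by_contra hcon
    obtain ⟨t, ht⟩ : ∃ t, ν = 13 * P + 1 + t := ⟨ν - (13 * P + 1), by omega⟩
    obtain ⟨r, hr⟩ : ∃ r, K = dg G B x + 3 + r := ⟨K - (dg G B x + 3), by omega⟩
    have h3 : ν * K = ν * (dg G B x + 3) + ν * r := by rw [hr]; ring
    have h4 : ν * r ≤ 2 * (6 * P * (K + 1)) := by omega
    have h5 : (13 * P + 1) * r ≤ ν * r := Nat.mul_le_mul_right _ (by omega)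
    have h6 : K ≤ 7 * P + 3 + r := by omega
    have h7 : (13 * P + 1) * K ≤ (13 * P + 1) * (7 * P + 3 + r) := Nat.mul_le_mul_left _ h6
    nlinarith
  have hCc : C.card ≤ 67 * P := by omega
  have hnd : ∀ u ∈ A, nd G A u ≤ 134 * P + z := by
    intro u huA
    obtain ⟨y, hy1, hy2⟩ := miss_lemma hK h hd hu huA hC hcov
    have h3 := dg_add_nd (G := G) huA
    have h4 := hv u huA
    by_contra hcon
    have h5 : z ≤ y := by omega
    obtain ⟨r, hr⟩ : ∃ r, nd G A u = 13 * P + r := ⟨nd G A u - 13 * P, by omega⟩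
    have h6 : z ≤ r := by omega
    have h7 : dg G B u + r ≤ K := by omega
    have h8 : y * (dg G B u + r) ≤ y * K := Nat.mul_le_mul_left _ h7
    have h9 : y * (dg G B u + r) = y * dg G B u + y * r := by ring
    have h10 : y * r ≤ 2 * pr G A B := by omega
    have h11 : z * z ≤ y * r := Nat.mul_le_mul h5 h6
    omega
  have h3 := C5a_ms hC hcov
  have h4 : ∑ u ∈ C, nd G A u ≤ C.card * (134 * P + z) := by
    have h5 := sum_le_sum fun u (hu : u ∈ C) => hnd u (hC hu)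
    rwa [sum_const, smul_eq_mul] at h5
  have h5 : C.card * (134 * P + z) ≤ 67 * P * (134 * P + z) := Nat.mul_le_mul_right _ hCc
  calc ms G A ≤ 2 * (67 * P * (134 * P + z)) := by omega
    _ = 134 * P * (134 * P + z) := by ring

end Pool.Agent.O2
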