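import Pool.Agent.Lib_helper46.O2.C2
import Pool.Agent.Lib_helper46.O2.C5a

/-! A cut with fewer than 4 K / 3 edges. -/

set_option autoImplicit false
set_option linter.unusedSectionVars false
set_option linter.unusedVariables false

open scoped Classical
open Finset

namespace Pool.Agent.O2

variable {V : Type}

/-- C5. PROOF. `min_cut`, `side_bound` for both sides with `P = p + 1`, `z = Nat.sqrt (2 m) + 1`. From
`pr G univ univ = pr G A A + pr G B B + 2 m`, `pr_add_ms`, `|A| + |B| = 2 K + 1 + p` and `hex`: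
`2 m < 2 K + ms G A + ms G B`. If `3 m ≥ 4 K` then `m / 2 < 268 P (134 P + z)`, so
`z ≤ 1300 P` or so, and `K ≤ 10^6 P²`, against `hk`. -/
theorem cut_exists [Fintype V] {G : SimpleGraph V} {K p : ℕ} (hp : 1 ≤ p)
    (hk : 10 ^ 7 * p ^ 2 ≤ K + 1) (h : CrOn G univ K) (hn : Fintype.card V = 2 * K + 1 + p)
    (hex : (pr G univ univ : ℤ) < (K : ℤ) * (2 * K + 1 + p) + p * (K + 1 - p) + K - 4) :
    ∃ A B : Finset V, Disjoint A B ∧ A ∪ B = univ ∧ 2 ≤ A.card ∧ 2 ≤ B.card ∧
      3 * pr G A B < 4 * K := by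
  have hP2 : 2000 * p + 1 ≤ 10 ^ 7 * p ^ 2 := by nlinarith
  have hpK : 1000 * (p + 1) ≤ K := by omega
  obtain ⟨A, B, hd, hu, hm, hvA, hvB, hA1, hB1⟩ := min_cut hp hpK h hn hex
  have hcard : A.card + B.card = 2 * K + 1 + p := by
    rw [← card_union_of_disjoint hd, hu, card_univ, hn]
  refine ⟨A, B, hd, hu, by omega, by omega, ?_⟩
  set m := pr G A B with hmdef
  set z := Nat.sqrt (2 * m) + 1 with hz
  have hzz : 2 * m < z * z := Nat.lt_succ_sqrt (2 * m)
  have hzz' : (z - 1) * (z - 1) ≤ 2 * m := by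
    have : z - 1 = Nat.sqrt (2 * m) := by omega
    rw [this]
    exact Nat.sqrt_le (2 * m)
  have hsA : ms G A ≤ 134 * (p + 1) * (134 * (p + 1) + z) :=
    side_bound (by omega) hpK h hd hu hm hA1 (by omega) hvA hzz
  have hsB : ms G B ≤ 134 * (p + 1) * (134 * (p + 1) + z) := by
    have hmB : pr G B A = m := by rw [pr_symm]
    refine side_bound (A := B) (B := A) (by omega) hpK h hd.symm ?_ ?_ hB1 (by omega) hvB ?_
    · rw [union_comm]; exact hu
    · rw [hmB]; exact hm
    · rw [hmB]; exact hzz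
  have hprU : pr G univ univ = pr G A A + pr G B B + 2 * m := by
    rw [← hu, pr_union_left _ hd, pr_union_right _ hd, pr_union_right _ hd, pr_symm G B A]
    omega
  have hA2 := pr_add_ms G A
  have hB2 := pr_add_ms G B
  -- the excess
  have hex2 : 2 * m < 2 * K + ms G A + ms G B := by
    rw [hprU] at hex
    push_cast at hex
    zify at hA2 hB2 hcard ⊢
    have h5 : ((A.card : ℤ) + B.card) * (A.card + B.card) =
        (2 * K + 1 + p) * (2 * K + 1 + p) := by rw [hcard]
    have h6 : 0 ≤ ((A.card : ℤ) - B.card) * (A.card - B.card) := mul_self_nonneg _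
    have h7 : (p : ℤ) ≤ p * p := by
      have : (1 : ℤ) ≤ p := by exact_mod_cast hp
      calc (p : ℤ) = p * 1 := by ring
        _ ≤ p * p := mul_le_mul_of_nonneg_left this (by omega)
    ring_nf at hex h5 h6 h7 hA2 hB2 hcard ⊢
    linarith
  by_contra hcon
  push Not at hcon
  obtain ⟨y, hy⟩ : ∃ y, z = y + 1 := ⟨Nat.sqrt (2 * m), rfl⟩
  rw [hy] at hsA hsB hzz'
  simp only [Nat.add_sub_cancel] at hzz'
  set P := p + 1 with hPdef
  have hm2 : m < 536 * P * (134 * P + (y + 1)) := by
    have : 268 * P * (134 * P + (y + 1)) = 134 * P * (134 * P + (y + 1)) +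
      134 * P * (134 * P + (y + 1)) := by ring
    have h3 : 536 * P * (134 * P + (y + 1)) = 2 * (268 * P * (134 * P + (y + 1))) := by ring
    omega
  have hPpos : 2 ≤ P := by omega
  have hylt : y < 1300 * P := by
    by_contra hyc
    push Not at hyc
    have h1 : y * y < 1072 * P * (134 * P + (y + 1)) := by
      have : 1072 * P * (134 * P + (y + 1)) = 2 * (536 * P * (134 * P + (y + 1))) := by ring
      omega
    have a1 : 1300 * P * y ≤ y * y := Nat.mul_le_mul_right y hyc
    have a2 : P * (1300 * P) ≤ P * y := Nat.mul_le_mul_left P hyc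
    have a3 : P ≤ P * P := Nat.le_mul_self P
    have a4 : 1072 * P * (134 * P + (y + 1)) = 143648 * (P * P) + 1072 * (P * y) + 1072 * P := by
      ring
    have a5 : P * (1300 * P) = 1300 * (P * P) := by ring
    have a6 : 1300 * P * y = 1300 * (P * y) := by ring
    rw [a4] at h1
    rw [a5] at a2
    rw [a6] at a1
    clear_value P m z
    generalize P * P = X at *
    generalize P * y = Y at *
    generalize y * y = Z at *
    omega
  have hm3 : m < 536 * P * (1434 * P) := by
    refine lt_of_lt_of_le hm2 ?_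
    apply Nat.mul_le_mul_left
    omega
  have hPp : P ≤ 2 * p := by omega
  have hPP : P * P ≤ 4 * p ^ 2 := by
    calc P * P ≤ (2 * p) * (2 * p) := Nat.mul_le_mul hPp hPp
      _ = 4 * p ^ 2 := by ring
  have hm4 : 536 * P * (1434 * P) = 768624 * (P * P) := by ring
  rw [hm4] at hm3
  clear_value P m z
  generalize P * P = X at *
  generalize p ^ 2 = Y at *
  omega

end Pool.Agent.O2
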