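import Mathlib

/-!
# Critical graphs on a subset of the vertices: definitions

`K` is the number of colours. All degrees, non-edges and colourings are taken inside finite sets
of vertices of one graph.
-/

set_option autoImplicit false
set_option linter.unusedSectionVars false

open scoped Classical
open Finset

namespace Pool.Agent.O2

variable {V : Type}

/-- `φ` is a proper colouring of `G` on `S` -/
def PC {K : ℕ} (G : SimpleGraph V) (S : Finset V) (φ : V → Fin K) : Prop :=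
  ∀ a ∈ S, ∀ b ∈ S, G.Adj a b → φ a ≠ φ b

/-- `G` on `S` has a proper colouring with `k` colours -/
def Cb (G : SimpleGraph V) (S : Finset V) (k : ℕ) : Prop :=
  ∃ φ : V → ℕ, (∀ v ∈ S, φ v < k) ∧ ∀ a ∈ S, ∀ b ∈ S, G.Adj a b → φ a ≠ φ b

/-- `G` on `S` is not `K`-colourable, but becomes so when any vertex is deleted -/
def CrOn (G : SimpleGraph V) (S : Finset V) (K : ℕ) : Prop :=
  ¬ Cb G S K ∧ ∀ x ∈ S, Cb G (S.erase x) K

/-- number of ordered adjacent pairs in `X × Y` -/
noncomputable def pr (G : SimpleGraph V) (X Y : Finset V) : ℕ :=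
  ((X ×ˢ Y).filter fun p => G.Adj p.1 p.2).card

/-- number of ordered non-adjacent pairs of distinct vertices of `X` -/
noncomputable def ms (G : SimpleGraph V) (X : Finset V) : ℕ :=
  ((X ×ˢ X).filter fun p => p.1 ≠ p.2 ∧ ¬ G.Adj p.1 p.2).card

/-- number of neighbours of `v` in `X` -/
noncomputable def dg (G : SimpleGraph V) (X : Finset V) (v : V) : ℕ :=
  (X.filter fun y => G.Adj v y).card

/-- number of non-neighbours of `v` in `X`, other than `v` -/
noncomputable def nd (G : SimpleGraph V) (X : Finset V) (v : V) : ℕ :=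
  (X.filter fun y => y ≠ v ∧ ¬ G.Adj v y).card

/-- the class `j` of `ψ` in `B` -/
noncomputable def cls {K : ℕ} (B : Finset V) (ψ : V → Fin K) (j : Fin K) : Finset V :=
  B.filter fun y => ψ y = j

/-- the vertices of `A` with a neighbour in `Q` -/
noncomputable def nbr (G : SimpleGraph V) (A Q : Finset V) : Finset V :=
  A.filter fun a => ∃ y ∈ Q, G.Adj a y

/-- the set `N` meets all classes of all `K`-colourings of `G` on `A` -/
def Blk (G : SimpleGraph V) (K : ℕ) (A N : Finset V) : Prop :=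
  ∀ φ : V → Fin K, PC G A φ → ∀ i, ∃ a ∈ N, φ a = i

/-- `Q` is a class of a `K`-colouring of `G` on `B` and its neighbours block `A` -/
def Heavy (G : SimpleGraph V) (K : ℕ) (A B Q : Finset V) : Prop :=
  ∃ ψ : V → Fin K, PC G B ψ ∧ ∃ j, Q = cls B ψ j ∧ Blk G K A (nbr G A Q)

/-- a perfect matching of `H` on `S`: an involution -/
def PM (H : SimpleGraph V) (S : Finset V) : Prop :=
  ∃ f : V → V, ∀ v ∈ S, f v ∈ S ∧ f (f v) = v ∧ H.Adj v (f v)

/-- `G` on `S` is the join of two non-empty parts -/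
def Joined (G : SimpleGraph V) (S : Finset V) : Prop :=
  ∃ S₁ S₂ : Finset V, S₁.Nonempty ∧ S₂.Nonempty ∧ Disjoint S₁ S₂ ∧ S₁ ∪ S₂ = S ∧
    ∀ a ∈ S₁, ∀ b ∈ S₂, G.Adj a b

/-- a barrier of `H` on `S`: a set `A` and a family `D` of disjoint sets covering `S \ A`, without
edges between different members; all members minus any of their vertices have perfect matchings,
and `D` has more members than `A` has elements -/
structure Bar (H : SimpleGraph V) (S A : Finset V) (D : Finset (Finset V)) : Prop where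
  sub : A ⊆ S
  mem : ∀ F ∈ D, F.Nonempty ∧ F ⊆ S \ A
  cov : ∀ v ∈ S \ A, ∃ F ∈ D, v ∈ F
  dis : ∀ F ∈ D, ∀ F' ∈ D, F ≠ F' → Disjoint F F'
  non : ∀ F ∈ D, ∀ F' ∈ D, F ≠ F' → ∀ a ∈ F, ∀ b ∈ F', ¬ H.Adj a b
  fc : ∀ F ∈ D, ∀ y ∈ F, PM H (F.erase y)
  lt : A.card + 1 ≤ D.card

/-- `F` cannot be coloured with `(|F| - 1) / 2` colours -/
def Poor (G : SimpleGraph V) (F : Finset V) : Prop := ¬ Cb G F ((F.card - 1) / 2)

/-- a critical graph on `2 K + 1` vertices: `x` and the pairs `c i`, `c' i` of non-adjacent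
vertices, `x` is adjacent to all `c i` and to no `c' i` -/
structure Conf (G : SimpleGraph V) (S : Finset V) (K : ℕ) (x : V) (c c' : Fin K → V) : Prop where
  crit : CrOn G S K
  hx : x ∈ S
  mc : ∀ i, c i ∈ S
  mc' : ∀ i, c' i ∈ S
  ic : Function.Injective c
  ic' : Function.Injective c'
  ne : ∀ i j, c i ≠ c' j
  cx : ∀ i, c i ≠ x
  cx' : ∀ i, c' i ≠ x
  cov : ∀ v ∈ S, v = x ∨ (∃ i, v = c i) ∨ ∃ i, v = c' i
  non : ∀ i, ¬ G.Adj (c i) (c' i)
  adj : ∀ i, G.Adj x (c i)
  adj' : ∀ i, ¬ G.Adj x (c' i)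

/-- `G` with the pairs of `F` added as edges -/
def addE (G : SimpleGraph V) (F : Finset (V × V)) : SimpleGraph V where
  Adj a b := G.Adj a b ∨ (a ≠ b ∧ ((a, b) ∈ F ∨ (b, a) ∈ F))
  symm := ⟨by
    rintro a b (h | ⟨h1, h2⟩)
    · exact Or.inl h.symm
    · exact Or.inr ⟨h1.symm, h2.symm⟩⟩
  loopless := ⟨by
    rintro a (h | ⟨h1, -⟩)
    · exact G.irrefl h
    · exact h1 rfl⟩

/-- the graph on `A ∪ {y}` in which `y` is joined exactly to the vertices of `R` -/
def reN (G : SimpleGraph V) (y : V) (R : Finset V) : SimpleGraph V where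
  Adj a b := (a ≠ y ∧ b ≠ y ∧ G.Adj a b) ∨ (a ≠ b ∧ ((a = y ∧ b ∈ R) ∨ (b = y ∧ a ∈ R)))
  symm := ⟨by
    rintro a b (⟨h1, h2, h3⟩ | ⟨h1, h2⟩)
    · exact Or.inl ⟨h2, h1, h3.symm⟩
    · exact Or.inr ⟨h1.symm, h2.symm⟩⟩
  loopless := ⟨by
    rintro a (⟨-, -, h⟩ | ⟨h1, -⟩)
    · exact G.irrefl h
    · exact h1 rfl⟩

/-- the standing situation of part (M): a cut with `K + c` edges, `3 c < K`, such that in every
colouring of `B` some class blocks `A` -/
structure Sit [Fintype V] (G : SimpleGraph V) (K c : ℕ) (A B : Finset V) : Prop where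
  crit : CrOn G univ K
  disj : Disjoint A B
  cover : A ∪ B = univ
  hA : 2 ≤ A.card
  hB : 2 ≤ B.card
  cut : pr G A B = K + c
  small : 3 * c < K
  typ : ∀ ψ : V → Fin K, PC G B ψ → ∃ j, Blk G K A (nbr G A (cls B ψ j))

end Pool.Agent.O2
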