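import Pool.Agent.Lib_helper46.O2.M2

/-! Vertices of B. -/

set_option autoImplicit false
set_option linter.unusedSectionVars false
set_option linter.unusedVariables false

open scoped Classical
open Finset

namespace Pool.Agent.O2

variable {V : Type}

/-- M2b. PROOF. Let `χ` colour `univ.erase w`. No class of `χ` on `B - w` blocks `A`: the class `i` of `χ` on
`A` has no neighbours in the class `i` on `B - w`. If `w` has no neighbours of the colours `i ≠ i'`
in `B`, give it the colour `i`: a colouring of `B`, its heavy class must be the class `i` with `w`,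
so `K ≤ pr G A (C_i) + dg G A w` where `C_i` is the class `i` of `χ` on `B - w`, and the same for
`i'`. As `pr G A C_i + pr G A C_i' + dg G A w ≤ K + c` we get `K ≤ dg G A w + c`, contradiction.
So at most one colour is missing among the neighbours of `w` in `B`. -/
theorem Sit.dgB [Fintype V] {G : SimpleGraph V} {K c : ℕ} {A B : Finset V}
    (h : Sit G K c A B) {w : V} (hw : w ∈ B) (hx : dg G A w + c < K) : K ≤ dg G B w + 1 := by
  have hK : 0 < K := by omega
  obtain ⟨χ, hχ⟩ := h.crit.pc hK (mem_univ w)
  have hwA : w ∉ A := fun h1 => disjoint_left.1 h.disj h1 hw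
  have hsub : A ⊆ univ.erase w := fun a ha =>
    mem_erase.2 ⟨fun e => hwA (by rw [← e]; exact ha), mem_univ _⟩
  have hχA : PC G A χ := pc_sub hsub hχ
  -- no class of `B - w` blocks `A`
  have hnb : ∀ i, ¬ Blk G K A (nbr G A (cls (B.erase w) χ i)) := by
    intro i hb
    obtain ⟨a, ha, hai⟩ := hb χ hχA i
    obtain ⟨haA, y, hy, hay⟩ := mem_filter.1 ha
    obtain ⟨hyB, hyi⟩ := mem_filter.1 hy
    refine hχ a (hsub haA) y
      (mem_erase.2 ⟨(mem_erase.1 hyB).1, mem_univ _⟩) hay ?_
    rw [hai, hyi]
  -- a missing colour gives a heavy class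
  have hmiss : ∀ i, (∀ y ∈ B, G.Adj w y → χ y ≠ i) →
      K ≤ pr G A (cls (B.erase w) χ i) + dg G A w := by
    intro i hi
    obtain ⟨ψ, hψ⟩ : ∃ ψ : V → Fin K, ψ = fun v => if v = w then i else χ v := ⟨_, rfl⟩
    have hψw : ψ w = i := by rw [hψ]; simp
    have hψn : ∀ v, v ≠ w → ψ v = χ v := fun v hv => by rw [hψ]; simp [hv]
    have hPC : PC G B ψ := by
      intro a ha b hb hab
      by_cases h1 : a = w
      · subst h1
        have h2 : b ≠ a := hab.ne'
        rw [hψw, hψn b h2]
        exact fun h3 => hi b hb hab h3.symm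
      · by_cases h2 : b = w
        · subst h2
          rw [hψw, hψn a h1]
          exact hi a ha hab.symm
        · rw [hψn a h1, hψn b h2]
          exact hχ a (mem_erase.2 ⟨h1, mem_univ _⟩) b (mem_erase.2 ⟨h2, mem_univ _⟩) hab
    obtain ⟨j, hj⟩ := h.typ ψ hPC
    have hji : j = i := by
      by_contra hne
      have h1 : cls B ψ j = cls (B.erase w) χ j := by
        unfold cls
        ext v
        simp only [mem_filter, mem_erase]
        constructor
        · rintro ⟨h2, h3⟩
          have h4 : v ≠ w := fun e => hne (by rw [← h3, e, hψw])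
          exact ⟨⟨h4, h2⟩, by rw [← hψn v h4]; exact h3⟩
        · rintro ⟨⟨h2, h3⟩, h4⟩
          exact ⟨h3, by rw [hψn v h2]; exact h4⟩
      rw [h1] at hj
      exact hnb j hj
    rw [hji] at hj
    have h1 : cls B ψ i = cls (B.erase w) χ i ∪ {w} := by
      unfold cls
      ext v
      simp only [mem_filter, mem_erase, mem_union, mem_singleton]
      constructor
      · rintro ⟨h2, h3⟩
        by_cases h4 : v = w
        · exact Or.inr h4
        · exact Or.inl ⟨⟨h4, h2⟩, by rw [← hψn v h4]; exact h3⟩
      · rintro (⟨⟨h2, h3⟩, h4⟩ | h2)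
        · exact ⟨h3, by rw [hψn v h2]; exact h4⟩
        · rw [h2]
          exact ⟨hw, hψw⟩
    have h2 : Disjoint (cls (B.erase w) χ i) {w} := by
      rw [disjoint_singleton_right]
      intro h3
      exact (mem_erase.1 (mem_filter.1 h3).1).1 rfl
    have h3 := h.heavy_ge hj
    rw [h1, pr_union_right A h2] at h3
    have h4 : pr G A {w} = dg G A w := by
      rw [pr_sum', sum_singleton]
    rw [h4] at h3
    exact h3
  -- two missing colours are impossible
  have htwo : ∀ i i', (∀ y ∈ B, G.Adj w y → χ y ≠ i) → (∀ y ∈ B, G.Adj w y → χ y ≠ i') →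
      i = i' := by
    intro i i' hi hi'
    by_contra hne
    have h1 := hmiss i hi
    have h2 := hmiss i' hi'
    have h3 : Disjoint (cls (B.erase w) χ i) (cls (B.erase w) χ i') := by
      rw [disjoint_left]
      intro v hv hv'
      exact hne ((mem_filter.1 hv).2.symm.trans (mem_filter.1 hv').2)
    have h4 : Disjoint (cls (B.erase w) χ i ∪ cls (B.erase w) χ i') {w} := by
      rw [disjoint_singleton_right]
      intro h5
      rcases mem_union.1 h5 with h6 | h6 <;> exact (mem_erase.1 (mem_filter.1 h6).1).1 rfl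
    have h5 : (cls (B.erase w) χ i ∪ cls (B.erase w) χ i') ∪ {w} ⊆ B := by
      intro v hv
      rcases mem_union.1 hv with h6 | h6
      · rcases mem_union.1 h6 with h7 | h7 <;>
          exact (mem_erase.1 (mem_filter.1 h7).1).2
      · rw [mem_singleton] at h6
        rw [h6]
        exact hw
    have h6 := pr_mono (G := G) (Subset.refl A) h5
    rw [pr_union_right A h4, pr_union_right A h3, h.cut] at h6
    have h7 : pr G A {w} = dg G A w := by
      rw [pr_sum', sum_singleton]
    rw [h7] at h6
    omega
  -- counting colours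
  obtain ⟨I, hI⟩ : ∃ I, I = (B.filter fun y => G.Adj w y).image χ := ⟨_, rfl⟩
  have h1 : I.card ≤ dg G B w := by rw [hI]; exact card_image_le
  have h2 : (univ \ I).card ≤ 1 := by
    refine card_le_one.2 fun i hi i' hi' => htwo i i' (fun y hy hwy hyi => ?_)
      fun y hy hwy hyi => ?_
    · exact (mem_sdiff.1 hi).2 (by
        rw [hI, ← hyi]
        exact mem_image_of_mem χ (mem_filter.2 ⟨hy, hwy⟩))
    · exact (mem_sdiff.1 hi').2 (by
        rw [hI, ← hyi]
        exact mem_image_of_mem χ (mem_filter.2 ⟨hy, hwy⟩))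
  have h3 := card_sdiff_add_card_eq_card (subset_univ I)
  rw [card_univ, Fintype.card_fin] at h3
  omega

end Pool.Agent.O2
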