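import Pool.Agent.Lib_helper46.O2.M4a

/-! The pairs. -/

set_option autoImplicit false
set_option linter.unusedSectionVars false
set_option linter.unusedVariables false

open scoped Classical
open Finset

namespace Pool.Agent.O2

variable {V : Type}

/-- M4, case of a large weight. PROOF. `T` is a minimal subset of `{v ∈ B : v ≠ u, x v ≥ 1}` with
`Σ_T x ≥ c' + 1`, or the whole set if its sum is `≤ c'`; `F = {(u, v) : v ∈ T}`; `|T| ≤ c' + 1`. A heavy `Q`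
contains `u` (as `x u > c'`) and meets `T`: otherwise `Σ_(B \ Q) x ≥ Σ_T x`, so `T` is the whole
set, against `hs`. -/
theorem pairs_large (B : Finset V) (x : V → ℕ) (c' : ℕ) {u : V} (hu : u ∈ B) (hxu : c' + 1 ≤ x u)
    (HQ : Finset V → Prop) (hw : ∀ Q, HQ Q → Q ⊆ B ∧ ∑ y ∈ B \ Q, x y ≤ c')
    (hs : ∀ Q, HQ Q → ∀ w, ∃ y ∈ Q, y ≠ w ∧ 1 ≤ x y) :
    ∃ F : Finset (V × V), F.card ≤ c' + 1 ∧
      (∀ f ∈ F, f.1 ∈ B ∧ f.2 ∈ B ∧ f.1 ≠ f.2 ∧ f.1 = u) ∧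
      (∀ Q, HQ Q → ∃ f ∈ F, f.1 ∈ Q ∧ f.2 ∈ Q) ∧
      ∀ F'' ⊆ F, ∀ U ⊆ B, (∀ f ∈ F'', f.1 ∈ U ∨ f.2 ∈ U) → F''.card ≤ ∑ y ∈ U, x y := by
  set W : Finset V := B.filter fun v => v ≠ u ∧ 1 ≤ x v with hW
  obtain ⟨T, hTW, hT⟩ : ∃ T ⊆ W, T.card ≤ c' + 1 ∧ (T = W ∨ T.card = c' + 1) := by
    by_cases h : W.card ≤ c' + 1
    · exact ⟨W, subset_rfl, h, Or.inl rfl⟩
    · obtain ⟨T, h1, h2⟩ := Finset.exists_subset_card_eq (s := W) (n := c' + 1) (by omega)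
      exact ⟨T, h1, h2.le, Or.inr h2⟩
  have hmem : ∀ v ∈ T, v ∈ B ∧ v ≠ u ∧ 1 ≤ x v := fun v hv => Finset.mem_filter.1 (hTW hv)
  have hcard : ∀ R : Finset V, (∀ v ∈ R, 1 ≤ x v) → R.card ≤ ∑ y ∈ R, x y := by
    intro R hR
    have := Finset.sum_le_sum hR
    simpa using this
  refine ⟨T.image fun v => (u, v), ?_, ?_, ?_, ?_⟩
  · exact Finset.card_image_le.trans hT.1
  · intro f hf
    obtain ⟨v, hv, rfl⟩ := Finset.mem_image.1 hf
    obtain ⟨h1, h2, h3⟩ := hmem v hv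
    exact ⟨hu, h1, fun h => h2 h.symm, rfl⟩
  · intro Q hQ
    obtain ⟨hQB, hQs⟩ := hw Q hQ
    have huQ : u ∈ Q := by
      by_contra h
      have h1 : x u ≤ ∑ y ∈ B \ Q, x y :=
        Finset.single_le_sum (f := x) (fun _ _ => Nat.zero_le _) (Finset.mem_sdiff.2 ⟨hu, h⟩)
      omega
    by_contra hcon
    push Not at hcon
    have hTQ : ∀ v ∈ T, v ∉ Q := fun v hv =>
      hcon (u, v) (Finset.mem_image.2 ⟨v, hv, rfl⟩) huQ
    rcases hT.2 with h1 | h1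
    · obtain ⟨y, hyQ, hyu, hy1⟩ := hs Q hQ u
      refine hTQ y ?_ hyQ
      rw [h1]
      exact Finset.mem_filter.2 ⟨hQB hyQ, hyu, hy1⟩
    · have h2 : T ⊆ B \ Q := fun v hv => Finset.mem_sdiff.2 ⟨(hmem v hv).1, hTQ v hv⟩
      have h3 : ∑ y ∈ T, x y ≤ ∑ y ∈ B \ Q, x y := Finset.sum_le_sum_of_subset h2
      have h4 := hcard T fun v hv => (hmem v hv).2.2
      omega
  · intro F'' hF U hU hmeet
    by_cases huU : u ∈ U
    · have h1 : x u ≤ ∑ y ∈ U, x y :=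
        Finset.single_le_sum (f := x) (fun _ _ => Nat.zero_le _) huU
      have h2 := (Finset.card_le_card hF).trans (Finset.card_image_le.trans hT.1)
      omega
    · have h1 : ∀ f ∈ F'', f.2 ∈ U ∧ f.2 ∈ T ∧ f.1 = u := by
        intro f hf
        obtain ⟨v, hv, rfl⟩ := Finset.mem_image.1 (hF hf)
        rcases hmeet _ hf with h2 | h2
        · exact absurd h2 huU
        · exact ⟨h2, hv, rfl⟩
      have h2 : F''.card ≤ (F''.image Prod.snd).card := by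
        rw [Finset.card_image_of_injOn]
        intro p hp q hq hpq
        rw [Finset.mem_coe] at hp hq
        exact Prod.ext ((h1 p hp).2.2.trans (h1 q hq).2.2.symm) hpq
      have h3 : F''.image Prod.snd ⊆ U := by
        intro v hv
        obtain ⟨f, hf, rfl⟩ := Finset.mem_image.1 hv
        exact (h1 f hf).1
      have h4 := hcard (F''.image Prod.snd) (by
        intro v hv
        obtain ⟨f, hf, rfl⟩ := Finset.mem_image.1 hv
        exact (hmem _ (h1 f hf).2.1).2.2)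
      have h5 : ∑ y ∈ F''.image Prod.snd, x y ≤ ∑ y ∈ U, x y := Finset.sum_le_sum_of_subset h3
      omega

/-- M4. PROOF. If all `x y ≤ c'`: `pairs_small`. Otherwise take `u ∈ B` with `x u` maximal:
`pairs_large`. -/
theorem exists_pairs (B : Finset V) (x : V → ℕ) (c' : ℕ) (hN : 2 * c' + 2 ≤ ∑ y ∈ B, x y)
    (HQ : Finset V → Prop) (hw : ∀ Q, HQ Q → Q ⊆ B ∧ ∑ y ∈ B \ Q, x y ≤ c')
    (hs : ∀ Q, HQ Q → ∀ w, ∃ y ∈ Q, y ≠ w ∧ 1 ≤ x y) :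
    ∃ F : Finset (V × V), F.card ≤ c' + 1 ∧ (∀ f ∈ F, f.1 ∈ B ∧ f.2 ∈ B ∧ f.1 ≠ f.2) ∧
      (∀ Q, HQ Q → ∃ f ∈ F, f.1 ∈ Q ∧ f.2 ∈ Q) ∧
      (∀ F'' ⊆ F, ∀ U ⊆ B, (∀ f ∈ F'', f.1 ∈ U ∨ f.2 ∈ U) → F''.card ≤ ∑ y ∈ U, x y) ∧
      ∀ w ∈ B, c' + 1 ≤ x w → (∀ v ∈ B, v ≠ w → x v < x w) → ∀ f ∈ F, f.1 = w ∨ f.2 = w := by
  by_cases hsm : ∀ y ∈ B, x y ≤ c'
  · obtain ⟨F, h1, h2, h3, h4⟩ := pairs_small B x c' hN hsm HQ hw
    refine ⟨F, h1, h2, h3, h4, ?_⟩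
    intro w hw1 hw2
    have := hsm w hw1
    omega
  · push Not at hsm
    obtain ⟨y, hy, hyc⟩ := hsm
    obtain ⟨u, hu, hmax⟩ := Finset.exists_max_image B x ⟨y, hy⟩
    obtain ⟨F, h1, h2, h3, h4⟩ := pairs_large B x c' hu
      (by have := hmax y hy; omega) HQ hw hs
    refine ⟨F, h1, fun f hf => ⟨(h2 f hf).1, (h2 f hf).2.1, (h2 f hf).2.2.1⟩, h3, h4, ?_⟩
    intro w hwB hwc hwmax f hf
    left
    have h5 : w = u := by
      by_contra hne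
      have h6 := hwmax u hu (fun h => hne h.symm)
      have h7 := hmax w hwB
      omega
    rw [h5]
    exact (h2 f hf).2.2.2

end Pool.Agent.O2
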