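import Pool.Agent.Lib_helper46.O2.M2
import Pool.Agent.Lib_helper46.O2.G3

/-! The critical piece on the side A. -/

set_option autoImplicit false
set_option linter.unusedSectionVars false
set_option linter.unusedVariables false

open scoped Classical
open Finset

namespace Pool.Agent.O2

variable {V : Type}

theorem M5a_adj_iff {G : SimpleGraph V} {y : V} {R : Finset V} {a b : V} (ha : a ≠ y) (hb : b ≠ y) :
    (reN G y R).Adj a b ↔ G.Adj a b := by
  constructor
  · rintro (⟨-, -, h⟩ | ⟨-, ⟨h, -⟩ | ⟨h, -⟩⟩)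
    · exact h
    · exact absurd h ha
    · exact absurd h hb
  · intro h
    exact Or.inl ⟨ha, hb, h⟩

theorem M5a_adj_y {G : SimpleGraph V} {y : V} {R : Finset V} {b : V} (hb : b ≠ y) :
    (reN G y R).Adj y b ↔ b ∈ R := by
  constructor
  · rintro (⟨h, -, -⟩ | ⟨-, ⟨-, h⟩ | ⟨h, -⟩⟩)
    · exact absurd rfl h
    · exact h
    · exact absurd h hb
  · intro h
    exact Or.inr ⟨hb.symm, Or.inl ⟨rfl, h⟩⟩

theorem M5a_pr {G : SimpleGraph V} {y : V} {R A' : Finset V} (hy : y ∉ A') :
    pr (reN G y R) (insert y A') (insert y A') ≤ pr G A' A' + 2 * R.card := by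
  have hne : ∀ a ∈ A', a ≠ y := fun a ha h => hy (h ▸ ha)
  have h1 : insert y A' = A' ∪ {y} := by rw [union_comm]; rfl
  have hd : Disjoint A' {y} := disjoint_singleton_right.2 hy
  have h2 : pr (reN G y R) A' A' = pr G A' A' := by
    unfold pr
    congr 1
    refine filter_congr fun p hp => ?_
    have hp' := mem_product.1 hp
    exact M5a_adj_iff (hne _ hp'.1) (hne _ hp'.2)
  have h3 : dg (reN G y R) A' y ≤ R.card := by
    unfold dg
    refine card_le_card fun b hb => ?_
    obtain ⟨hb1, hb2⟩ := mem_filter.1 hb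
    exact (M5a_adj_y (hne b hb1)).1 hb2
  have h4 : pr (reN G y R) A' {y} ≤ R.card := by
    rw [pr_sum', sum_singleton]
    exact h3
  have h5 : pr (reN G y R) {y} A' ≤ R.card := by
    rw [pr_symm]
    exact h4
  have h6 : pr (reN G y R) {y} {y} = 0 := by
    rw [pr_sum', sum_singleton]
    unfold dg
    rw [card_eq_zero, filter_eq_empty_iff]
    intro b hb
    rw [mem_singleton] at hb
    rw [hb]
    exact (reN G y R).irrefl
  rw [h1, pr_union_left _ hd, pr_union_right _ hd, pr_union_right _ hd, h2, h6]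
  omega

/-- M5a. PROOF. Take `y₀ ∈ Q₀` (not empty as it blocks) and `G' = reN G y₀ R`, `R = nbr G A Q₀`. `insert y₀ A` is not
`K`-colourable for `G'`: the restriction to `A` of a colouring is proper for `G` (`y₀ ∉ A`) and its
class of the colour of `y₀` does not meet `R`. Take a critical `T ⊆ insert y₀ A` (`exists_crOn`); `y₀ ∈ T`
since `A` is `K`-colourable. `A' = T.erase y₀`, `|T| = K + 1 + s` (`CrOn.card_ge`), `gallai` for `G'`.
`pr G' T T = pr G A' A' + 2 |R ∩ A'|`, `pr_add_ms`. If `s = 0` then `ms G' T = 0`: all pairs of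
vertices of `T` are adjacent in `G'`. -/
theorem Sit.pieceA [Fintype V] {G : SimpleGraph V} {K c : ℕ} {A B : Finset V}
    (h : Sit G K c A B) {Q₀ : Finset V} (hQ : Q₀ ⊆ B) (hb : Blk G K A (nbr G A Q₀)) :
    ∃ (A' : Finset V) (s : ℕ), A' ⊆ A ∧ A'.card = K + s ∧ s ≠ 1 ∧
      (s = 0 → (∀ a ∈ A', ∀ b ∈ A', a ≠ b → G.Adj a b) ∧ A' ⊆ nbr G A Q₀) ∧
      (K + 1 + s) * (K + s) ≤
        pr G A' A' + 2 * (nbr G A Q₀).card + 2 * s ^ 2 + (if s = 0 then 0 else 2) := by
  have hK : 0 < K := by have := h.small; omega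
  obtain ⟨φA, hφA⟩ := h.colA
  -- a vertex of Q₀
  obtain ⟨a₀, ha₀, -⟩ := hb φA hφA ⟨0, hK⟩
  obtain ⟨-, y, hy, -⟩ := mem_filter.1 ha₀
  have hyA : y ∉ A := fun h1 => disjoint_left.1 h.disj h1 (hQ hy)
  have hne : ∀ a ∈ A, a ≠ y := fun a ha h1 => hyA (h1 ▸ ha)
  set R := nbr G A Q₀ with hR
  have hRA : R ⊆ A := filter_subset _ _
  -- not colourable
  have h1 : ¬ Cb (reN G y R) (insert y A) K := by
    intro h2
    obtain ⟨φ, hφ⟩ := (cb_fin hK).1 h2
    have h3 : PC G A φ := by
      intro a ha b hb' hab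
      exact hφ a (mem_insert_of_mem ha) b (mem_insert_of_mem hb')
        ((M5a_adj_iff (hne a ha) (hne b hb')).2 hab)
    obtain ⟨a, ha, hay⟩ := hb φ h3 (φ y)
    exact hφ y (mem_insert_self _ _) a (mem_insert_of_mem (hRA ha))
      ((M5a_adj_y (hne a (hRA ha))).2 ha) hay.symm
  obtain ⟨T, hT, hTc⟩ := exists_crOn h1
  have hyT : y ∈ T := by
    by_contra hyT
    have hTA : T ⊆ A := by
      intro v hv
      rcases mem_insert.1 (hT hv) with h2 | h2
      · rw [h2] at hv; exact absurd hv hyT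
      · exact h2
    apply hTc.1
    apply cb_of_pc (φ := φA)
    intro a ha b hb' hab
    exact hφA a (hTA ha) b (hTA hb')
      ((M5a_adj_iff (hne a (hTA ha)) (hne b (hTA hb'))).1 hab)
  have hA'A : T.erase y ⊆ A := by
    intro v hv
    obtain ⟨h2, h3⟩ := mem_erase.1 hv
    exact (mem_insert.1 (hT h3)).resolve_left h2
  have hins : insert y (T.erase y) = T := insert_erase hyT
  have hcard := hTc.card_ge
  obtain ⟨s, hs⟩ : ∃ s, T.card = K + 1 + s := ⟨T.card - (K + 1), by omega⟩
  obtain ⟨g1, g2, g3⟩ := gallai T K s hTc hs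
  have hcA : (T.erase y).card = K + s := by
    rw [card_erase_of_mem hyT, hs]
    omega
  refine ⟨T.erase y, s, hA'A, hcA, g1, ?_, ?_⟩
  · intro hs0
    have hms := g2 hs0
    have hadj : ∀ a ∈ T, ∀ b ∈ T, a ≠ b → (reN G y R).Adj a b := by
      intro a ha b hb' hab
      by_contra h2
      unfold ms at hms
      rw [card_eq_zero, filter_eq_empty_iff] at hms
      exact hms (mem_product.2 ⟨ha, hb'⟩ : (a, b) ∈ T ×ˢ T) ⟨hab, h2⟩
    constructor
    · intro a ha b hb' hab
      exact (M5a_adj_iff (hne a (hA'A ha)) (hne b (hA'A hb'))).1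
        (hadj a (mem_of_mem_erase ha) b (mem_of_mem_erase hb') hab)
    · intro a ha
      have h2 : a ≠ y := hne a (hA'A ha)
      exact (M5a_adj_y h2).1 (hadj y hyT a (mem_of_mem_erase ha) h2.symm)
  · have hp := pr_add_ms (reN G y R) T
    have hq : pr (reN G y R) T T ≤ pr G (T.erase y) (T.erase y) + 2 * R.card := by
      have := M5a_pr (G := G) (R := R) (notMem_erase y T)
      rwa [hins] at this
    have hm : ms (reN G y R) T ≤ 2 * s ^ 2 + (if s = 0 then 0 else 2) := by
      split_ifs with h2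
      · rw [g2 h2]; exact Nat.zero_le _
      · exact g3
    have hsq : (K + 1 + s) * (K + s) + T.card = T.card * T.card := by
      rw [hs]
      ring
    omega

end Pool.Agent.O2
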