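import Pool.Agent.Lib_helper46.O2.M2

/-! Vertices of small inner degree on the side B. -/

set_option autoImplicit false
set_option linter.unusedSectionVars false
set_option linter.unusedVariables false

open scoped Classical
open Finset

namespace Pool.Agent.O2

variable {V : Type}

/-- M6a. PROOF. Take `f ∈ F'`, `ψ` from `hψ`, `Q` its heavy class, `U = B \ Q`, `pr G A U ≤ c'`. No pair
`g ≠ f` of `F'` lies in `Q`, so `U ∩ B'` meets all pairs of `F'.erase f`: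
`|F'| - 1 ≤ pr G A (U ∩ B')`. The set `Z` of the `w ∈ B \ B'` with `dg G B w + 1 = K` has
`dg G A w ≥ 1` for all its elements (`Sit.dg_tot`), so `|Z \ Q| ≤ pr G A (U \ B') ≤ c' - (|F'| - 1)`.
`Z ∩ Q` is independent, `z` elements, so `z (z - 1) ≤ ms G (B \ B')` and `2 z ≤ 2 + z (z - 1)`. -/
theorem Sit.ZB [Fintype V] {G : SimpleGraph V} {K c : ℕ} {A B : Finset V}
    (h : Sit G K c A B) {c' : ℕ} (hc' : ∀ Q, Heavy G K A B Q → pr G A (B \ Q) ≤ c')
    {F' : Finset (V × V)} {B' : Finset V} (hne : F'.Nonempty) (hB' : B' ⊆ B)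
    (hF' : ∀ f ∈ F', f.1 ∈ B' ∧ f.2 ∈ B')
    (hP : ∀ F'' ⊆ F', ∀ U ⊆ B, (∀ f ∈ F'', f.1 ∈ U ∨ f.2 ∈ U) → F''.card ≤ pr G A U)
    (hψ : ∀ f ∈ F', ∃ ψ : V → Fin K, PC G B ψ ∧ ∀ g ∈ F', g ≠ f → ψ g.1 ≠ ψ g.2) :
    2 * ((B \ B').filter fun w => dg G B w + 1 = K).card + 2 * F'.card ≤
      2 * (c' + 2) + ms G (B \ B') := by
  obtain ⟨f, hf⟩ := hne
  obtain ⟨ψ, hψ1, hψ2⟩ := hψ f hf
  obtain ⟨j, hj⟩ := h.exists_heavy hψ1
  set Q := cls B ψ j with hQ
  have hU := hc' Q hj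
  set Z := (B \ B').filter fun w => dg G B w + 1 = K with hZ
  -- the pairs
  have e1 : (F'.erase f).card ≤ pr G A ((B \ Q) ∩ B') := by
    apply hP (F'.erase f) (erase_subset _ _) _ (inter_subset_left.trans sdiff_subset)
    intro g hg
    obtain ⟨g1, g2⟩ := mem_erase.1 hg
    have h1 := hψ2 g g2 g1
    obtain ⟨h2, h3⟩ := hF' g g2
    by_cases h4 : ψ g.1 = j
    · right
      refine mem_inter.2 ⟨mem_sdiff.2 ⟨hB' h3, ?_⟩, h3⟩
      intro h5
      exact h1 (h4.trans (mem_filter.1 h5).2.symm)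
    · left
      refine mem_inter.2 ⟨mem_sdiff.2 ⟨hB' h2, ?_⟩, h2⟩
      intro h5
      exact h4 (mem_filter.1 h5).2
  rw [card_erase_of_mem hf] at e1
  -- the vertices outside `Q`
  have e2 : (Z \ Q).card ≤ pr G A ((B \ Q) \ B') := by
    rw [pr_sum', card_eq_sum_ones]
    have h1 : Z \ Q ⊆ (B \ Q) \ B' := by
      intro w hw
      obtain ⟨h2, h3⟩ := mem_sdiff.1 hw
      obtain ⟨h4, h5⟩ := mem_sdiff.1 (mem_filter.1 h2).1
      exact mem_sdiff.2 ⟨mem_sdiff.2 ⟨h4, h3⟩, h5⟩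
    refine le_trans (sum_le_sum fun w hw => ?_) (sum_le_sum_of_subset h1)
    have h2 := (mem_filter.1 (mem_sdiff.1 hw).1).2
    have h3 := h.dg_tot w
    omega
  have e3 : pr G A ((B \ Q) ∩ B') + pr G A ((B \ Q) \ B') = pr G A (B \ Q) := by
    rw [← pr_union_right]
    · congr 1
      rw [union_comm]
      exact sdiff_union_inter _ _
    · rw [disjoint_left]
      intro w h1 h2
      exact (mem_sdiff.1 h2).2 (mem_inter.1 h1).2
  -- the vertices inside `Q`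
  have e4 : (Z ∩ Q).card * (Z ∩ Q).card ≤ ms G (B \ B') + (Z ∩ Q).card := by
    have h1 : ms G (Z ∩ Q) ≤ ms G (B \ B') :=
      ms_mono (inter_subset_left.trans (filter_subset _ _))
    have h2 := pr_add_ms G (Z ∩ Q)
    have h3 : pr G (Z ∩ Q) (Z ∩ Q) = 0 := by
      unfold pr
      rw [card_eq_zero, filter_eq_empty_iff]
      intro p hp hadj
      obtain ⟨h4, h5⟩ := mem_product.1 hp
      have h6 := mem_filter.1 (mem_inter.1 h4).2
      have h7 := mem_filter.1 (mem_inter.1 h5).2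
      exact hψ1 p.1 h6.1 p.2 h7.1 hadj (h6.2.trans h7.2.symm)
    omega
  have e5 : (Z \ Q).card + (Z ∩ Q).card = Z.card := card_sdiff_add_card_inter Z Q
  have e6 : 1 ≤ F'.card := card_pos.2 ⟨f, hf⟩
  have e7 : 2 * (Z ∩ Q).card ≤ 2 + ms G (B \ B') := by
    generalize (Z ∩ Q).card = z at e4
    rcases z with _ | _ | z
    · omega
    · omega
    · nlinarith
  omega

end Pool.Agent.O2
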