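import Pool.Agent.Lib_helper46.O2.M2

/-! The star case, structure. -/

set_option autoImplicit false
set_option linter.unusedSectionVars false
set_option linter.unusedVariables false

open scoped Classical
open Finset

namespace Pool.Agent.O2

variable {V : Type}

/-- a non-adjacent pair of `B` is a heavy class -/
theorem M6b_heavy [Fintype V] {G : SimpleGraph V} {K c : ℕ} {A B : Finset V}
    (h : Sit G K c A B) (hB : B.card = K + 1) {a b : V} (ha : a ∈ B) (hb : b ∈ B) (hab : a ≠ b)
    (hn : ¬ G.Adj a b) : Heavy G K A B {a, b} := by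
  have hcard : (B.erase b).card = K := by rw [card_erase_of_mem hb, hB]; rfl
  let e : (B.erase b) ≃ Fin K := (B.erase b).equivFinOfCardEq hcard
  have hae : a ∈ B.erase b := mem_erase.2 ⟨hab, ha⟩
  let ψ : V → Fin K := fun v => if hv : v ∈ B.erase b then e ⟨v, hv⟩ else e ⟨a, hae⟩
  have hψ1 : ∀ v (hv : v ∈ B.erase b), ψ v = e ⟨v, hv⟩ := fun v hv => dif_pos hv
  have hψb : ψ b = e ⟨a, hae⟩ := dif_neg (fun hh => (mem_erase.1 hh).1 rfl)
  have hψa : ψ a = e ⟨a, hae⟩ := hψ1 a hae
  have hinj : ∀ v ∈ B.erase b, ∀ w ∈ B.erase b, ψ v = ψ w → v = w := by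
    intro v hv w hw hvw
    rw [hψ1 v hv, hψ1 w hw] at hvw
    exact congrArg Subtype.val (e.injective hvw)
  have hpc : PC G B ψ := by
    intro v hv w hw hvw heq
    by_cases hvb : v = b
    · by_cases hwb : w = b
      · exact hvw.ne (hvb.trans hwb.symm)
      · have hwe : w ∈ B.erase b := mem_erase.2 ⟨hwb, hw⟩
        rw [hvb, hψb, ← hψa] at heq
        have := hinj a hae w hwe heq
        rw [hvb, ← this] at hvw
        exact hn hvw.symm
    · have hve : v ∈ B.erase b := mem_erase.2 ⟨hvb, hv⟩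
      by_cases hwb : w = b
      · rw [hwb, hψb, ← hψa] at heq
        have := hinj v hve a hae heq
        rw [hwb, this] at hvw
        exact hn hvw
      · have hwe : w ∈ B.erase b := mem_erase.2 ⟨hwb, hw⟩
        exact hvw.ne (hinj v hve w hwe heq)
  obtain ⟨j, hj⟩ := h.exists_heavy hpc
  have hj0 : j = e ⟨a, hae⟩ := by
    by_contra hne
    obtain ⟨ψ', _, j', _, hblk⟩ := hj
    have hsub : cls B ψ j ⊆ B := filter_subset _ _
    obtain ⟨y, hy, hyu, _⟩ := h.not_single hsub hblk (e.symm j).1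
    have hy2 := mem_filter.1 hy
    have hyb : y ≠ b := by
      rintro rfl
      exact hne (hy2.2.symm.trans hψb)
    have hye : y ∈ B.erase b := mem_erase.2 ⟨hyb, hy2.1⟩
    apply hyu
    have h3 : e ⟨y, hye⟩ = j := (hψ1 y hye).symm.trans hy2.2
    rw [← h3, Equiv.symm_apply_apply]
  have hcls : cls B ψ j = {a, b} := by
    ext y
    simp only [cls, mem_filter, mem_insert, mem_singleton]
    constructor
    · rintro ⟨hy, hyj⟩
      by_cases hyb : y = b
      · exact Or.inr hyb
      · left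
        have hye : y ∈ B.erase b := mem_erase.2 ⟨hyb, hy⟩
        exact hinj y hye a hae (by rw [hyj, hj0, hψa])
    · rintro (rfl | rfl)
      · exact ⟨ha, by rw [hψa, hj0]⟩
      · exact ⟨hb, by rw [hψb, hj0]⟩
  rw [hcls] at hj
  exact hj

theorem M6b_ge [Fintype V] {G : SimpleGraph V} {K c : ℕ} {A B : Finset V}
    (h : Sit G K c A B) (hB : B.card = K + 1) {a b : V} (ha : a ∈ B) (hb : b ∈ B) (hab : a ≠ b)
    (hn : ¬ G.Adj a b) : K ≤ dg G A a + dg G A b := by
  obtain ⟨_, _, _, _, hblk⟩ := M6b_heavy h hB ha hb hab hn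
  have := h.heavy_ge hblk
  rwa [pr_sum', sum_pair hab] at this

theorem M6b_sum [Fintype V] {G : SimpleGraph V} {K c : ℕ} {A B : Finset V}
    (h : Sit G K c A B) {S : Finset V} (hS : S ⊆ B) : ∑ y ∈ S, dg G A y ≤ K + c := by
  rw [← pr_sum', ← h.cut]
  exact pr_mono (Subset.refl _) hS

/-- M6b1. PROOF. For a non-adjacent pair `a ≠ b` of `B`, `|B| = K + 1`: colour `B` so that `{a, b}` is a class
and all other classes are single vertices; some class is heavy (`Sit.exists_heavy`), it is not a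
single vertex or empty (`Sit.not_single`), so it is `{a, b}` and `K ≤ pr G A {a, b}`
(`Sit.heavy_ge`). Two disjoint such pairs would give `2 K ≤ K + c`; a triangle `a, b, d` gives
`3 K ≤ 2 (dg a + dg b + dg d) ≤ 2 (K + c)`, impossible. `B` is not complete (it is `K`-colourable),
so all non-adjacent pairs contain one vertex `u`. -/
theorem Sit.star [Fintype V] {G : SimpleGraph V} {K c : ℕ} {A B : Finset V}
    (h : Sit G K c A B) (hB : B.card = K + 1) :
    ∃ u ∈ B, (∀ a ∈ B, ∀ b ∈ B, a ≠ b → ¬ G.Adj a b → a = u ∨ b = u) ∧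
      (∀ v ∈ B, v ≠ u → ¬ G.Adj u v → Blk G K A (nbr G A {u, v})) ∧
      (∀ Q, Heavy G K A B Q → ∃ v ∈ B, v ≠ u ∧ ¬ G.Adj u v ∧ Q = {u, v}) := by
  have hsm := h.small
  -- two disjoint pairs are impossible
  have hdis : ∀ a ∈ B, ∀ b ∈ B, ∀ a' ∈ B, ∀ b' ∈ B, a ≠ b → ¬ G.Adj a b → a' ≠ b' →
      ¬ G.Adj a' b' → a' = a ∨ a' = b ∨ b' = a ∨ b' = b := by
    intro a ha b hb a' ha' b' hb' hab hn hab' hn'
    by_contra hcon
    push Not at hcon
    obtain ⟨h1, h2, h3, h4⟩ := hcon
    have e1 := M6b_ge h hB ha hb hab hn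
    have e2 := M6b_ge h hB ha' hb' hab' hn'
    have e3 := M6b_sum h (S := {a, b} ∪ {a', b'}) (by
      intro y hy
      simp only [mem_union, mem_insert, mem_singleton] at hy
      rcases hy with (rfl | rfl) | (rfl | rfl) <;> assumption)
    rw [sum_union (by
      rw [disjoint_left]
      intro y hy hy'
      simp only [mem_insert, mem_singleton] at hy hy'
      rcases hy with rfl | rfl <;> rcases hy' with hh | hh
      · exact h1 hh.symm
      · exact h3 hh.symm
      · exact h2 hh.symm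
      · exact h4 hh.symm), sum_pair hab, sum_pair hab'] at e3
    omega
  -- triangles are impossible
  have htri : ∀ a ∈ B, ∀ b ∈ B, ∀ d ∈ B, a ≠ b → a ≠ d → b ≠ d → ¬ G.Adj a b → ¬ G.Adj a d →
      ¬ G.Adj b d → False := by
    intro a ha b hb d hd hab had hbd n1 n2 n3
    have e1 := M6b_ge h hB ha hb hab n1
    have e2 := M6b_ge h hB ha hd had n2
    have e3 := M6b_ge h hB hb hd hbd n3
    have e4 := M6b_sum h (S := insert a {b, d}) (by
      intro y hy
      simp only [mem_insert, mem_singleton] at hy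
      rcases hy with rfl | rfl | rfl <;> assumption)
    rw [sum_insert (by simp only [mem_insert, mem_singleton]; push Not; exact ⟨hab, had⟩),
      sum_pair hbd] at e4
    omega
  -- there is a pair
  obtain ⟨a₀, ha₀, b₀, hb₀, hab₀, hn₀⟩ : ∃ a ∈ B, ∃ b ∈ B, a ≠ b ∧ ¬ G.Adj a b := by
    obtain ⟨ψ, hψ⟩ := h.colB
    obtain ⟨a, ha, b, hb, hab, heq⟩ := exists_ne_map_eq_of_card_lt_of_maps_to
      (s := B) (t := (univ : Finset (Fin K))) (f := ψ) (by rw [card_univ, Fintype.card_fin]; omega)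
      (fun _ _ => mem_univ _)
    exact ⟨a, ha, b, hb, hab, fun hadj => hψ a ha b hb hadj heq⟩
  obtain ⟨u, hu, hstar⟩ : ∃ u ∈ B, ∀ a ∈ B, ∀ b ∈ B, a ≠ b → ¬ G.Adj a b → a = u ∨ b = u := by
    by_cases hall : ∀ a ∈ B, ∀ b ∈ B, a ≠ b → ¬ G.Adj a b → a = a₀ ∨ b = a₀
    · exact ⟨a₀, ha₀, hall⟩
    · push Not at hall
      -- a pair that contains `b₀` and not `a₀`
      obtain ⟨y, hy, hyb, hya, hny⟩ : ∃ y ∈ B, y ≠ b₀ ∧ y ≠ a₀ ∧ ¬ G.Adj b₀ y := by
        obtain ⟨a, ha, b, hb, hab, hn, h1, h2⟩ := hall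
        rcases hdis a₀ ha₀ b₀ hb₀ a ha b hb hab₀ hn₀ hab hn with e | e | e | e
        · exact absurd e h1
        · subst e
          exact ⟨b, hb, fun hh => hab hh.symm, h2, hn⟩
        · exact absurd e h2
        · subst e
          exact ⟨a, ha, hab, h1, fun hh => hn hh.symm⟩
      refine ⟨b₀, hb₀, ?_⟩
      intro a ha b hb hab hn
      by_contra hcon
      push Not at hcon
      obtain ⟨c1, c2⟩ := hcon
      have d1 := hdis a₀ ha₀ b₀ hb₀ a ha b hb hab₀ hn₀ hab hn
      have d2 := hdis b₀ hb₀ y hy a ha b hb (Ne.symm hyb) hny hab hn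
      have n0 : ¬ G.Adj a₀ y := by
        rcases d1 with e | e | e | e
        · rcases d2 with e' | e' | e' | e'
          · exact absurd e' c1
          · exact absurd (e'.symm.trans e) hya
          · exact absurd e' c2
          · rw [← e, ← e']; exact hn
        · exact absurd e c1
        · rcases d2 with e' | e' | e' | e'
          · exact absurd e' c1
          · rw [← e, ← e']; exact fun hh => hn hh.symm
          · exact absurd e' c2
          · exact absurd (e'.symm.trans e) hya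
        · exact absurd e c2
      exact htri a₀ ha₀ b₀ hb₀ y hy hab₀ (Ne.symm hya) (Ne.symm hyb) hn₀ n0 hny
  refine ⟨u, hu, hstar, ?_, ?_⟩
  · intro v hv hvu hn
    obtain ⟨_, _, _, _, hblk⟩ := M6b_heavy h hB hu hv (Ne.symm hvu) hn
    exact hblk
  · rintro Q ⟨ψ, hψ, j, rfl, hblk⟩
    have hsub : cls B ψ j ⊆ B := filter_subset _ _
    have hnon : ∀ y ∈ cls B ψ j, ∀ z ∈ cls B ψ j, ¬ G.Adj y z := by
      intro y hy z hz hadj
      exact hψ y (mem_filter.1 hy).1 z (mem_filter.1 hz).1 hadj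
        ((mem_filter.1 hy).2.trans (mem_filter.1 hz).2.symm)
    obtain ⟨y, hy, hyu, _⟩ := h.not_single hsub hblk u
    obtain ⟨z, hz, hzy, _⟩ := h.not_single hsub hblk y
    have hzu : z = u := by
      rcases hstar z (hsub hz) y (hsub hy) hzy (hnon z hz y hy) with e | e
      · exact e
      · exact absurd e hyu
    subst hzu
    refine ⟨y, hsub hy, hyu, hnon z hz y hy, ?_⟩
    ext w
    simp only [mem_insert, mem_singleton]
    constructor
    · intro hw
      by_contra hcon
      push Not at hcon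
      rcases hstar w (hsub hw) y (hsub hy) hcon.2 (hnon w hw y hy) with e | e
      · exact hcon.1 e
      · exact hyu e
    · rintro (rfl | rfl)
      · exact hz
      · exact hy

end Pool.Agent.O2
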