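import Pool.Agent.Lib_helper46.O2.M2a
import Pool.Agent.Lib_helper46.O2.M6b

/-! The star case, counting. -/

set_option autoImplicit false
set_option linter.unusedSectionVars false
set_option linter.unusedVariables false

open scoped Classical
open Finset

namespace Pool.Agent.O2

variable {V : Type}

theorem M6c_indep {G : SimpleGraph V} {D I : Finset V} (hI : I ⊆ D)
    (hi : ∀ a ∈ I, ∀ b ∈ I, ¬ G.Adj a b) : 2 * I.card ≤ 2 + ms G D := by
  have h1 : I.card * I.card ≤ ms G D + I.card := by
    have h2 := pr_add_ms G I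
    have h3 : pr G I I = 0 := by
      unfold pr
      rw [card_eq_zero, filter_eq_empty_iff]
      intro p hp
      exact hi _ (mem_product.1 hp).1 _ (mem_product.1 hp).2
    have h4 := ms_mono (G := G) hI
    omega
  rcases Nat.lt_or_ge I.card 2 with h | h
  · omega
  · nlinarith

/-- M6c. see the block file -/
theorem Sit.ZA [Fintype V] {G : SimpleGraph V} {K c : ℕ} {A B : Finset V}
    (h : Sit G K c A B) (hB : B.card = K + 1) {A' Q₀ : Finset V} (hA' : A' ⊆ A)
    (hc : A'.card = K) (hcl : ∀ a ∈ A', ∀ b ∈ A', a ≠ b → G.Adj a b)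
    (hQ : Heavy G K A B Q₀) (hAQ : A' ⊆ nbr G A Q₀) :
    ms G B + 2 * ((A \ A').filter fun w => dg G A w + 1 = K).card ≤
      2 * (c + 2) + ms G (A \ A') := by
  obtain ⟨u, hu, h1, h2, h3⟩ := h.star hB
  have hdisj := h.disj
  set L := B.filter fun v => v ≠ u ∧ ¬ G.Adj u v with hL
  set Z := (A \ A').filter fun w => dg G A w + 1 = K with hZ
  have hLB : L ⊆ B := filter_subset _ _
  have huL : u ∉ L := by rw [hL, mem_filter]; tauto
  have hms : ms G B ≤ 2 * L.card := by
    have h4 : (B ×ˢ B).filter (fun p => p.1 ≠ p.2 ∧ ¬ G.Adj p.1 p.2) ⊆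
        ({u} ×ˢ L) ∪ (L ×ˢ {u}) := by
      intro p hp
      obtain ⟨hp1, hp2, hp3⟩ := mem_filter.1 hp
      obtain ⟨hp4, hp5⟩ := mem_product.1 hp1
      rcases h1 p.1 hp4 p.2 hp5 hp2 hp3 with h5 | h5
      · refine mem_union_left _ (mem_product.2 ⟨mem_singleton.2 h5, ?_⟩)
        rw [hL, mem_filter]
        exact ⟨hp5, fun h6 => hp2 (h5.trans h6.symm), by rw [← h5]; exact hp3⟩
      · refine mem_union_right _ (mem_product.2 ⟨?_, mem_singleton.2 h5⟩)
        rw [hL, mem_filter]
        exact ⟨hp4, fun h6 => hp2 (h6.trans h5.symm), by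
          rw [← h5]; exact fun h7 => hp3 h7.symm⟩
    have h5 := (card_le_card h4).trans (card_union_le _ _)
    rw [card_product, card_product, card_singleton] at h5
    unfold ms
    omega
  have hLd : ∀ v ∈ L, 1 ≤ dg G A v := by
    intro v hv
    obtain ⟨hvB, hvu, hvn⟩ := mem_filter.1 hv
    have h4 := h.dg_tot v
    have h5 := dg_add_nd (G := G) hvB
    have h6 : 1 ≤ nd G B v := by
      unfold nd
      rw [Nat.one_le_iff_ne_zero, card_ne_zero]
      exact ⟨u, mem_filter.2 ⟨hu, fun e => hvu e.symm, fun e => hvn e.symm⟩⟩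
    omega
  have hZd : ∀ w ∈ Z, 1 ≤ dg G B w := by
    intro w hw
    have h4 := h.dg_tot w
    have h5 := (mem_filter.1 hw).2
    omega
  have hZA : ∀ w ∈ Z, w ∈ A ∧ w ∉ A' := fun w hw => mem_sdiff.1 (mem_filter.1 hw).1
  obtain ⟨v₀, hv₀, hv₀u, hv₀n, hQ₀⟩ := h3 Q₀ hQ
  have hv₀L : v₀ ∈ L := mem_filter.2 ⟨hv₀, hv₀u, hv₀n⟩
  have hcut := h.cut
  by_cases hcase : ∀ w ∈ Z, G.Adj w u
  · -- all elements of `Z` are neighbours of `u`
    have h4 : A' ∪ Z ⊆ nbr G A {u, v₀} := by
      intro a ha
      rcases mem_union.1 ha with ha | ha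
      · rw [← hQ₀]; exact hAQ ha
      · exact mem_filter.2 ⟨(hZA a ha).1, u, by simp, hcase a ha⟩
    have h5 : (A' ∪ Z).card = K + Z.card := by
      rw [card_union_of_disjoint, hc]
      rw [disjoint_left]
      intro a ha ha'
      exact (hZA a ha').2 ha
    have h6 := (card_le_card h4).trans (nbr_card_le G A {u, v₀})
    have h7 : (L.erase v₀).card ≤ pr G A (L.erase v₀) := by
      rw [pr_sum', card_eq_sum_ones]
      exact sum_le_sum fun v hv => hLd v (mem_of_mem_erase hv)
    have h8 : Disjoint ({u, v₀} : Finset V) (L.erase v₀) := by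
      rw [disjoint_left]
      intro a ha ha'
      rcases mem_insert.1 ha with rfl | ha
      · exact huL (mem_of_mem_erase ha')
      · exact (mem_erase.1 ha').1 (mem_singleton.1 ha)
    have h9 : pr G A {u, v₀} + pr G A (L.erase v₀) ≤ pr G A B := by
      rw [← pr_union_right A h8]
      apply pr_mono (Subset.refl _)
      intro a ha
      rcases mem_union.1 ha with ha | ha
      · rcases mem_insert.1 ha with rfl | ha
        · exact hu
        · rw [mem_singleton.1 ha]; exact hv₀
      · exact hLB (mem_of_mem_erase ha)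
    have h10 := card_erase_of_mem hv₀L
    have h11 : 0 < L.card := card_pos.2 ⟨v₀, hv₀L⟩
    omega
  · push Not at hcase
    obtain ⟨w₀, hw₀, hw₀u⟩ := hcase
    obtain ⟨hw₀A, hw₀A'⟩ := hZA w₀ hw₀
    have hK : 0 < K := by have := h.small; omega
    obtain ⟨χ, hχ⟩ := h.crit.pc hK (mem_univ w₀)
    obtain ⟨j, hj1, hj2, hj3⟩ := h.typeA hw₀A hχ
    have hBsub : B ⊆ univ.erase w₀ := by
      intro b hb
      refine mem_erase.2 ⟨?_, mem_univ _⟩
      rintro rfl
      exact disjoint_left.1 hdisj hw₀A hb
    obtain ⟨v₁, hv₁, hv₁u, hv₁n, hQ₁⟩ := h3 (cls B χ j) ⟨χ, pc_sub hBsub hχ, j, rfl, hj1⟩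
    have hucls : u ∈ cls B χ j := by rw [hQ₁]; simp
    -- the neighbours of `w₀` in `A` do not have the colour `j`
    have hnj : ∀ a ∈ A, G.Adj w₀ a → χ a ≠ j := by
      intro a ha haw haj
      have h4 : (univ : Finset (Fin K)) ⊆ (A.filter fun y => G.Adj w₀ y).image χ := by
        intro i _
        by_cases hij : i = j
        · rw [hij, ← haj]
          exact mem_image_of_mem _ (mem_filter.2 ⟨ha, haw⟩)
        · obtain ⟨b, hb, -, hbi, hwb⟩ := hj2 i hij
          rw [← hbi]
          exact mem_image_of_mem _ (mem_filter.2 ⟨hb, hwb⟩)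
      have h5 := (card_le_card h4).trans card_image_le
      have h6 := (mem_filter.1 hw₀).2
      unfold dg at h6
      rw [card_univ, Fintype.card_fin] at h5
      omega
    set φ : V → Fin K := fun a => if a = w₀ then j else χ a with hφ
    have hφw : φ w₀ = j := by simp [hφ]
    have hφo : ∀ a, a ≠ w₀ → φ a = χ a := by intro a ha; simp [hφ, ha]
    have hφA : PC G A φ := by
      intro a ha b hb hab
      by_cases h4 : a = w₀
      · subst h4
        rw [hφw, hφo b hab.ne']
        exact (hnj b hb hab).symm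
      · by_cases h5 : b = w₀
        · subst h5
          rw [hφw, hφo a h4]
          exact hnj a ha hab.symm
        · rw [hφo a h4, hφo b h5]
          exact hχ a (mem_erase.2 ⟨h4, mem_univ _⟩) b (mem_erase.2 ⟨h5, mem_univ _⟩) hab
    -- leaves are adjacent to the class `j`
    have hleaf : ∀ v ∈ L, 1 ≤ dg G (cls A φ j) v := by
      intro v hv
      obtain ⟨hvB, hvu, hvn⟩ := mem_filter.1 hv
      obtain ⟨a, ha, haj⟩ := h2 v hvB hvu hvn φ hφA j
      obtain ⟨haA, y, hy, hay⟩ := mem_filter.1 ha
      have hyv : y = v := by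
        rcases mem_insert.1 hy with rfl | hy
        · exfalso
          have hne : a ≠ w₀ := by rintro rfl; exact hw₀u hay
          rw [hφo a hne] at haj
          exact hj3 a haA hne haj (mem_filter.2 ⟨haA, y, hucls, hay⟩)
        · exact mem_singleton.1 hy
      subst hyv
      exact card_pos.2 ⟨a, mem_filter.2 ⟨mem_filter.2 ⟨haA, haj⟩, hay.symm⟩⟩
    have hPj : L.card ≤ pr G (cls A φ j) B := by
      rw [pr_sum', card_eq_sum_ones]
      exact (sum_le_sum fun v hv => hleaf v hv).trans (sum_le_sum_of_subset hLB)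
    -- every class contains a vertex of `A'`
    have hinj : Set.InjOn φ (A' : Set V) := by
      intro a ha b hb hab
      by_contra hne
      exact hφA a (hA' ha) b (hA' hb) (hcl a ha b hb hne) hab
    have hsurj : ∀ i : Fin K, ∃ a ∈ A', φ a = i := by
      have h4 : (A'.image φ).card = K := by rw [card_image_of_injOn hinj, hc]
      have h5 : A'.image φ = univ := by
        apply eq_univ_of_card
        rw [h4, Fintype.card_fin]
      intro i
      have h6 : i ∈ A'.image φ := by rw [h5]; exact mem_univ _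
      exact mem_image.1 h6
    have hPi : ∀ i : Fin K, 1 + (Z.filter fun z => φ z = i).card ≤ pr G (cls A φ i) B := by
      intro i
      obtain ⟨a, ha, hai⟩ := hsurj i
      have haZ : a ∉ Z.filter fun z => φ z = i := by
        intro h4
        exact (hZA a (mem_filter.1 h4).1).2 ha
      have h4 : insert a (Z.filter fun z => φ z = i) ⊆ cls A φ i := by
        intro b hb
        rcases mem_insert.1 hb with rfl | hb
        · exact mem_filter.2 ⟨hA' ha, hai⟩
        · exact mem_filter.2 ⟨(hZA b (mem_filter.1 hb).1).1, (mem_filter.1 hb).2⟩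
      have h5 : (insert a (Z.filter fun z => φ z = i)).card =
          1 + (Z.filter fun z => φ z = i).card := by
        rw [card_insert_of_notMem haZ]; omega
      rw [← h5, pr_sum, card_eq_sum_ones]
      refine (sum_le_sum fun b hb => ?_).trans (sum_le_sum_of_subset h4)
      rcases mem_insert.1 hb with rfl | hb
      · obtain ⟨-, y, hy, hby⟩ := mem_filter.1 (hAQ ha)
        have hyB : y ∈ B := by
          rw [hQ₀] at hy
          rcases mem_insert.1 hy with rfl | hy
          · exact hu
          · rw [mem_singleton.1 hy]; exact hv₀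
        exact card_pos.2 ⟨y, mem_filter.2 ⟨hyB, hby⟩⟩
      · exact hZd b (mem_filter.1 hb).1
    have hsum : pr G A B = ∑ i, pr G (cls A φ i) B := by
      rw [pr_sum]
      simp_rw [pr_sum G (cls A φ _) B]
      unfold cls
      exact (sum_fiberwise A φ (fun y => dg G B y)).symm
    have hZsum : Z.card = ∑ i, (Z.filter fun z => φ z = i).card :=
      card_eq_sum_card_fiberwise (f := φ) (t := univ) (fun _ _ => by simp)
    have hj' : ∑ i, pr G (cls A φ i) B =
        pr G (cls A φ j) B + ∑ i ∈ univ.erase j, pr G (cls A φ i) B :=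
      (add_sum_erase univ _ (mem_univ j)).symm
    have hj'' : ∑ i, (Z.filter fun z => φ z = i).card =
        (Z.filter fun z => φ z = j).card + ∑ i ∈ univ.erase j, (Z.filter fun z => φ z = i).card :=
      (add_sum_erase univ _ (mem_univ j)).symm
    have hrest : (K - 1) + ∑ i ∈ univ.erase j, (Z.filter fun z => φ z = i).card ≤
        ∑ i ∈ univ.erase j, pr G (cls A φ i) B := by
      have h4 := sum_le_sum fun i (_ : i ∈ univ.erase j) => hPi i
      rw [sum_add_distrib, sum_const, card_erase_of_mem (mem_univ _), card_univ,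
        Fintype.card_fin, smul_eq_mul, mul_one] at h4
      exact h4
    have hz : 2 * (Z.filter fun z => φ z = j).card ≤ 2 + ms G (A \ A') := by
      apply M6c_indep
      · exact (filter_subset _ _).trans (filter_subset _ _)
      · intro a ha b hb hab
        obtain ⟨ha1, ha2⟩ := mem_filter.1 ha
        obtain ⟨hb1, hb2⟩ := mem_filter.1 hb
        exact hφA a (hZA a ha1).1 b (hZA b hb1).1 hab (ha2.trans hb2.symm)
    omega

end Pool.Agent.O2
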