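import Pool.Agent.Lib_helper46.O2.L2

/-! Counting the edges of one side. -/

set_option autoImplicit false
set_option linter.unusedSectionVars false
set_option linter.unusedVariables false

open scoped Classical
open Finset

namespace Pool.Agent.O2

variable {V : Type}

/-- counting the edges of one side: `A' ⊆ A`, `D = A \ A'`. PROOF:
`pr G A A = pr G A' A' + 2 Σ_(v ∈ D) dg G A v - pr G D D`, and `pr_add_ms` for `D`. -/
theorem side_count {G : SimpleGraph V} {K : ℕ} {A A' : Finset V} (hA' : A' ⊆ A)
    (hd : ∀ w ∈ A \ A', K ≤ dg G A w + 1) :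
    pr G A' A' + 2 * K * (A \ A').card + ms G (A \ A') + (A \ A').card ≤
      pr G A A + 2 * ((A \ A').filter fun w => dg G A w + 1 = K).card +
        (A \ A').card * (A \ A').card := by
  set D := A \ A' with hD
  have hdis : Disjoint A' D := by rw [hD]; exact disjoint_sdiff
  have hU : A' ∪ D = A := by rw [hD]; exact union_sdiff_of_subset hA'
  have e1 : pr G A A + pr G D D = pr G A' A' + 2 * pr G D A := by
    have a1 : pr G A A = pr G A' A + pr G D A := by
      conv_lhs => rw [← hU]
      rw [pr_union_left _ hdis, hU]
    have a2 : pr G A' A = pr G A' A' + pr G A' D := by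
      conv_lhs => rw [← hU]
      rw [pr_union_right _ hdis]
    have a3 : pr G D A = pr G D A' + pr G D D := by
      conv_lhs => rw [← hU]
      rw [pr_union_right _ hdis]
    have a4 : pr G A' D = pr G D A' := pr_symm G A' D
    omega
  have e2 := pr_add_ms G D
  have e3 : K * D.card ≤ pr G D A + (D.filter fun w => dg G A w + 1 = K).card := by
    rw [pr_sum, card_filter, ← sum_add_distrib, mul_comm, ← smul_eq_mul, ← sum_const]
    refine sum_le_sum fun w hw => ?_
    have := hd w hw
    split_ifs with h
    · omega
    · omega
  have e4 : 2 * K * D.card = 2 * (K * D.card) := by ring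
  rw [e4]
  omega

end Pool.Agent.O2
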