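import Pool.Agent.Lib_helper46.O2.M1
import Pool.Agent.Lib_helper46.O2.M2b
import Pool.Agent.Lib_helper46.O2.M4
import Pool.Agent.Lib_helper46.O2.M5a
import Pool.Agent.Lib_helper46.O2.M5b
import Pool.Agent.Lib_helper46.O2.M6a
import Pool.Agent.Lib_helper46.O2.M6c
import Pool.Agent.Lib_helper46.O2.M7a

/-! Small cuts give the bound. -/

set_option autoImplicit false
set_option linter.unusedSectionVars false
set_option linter.unusedVariables false

open scoped Classical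
open Finset

namespace Pool.Agent.O2

variable {V : Type}

theorem M7_total [Fintype V] {G : SimpleGraph V} {K c : ℕ} {A B : Finset V}
    (h : Sit G K c A B) : pr G univ univ = pr G A A + pr G B B + 2 * (K + c) := by
  rw [← h.cover, pr_union_left _ h.disj, pr_union_right _ h.disj, pr_union_right _ h.disj,
    pr_symm G B A, h.cut]
  ring

theorem M7_clique {G : SimpleGraph V} {K : ℕ} {S : Finset V} (hS : S.card = K)
    (hc : ∀ a ∈ S, ∀ b ∈ S, a ≠ b → G.Adj a b) : pr G S S + K = K * K := by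
  have h1 := pr_add_ms G S
  have h2 : ms G S = 0 := by
    unfold ms
    rw [card_eq_zero, filter_eq_empty_iff]
    rintro ⟨a, b⟩ hab ⟨hne, hadj⟩
    rw [mem_product] at hab
    exact hadj (hc a hab.1 b hab.2 hne)
  rw [h2, hS] at h1
  omega

theorem M7_ms {G : SimpleGraph V} {B : Finset V} {F : Finset (V × V)}
    (hF : ∀ f ∈ F, f.1 ∈ B ∧ f.2 ∈ B ∧ f.1 ≠ f.2 ∧ ¬ G.Adj f.1 f.2 ∧ (f.2, f.1) ∉ F) :
    2 * F.card ≤ ms G B := by
  have h1 : F ∪ F.image Prod.swap ⊆ (B ×ˢ B).filter fun p => p.1 ≠ p.2 ∧ ¬ G.Adj p.1 p.2 := by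
    intro f hf
    rw [mem_filter, mem_product]
    rcases mem_union.1 hf with hf | hf
    · obtain ⟨h1, h2, h3, h4, -⟩ := hF f hf
      exact ⟨⟨h1, h2⟩, h3, h4⟩
    · obtain ⟨g, hg, rfl⟩ := mem_image.1 hf
      obtain ⟨h1, h2, h3, h4, -⟩ := hF g hg
      exact ⟨⟨h2, h1⟩, h3.symm, fun h5 => h4 h5.symm⟩
  have h2 : Disjoint F (F.image Prod.swap) := by
    rw [disjoint_left]
    intro f hf hf'
    obtain ⟨g, hg, rfl⟩ := mem_image.1 hf'
    exact (hF g hg).2.2.2.2 hf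
  have h3 := card_le_card h1
  rw [card_union_of_disjoint h2, card_image_of_injective _ Prod.swap_injective] at h3
  unfold ms
  omega

theorem M7_a00 {K c' r a b f zA zB mA mB PA PB PA' PB' : ℕ}
    (e1 : (PA' : ℤ) + 2 * K * a + mA + a ≤ PA + 2 * zA + a * a)
    (e2 : (PB' : ℤ) + 2 * K * b + mB + b ≤ PB + 2 * zB + b * b)
    (e7 : (PA' : ℤ) + K = K * K) (e8 : ((K : ℤ) + 1) * K ≤ PB' + 2 * f)
    (key : 2 * (f : ℤ) + 2 * zA + 2 * zB ≤ 2 * (c' + r + 2) + 2 * (a * b) + mA + mB) :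
    (K : ℤ) * (2 * K + 1 + ((0 + 0 + a + b : ℕ) : ℤ)) +
      ((0 + 0 + a + b : ℕ) : ℤ) * (K + 1 - ((0 + 0 + a + b : ℕ) : ℤ)) + K - 4 ≤
      ((PA + PB + 2 * (K + (c' + r)) : ℕ) : ℤ) := by
  push_cast
  linarith

theorem M7_a0t {K c' r t a b f zA zB mA mB PA PB PA' PB' R : ℕ} (ht : 2 ≤ t)
    (e1 : (PA' : ℤ) + 2 * K * a + mA + a ≤ PA + 2 * zA + a * a)
    (e2 : (PB' : ℤ) + 2 * K * b + mB + b ≤ PB + 2 * zB + b * b)
    (e3 : (f : ℤ) ≤ c' + 1) (e4 : (R : ℤ) ≤ K + r) (e5 : (zA : ℤ) ≤ a) (e6 : (zB : ℤ) ≤ b)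
    (e7 : (K + 1 : ℤ) * K ≤ PA' + 2 * R)
    (e8 : ((K : ℤ) + 1 + t) * (K + t) ≤ PB' + 2 * f + 2 * t ^ 2 + 2) :
    (K : ℤ) * (2 * K + 1 + ((0 + t + a + b : ℕ) : ℤ)) +
      ((0 + t + a + b : ℕ) : ℤ) * (K + 1 - ((0 + t + a + b : ℕ) : ℤ)) + K - 4 ≤
      ((PA + PB + 2 * (K + (c' + r)) : ℕ) : ℤ) := by
  have ht3 : (0 : ℤ) ≤ (t : ℤ) - 2 := by
    have : (2 : ℤ) ≤ t := by exact_mod_cast ht
    linarith
  have h1 : (0 : ℤ) ≤ (t - 2) * a := mul_nonneg ht3 (Int.natCast_nonneg a)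
  have h2 : (0 : ℤ) ≤ (t - 2) * b := mul_nonneg ht3 (Int.natCast_nonneg b)
  have hmA : (0 : ℤ) ≤ mA := Int.natCast_nonneg _
  have hmB : (0 : ℤ) ≤ mB := Int.natCast_nonneg _
  have ha : (0 : ℤ) ≤ a := Int.natCast_nonneg _
  have hb : (0 : ℤ) ≤ b := Int.natCast_nonneg _
  have hab : (0 : ℤ) ≤ a * b := mul_nonneg ha hb
  push_cast
  linarith

theorem M7_as0 {K c' r s a b f zA zB mA mB PA PB PA' PB' R : ℕ} (hs : 2 ≤ s)
    (e1 : (PA' : ℤ) + 2 * K * a + mA + a ≤ PA + 2 * zA + a * a)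
    (e2 : (PB' : ℤ) + 2 * K * b + mB + b ≤ PB + 2 * zB + b * b)
    (e3 : (f : ℤ) ≤ c' + 1) (e4 : (R : ℤ) ≤ K + r) (e5 : (zA : ℤ) ≤ a) (e6 : (zB : ℤ) ≤ b)
    (e7 : ((K : ℤ) + 1 + s) * (K + s) ≤ PA' + 2 * R + 2 * s ^ 2 + 2)
    (e8 : ((K : ℤ) + 1) * K ≤ PB' + 2 * f) :
    (K : ℤ) * (2 * K + 1 + ((s + 0 + a + b : ℕ) : ℤ)) +
      ((s + 0 + a + b : ℕ) : ℤ) * (K + 1 - ((s + 0 + a + b : ℕ) : ℤ)) + K - 4 ≤
      ((PA + PB + 2 * (K + (c' + r)) : ℕ) : ℤ) := by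
  have hs3 : (0 : ℤ) ≤ (s : ℤ) - 2 := by
    have : (2 : ℤ) ≤ s := by exact_mod_cast hs
    linarith
  have h1 : (0 : ℤ) ≤ (s - 2) * a := mul_nonneg hs3 (Int.natCast_nonneg a)
  have h2 : (0 : ℤ) ≤ (s - 2) * b := mul_nonneg hs3 (Int.natCast_nonneg b)
  have hmA : (0 : ℤ) ≤ mA := Int.natCast_nonneg _
  have hmB : (0 : ℤ) ≤ mB := Int.natCast_nonneg _
  have ha : (0 : ℤ) ≤ a := Int.natCast_nonneg _
  have hb : (0 : ℤ) ≤ b := Int.natCast_nonneg _
  have hab : (0 : ℤ) ≤ a * b := mul_nonneg ha hb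
  push_cast
  linarith

theorem M7_ast {K c' r s t a b f zA zB mA mB PA PB PA' PB' R : ℕ} (hs : 2 ≤ s) (ht : 2 ≤ t)
    (e1 : (PA' : ℤ) + 2 * K * a + mA + a ≤ PA + 2 * zA + a * a)
    (e2 : (PB' : ℤ) + 2 * K * b + mB + b ≤ PB + 2 * zB + b * b)
    (e3 : (f : ℤ) ≤ c' + 1) (e4 : (R : ℤ) ≤ K + r) (e5 : (zA : ℤ) ≤ a) (e6 : (zB : ℤ) ≤ b)
    (e7 : ((K : ℤ) + 1 + s) * (K + s) ≤ PA' + 2 * R + 2 * s ^ 2 + 2)
    (e8 : ((K : ℤ) + 1 + t) * (K + t) ≤ PB' + 2 * f + 2 * t ^ 2 + 2) :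
    (K : ℤ) * (2 * K + 1 + ((s + t + a + b : ℕ) : ℤ)) +
      ((s + t + a + b : ℕ) : ℤ) * (K + 1 - ((s + t + a + b : ℕ) : ℤ)) + K - 4 ≤
      ((PA + PB + 2 * (K + (c' + r)) : ℕ) : ℤ) := by
  have hs3 : (0 : ℤ) ≤ (s : ℤ) - 2 := by
    have : (2 : ℤ) ≤ s := by exact_mod_cast hs
    linarith
  have ht3 : (0 : ℤ) ≤ (t : ℤ) - 2 := by
    have : (2 : ℤ) ≤ t := by exact_mod_cast ht
    linarith
  have h1 : (0 : ℤ) ≤ (s - 2) * a := mul_nonneg hs3 (Int.natCast_nonneg a)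
  have h2 : (0 : ℤ) ≤ (s - 2) * b := mul_nonneg hs3 (Int.natCast_nonneg b)
  have h3 : (0 : ℤ) ≤ t * a := mul_nonneg (Int.natCast_nonneg t) (Int.natCast_nonneg a)
  have h4 : (0 : ℤ) ≤ t * b := mul_nonneg (Int.natCast_nonneg t) (Int.natCast_nonneg b)
  have h5 : (0 : ℤ) ≤ (s - 2) * (t - 2) := mul_nonneg hs3 ht3
  have hmA : (0 : ℤ) ≤ mA := Int.natCast_nonneg _
  have hmB : (0 : ℤ) ≤ mB := Int.natCast_nonneg _
  have ha : (0 : ℤ) ≤ a := Int.natCast_nonneg _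
  have hb : (0 : ℤ) ≤ b := Int.natCast_nonneg _
  have hab : (0 : ℤ) ≤ a * b := mul_nonneg ha hb
  push_cast
  linarith

/-- M7. PROOF. Minimal heavy class `Q₀`, `pr G A Q₀ = K + r`, `c' = c - r`; `exists_pairs` with `x = dg G A`,
`HQ = Heavy`; `pieceB`, `pieceA`; `side_count` for both sides (the exceptional vertex `w` of `B`
with `K ≤ dg G A w + c` is in all pairs of `F`, so in `B'`; the others: `Sit.dgB`). See the paper. -/
theorem Sit.bound [Fintype V] {G : SimpleGraph V} {K c : ℕ} {A B : Finset V}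
    (h : Sit G K c A B) (hK : 3 ≤ K) (p : ℕ) (hn : Fintype.card V = 2 * K + 1 + p) :
    (K : ℤ) * (2 * K + 1 + p) + p * (K + 1 - p) + K - 4 ≤ pr G univ univ := by
  obtain ⟨ψ₀, hψ₀⟩ := h.colB
  obtain ⟨j₀, hj₀⟩ := h.exists_heavy hψ₀
  have hex : ∃ n, ∃ Q, Heavy G K A B Q ∧ pr G A Q = n := ⟨_, _, hj₀, rfl⟩
  obtain ⟨Q₀, hQ₀, hmin⟩ : ∃ Q₀, Heavy G K A B Q₀ ∧
      ∀ Q, Heavy G K A B Q → pr G A Q₀ ≤ pr G A Q := by
    obtain ⟨Q₀, h1, h2⟩ := Nat.find_spec hex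
    exact ⟨Q₀, h1, fun Q hQ => by rw [h2]; exact Nat.find_min' hex ⟨Q, hQ, rfl⟩⟩
  have hsub : ∀ Q, Heavy G K A B Q → Q ⊆ B := by
    rintro Q ⟨ψ, -, j, rfl, -⟩
    exact filter_subset _ _
  have hblk : ∀ Q, Heavy G K A B Q → Blk G K A (nbr G A Q) := by
    rintro Q ⟨ψ, -, j, -, hb⟩
    exact hb
  have hK0 := h.heavy_ge (hblk Q₀ hQ₀)
  have hadd0 := h.add (hsub Q₀ hQ₀)
  obtain ⟨r, hr⟩ : ∃ r, pr G A Q₀ = K + r := ⟨pr G A Q₀ - K, by omega⟩
  obtain ⟨c', hcc⟩ : ∃ c', c = c' + r := ⟨c - r, by omega⟩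
  have hsmall := h.small
  have hcut := h.cut
  have hc' : ∀ Q, Heavy G K A B Q → pr G A (B \ Q) ≤ c' := by
    intro Q hQ
    have h1 := h.add (hsub Q hQ)
    have h2 := hmin Q hQ
    omega
  -- the pairs
  obtain ⟨F, hFc, hFB, hFQ, hFP, hFw⟩ := exists_pairs B (dg G A) c'
    (by rw [← pr_sum', hcut]; omega) (Heavy G K A B)
    (fun Q hQ => ⟨hsub Q hQ, by rw [← pr_sum']; exact hc' Q hQ⟩)
    (fun Q hQ w => h.not_single (hsub Q hQ) (hblk Q hQ) w)
  -- the pieces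
  obtain ⟨F', B', t, hF'F, hF'n, hB', hB'c, ht1, hF'B, hF'ψ, -, hBcount⟩ := h.pieceB hFB hFQ
  obtain ⟨A', s, hA', hA'c, hs1, hs0, hAcount⟩ := h.pieceA (hsub Q₀ hQ₀) (hblk Q₀ hQ₀)
  have hR : (nbr G A Q₀).card ≤ K + r := by rw [← hr]; exact nbr_card_le G A Q₀
  have hF'c : F'.card ≤ c' + 1 := (card_le_card hF'F).trans hFc
  -- inner degrees
  have hdA : ∀ w ∈ A \ A', K ≤ dg G A w + 1 := fun w hw => h.dgA (mem_sdiff.1 hw).1
  have hdB : ∀ w ∈ B \ B', K ≤ dg G B w + 1 := by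
    intro w hw
    obtain ⟨hwB, hwB'⟩ := mem_sdiff.1 hw
    by_cases hx : dg G A w + c < K
    · exact h.dgB hwB hx
    · exfalso
      obtain ⟨f, hf⟩ := hF'n
      have h1 := hFw w hwB (by omega) (fun v hv hvw => by
        have := h.uniq hwB hv (Ne.symm hvw) (by omega)
        omega) f (hF'F hf)
      obtain ⟨h2, h3, -⟩ := hF'B f hf
      rcases h1 with h1 | h1
      · exact hwB' (h1 ▸ h2)
      · exact hwB' (h1 ▸ h3)
  have hSA := side_count (G := G) hA' hdA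
  have hSB := side_count (G := G) hB' hdB
  have hZB := h.ZB hc' hF'n hB' (fun f hf => ⟨(hF'B f hf).1, (hF'B f hf).2.1⟩)
    (fun F'' hF'' U hU hU' => by
      have := hFP F'' (hF''.trans hF'F) U hU hU'
      rwa [← pr_sum'] at this) hF'ψ
  have hZAa : ((A \ A').filter fun w => dg G A w + 1 = K).card ≤ (A \ A').card :=
    card_filter_le _ _
  have hZBb : ((B \ B').filter fun w => dg G B w + 1 = K).card ≤ (B \ B').card :=
    card_filter_le _ _
  have htot := M7_total h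
  have hcA : (A \ A').card + A'.card = A.card := card_sdiff_add_card_eq_card hA'
  have hcB : (B \ B').card + B'.card = B.card := card_sdiff_add_card_eq_card hB'
  have hcV : A.card + B.card = 2 * K + 1 + p := by
    rw [← hn, ← card_union_of_disjoint h.disj, h.cover, card_univ]
  -- the star case
  have hstar : s = 0 → t = 0 → (B \ B').card = 0 →
      2 * F'.card + 2 * ((A \ A').filter fun w => dg G A w + 1 = K).card ≤
        2 * (c + 2) + ms G (A \ A') := by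
    intro hs ht hb
    have hBB : B' = B := by
      apply Subset.antisymm hB'
      rw [← sdiff_eq_empty_iff_subset]
      exact card_eq_zero.1 hb
    have h1 := h.ZA (by rw [← hBB, hB'c, ht]) hA' (by rw [hA'c, hs]; rfl) (hs0 hs).1 hQ₀ (hs0 hs).2
    have h2 : 2 * F'.card ≤ ms G B := M7_ms (fun f hf => by
      obtain ⟨a1, a2, a3, a4⟩ := hF'B f hf
      exact ⟨hB' a1, hB' a2, (hFB f (hF'F hf)).2.2, a3, a4⟩)
    omega
  have hclq : s = 0 → pr G A' A' + K = K * K := by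
    intro hs
    exact M7_clique (by rw [hA'c, hs]; rfl) (hs0 hs).1
  -- arithmetic
  generalize ((A \ A').filter fun w => dg G A w + 1 = K).card = zA at *
  generalize ((B \ B').filter fun w => dg G B w + 1 = K).card = zB at *
  generalize (A \ A').card = a at *
  generalize (B \ B').card = b at *
  generalize ms G (A \ A') = mA at *
  generalize ms G (B \ B') = mB at *
  generalize pr G A' A' = PA' at *
  generalize pr G B' B' = PB' at *
  generalize pr G A A = PA at *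
  generalize pr G B B = PB at *
  generalize (nbr G A Q₀).card = R at *
  generalize F'.card = f at *
  rw [htot]
  have hp : p = s + t + a + b := by omega
  subst hp
  subst hcc
  clear hFQ hFP hFw hF'ψ hF'B hFB hs0
  have e1 : (PA' : ℤ) + 2 * K * a + mA + a ≤ PA + 2 * zA + a * a := by exact_mod_cast hSA
  have e2 : (PB' : ℤ) + 2 * K * b + mB + b ≤ PB + 2 * zB + b * b := by exact_mod_cast hSB
  have e3 : (f : ℤ) ≤ c' + 1 := by exact_mod_cast hF'c
  have e4 : (R : ℤ) ≤ K + r := by exact_mod_cast hR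
  have e5 : (zA : ℤ) ≤ a := by exact_mod_cast hZAa
  have e6 : (zB : ℤ) ≤ b := by exact_mod_cast hZBb
  rcases Nat.eq_zero_or_pos s with hs | hs
  · rcases Nat.eq_zero_or_pos t with ht | ht
    · subst hs
      subst ht
      have e7 : (PA' : ℤ) + K = K * K := by exact_mod_cast hclq rfl
      have e8 : ((K : ℤ) + 1) * K ≤ PB' + 2 * f := by
        have := hBcount
        simp only [if_true] at this
        have h2 : (K + 1) * K ≤ PB' + 2 * f := by simpa using this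
        exact_mod_cast h2
      have key : 2 * (f : ℤ) + 2 * zA + 2 * zB ≤ 2 * (c' + r + 2) + 2 * (a * b) + mA + mB := by
        rcases Nat.eq_zero_or_pos b with hb | hb
        · have := hstar rfl rfl hb
          have h3 : (2 * (f : ℤ) + 2 * zA) ≤ 2 * (c' + r + 2) + mA := by exact_mod_cast this
          subst hb
          have : (zB : ℤ) ≤ 0 := by simpa using e6
          have hmB : (0 : ℤ) ≤ mB := by positivity
          push_cast
          linarith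
        · have h3 : (2 * (zB : ℤ) + 2 * f) ≤ 2 * (c' + 2) + mB := by exact_mod_cast hZB
          have h4 : (a : ℤ) ≤ a * b := by
            have : (1 : ℤ) ≤ b := by exact_mod_cast hb
            nlinarith [Int.natCast_nonneg a]
          have hmA : (0 : ℤ) ≤ mA := by positivity
          have hr0 : (0 : ℤ) ≤ r := by positivity
          linarith
      exact M7_a00 e1 e2 e7 e8 key
    · have ht2 : 2 ≤ t := by omega
      subst hs
      have e7 : (K + 1 : ℤ) * K ≤ PA' + 2 * R := by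
        have := hAcount
        simp only [if_true] at this
        have h2 : (K + 1) * K ≤ PA' + 2 * R := by simpa using this
        exact_mod_cast h2
      have e8 : ((K : ℤ) + 1 + t) * (K + t) ≤ PB' + 2 * f + 2 * t ^ 2 + 2 := by
        have := hBcount
        rw [if_neg (by omega)] at this
        exact_mod_cast this
      exact M7_a0t ht2 e1 e2 e3 e4 e5 e6 e7 e8
  · have hs2 : 2 ≤ s := by omega
    have e7 : ((K : ℤ) + 1 + s) * (K + s) ≤ PA' + 2 * R + 2 * s ^ 2 + 2 := by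
      have := hAcount
      rw [if_neg (by omega)] at this
      exact_mod_cast this
    rcases Nat.eq_zero_or_pos t with ht | ht
    · subst ht
      have e8 : ((K : ℤ) + 1) * K ≤ PB' + 2 * f := by
        have := hBcount
        simp only [if_true] at this
        have h2 : (K + 1) * K ≤ PB' + 2 * f := by simpa using this
        exact_mod_cast h2
      exact M7_as0 hs2 e1 e2 e3 e4 e5 e6 e7 e8
    · have ht2 : 2 ≤ t := by omega
      have e8 : ((K : ℤ) + 1 + t) * (K + t) ≤ PB' + 2 * f + 2 * t ^ 2 + 2 := by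
        have := hBcount
        rw [if_neg (by omega)] at this
        exact_mod_cast this
      exact M7_ast hs2 ht2 e1 e2 e3 e4 e5 e6 e7 e8

/-- (M) -/
theorem cut_bound [Fintype V] {G : SimpleGraph V} {K : ℕ} {A B : Finset V} (hK : 3 ≤ K)
    (hcr : CrOn G univ K) (hd : Disjoint A B) (hu : A ∪ B = univ) (hA : 2 ≤ A.card)
    (hB : 2 ≤ B.card) (hm : 3 * pr G A B < 4 * K) (p : ℕ)
    (hn : Fintype.card V = 2 * K + 1 + p) :
    (K : ℤ) * (2 * K + 1 + p) + p * (K + 1 - p) + K - 4 ≤ pr G univ univ := by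
  rcases sit_exists hK hcr hd hu hA hB hm with ⟨c, h⟩ | ⟨c, h⟩
  · exact h.bound hK p hn
  · exact h.bound hK p hn

end Pool.Agent.O2
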