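import Pool.Agent.Lib_helper33.Ore.Final
import Pool.Agent.Lib_helper46.O2.M7
import Pool.Agent.Lib_helper46.O2.C5

/-! The exact value of `f_k(2 k - 1 + p)`. -/

set_option autoImplicit false
set_option linter.unusedSectionVars false
set_option linter.unusedVariables false

open scoped Classical
open Finset

namespace Pool.Agent.O2

variable {V : Type}

theorem pr_eq_ore (G : SimpleGraph V) (X Y : Finset V) : Pool.Agent.Ore.pr G X Y = pr G X Y := rfl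

theorem crOn_of_crit [Fintype V] {G : SimpleGraph V} {K : ℕ} (hK : 0 < K)
    (h : Pool.Agent.Ore.Crit G K) : CrOn G univ K := by
  refine ⟨?_, ?_⟩
  · intro h1
    obtain ⟨φ, hφ⟩ := (cb_fin hK).1 h1
    exact h.1 ⟨SimpleGraph.Coloring.mk φ fun {a b} hab => hφ a (mem_univ _) b (mem_univ _) hab⟩
  · intro x _
    obtain ⟨φ, hφ⟩ := h.2 x
    exact cb_of_pc (φ := φ) fun a ha b hb hab =>
      hφ a b (mem_erase.1 ha).1 (mem_erase.1 hb).1 hab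

/-- the lower bound: Ore's value -/
theorem lower [Fintype V] {G : SimpleGraph V} {K p : ℕ} (hp : 1 ≤ p)
    (hk : 10 ^ 7 * p ^ 2 ≤ K + 1) (h : CrOn G univ K) (hn : Fintype.card V = 2 * K + 1 + p) :
    (K : ℤ) * (2 * K + 1 + p) + p * (K + 1 - p) + K - 4 ≤ pr G univ univ := by
  by_contra hcon
  push Not at hcon
  obtain ⟨A, B, h1, h2, h3, h4, h5⟩ := cut_exists hp hk h hn hcon
  have hK : 3 ≤ K := by
    have : 1 ≤ p ^ 2 := Nat.one_le_pow _ _ hp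
    omega
  have := cut_bound hK h h1 h2 h3 h4 h5 p hn
  omega

/-- the upper bound: the graphs of Ore -/
theorem upper {p K : ℕ} (hp : 2 ≤ p) (hpK : p ≤ K) :
    ∃ G : SimpleGraph (Fin (2 * K + 1 + p)), Pool.Agent.Ore.Crit G K ∧
      (Pool.Agent.Ore.pr G univ univ : ℤ) =
        (K : ℤ) * (2 * K + 1 + p) + p * (K + 1 - p) + K - 4 := by
  obtain ⟨a, rfl⟩ := Nat.exists_eq_add_of_le hpK
  obtain ⟨e, ⟨V, hV, G, v, w, hcard, hpr, hcrit, -, -⟩, he⟩ := Pool.Agent.Ore.good_family p a 1 hp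
  have hc : Fintype.card V = 2 * (p + a) + 1 + p := by rw [hcard]; ring
  obtain ⟨G', hG', hG'p⟩ := Pool.Agent.Ore.transport G hc hcrit
  refine ⟨G', hG', ?_⟩
  rw [hG'p, hpr, he]
  push_cast
  ring

theorem main {p K : ℕ} (hp : 2 ≤ p) (hk : 10 ^ 7 * p ^ 2 ≤ K + 1) :
    2 * (Pool.Agent.Ore.fmin (K + 1) (2 * K + 1 + p) : ℤ) =
      (K : ℤ) * (2 * K + 1 + p) + p * (K + 1 - p) + K - 4 := by
  have hpK : p ≤ K := by nlinarith
  have hK : 1 ≤ K := by omega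
  have hne : Nonempty (Fin (2 * K + 1 + p)) := ⟨⟨0, by omega⟩⟩
  obtain ⟨G, hG, hGp⟩ := upper hp hpK
  have hmem : Pool.Agent.Ore.fmin (K + 1) (2 * K + 1 + p) ∈
      {e : ℕ | ∃ G : SimpleGraph (Fin (2 * K + 1 + p)),
        Pool.Agent.Ore.IsCritical (K + 1) G ∧ G.edgeSet.ncard = e} :=
    Nat.sInf_mem ⟨_, G, (Pool.Agent.Ore.isCritical_iff G hK).2 hG, rfl⟩
  obtain ⟨G1, hG1, hG1e⟩ := hmem
  have hlow := lower (by omega) hk
    (crOn_of_crit hK ((Pool.Agent.Ore.isCritical_iff G1 hK).1 hG1)) (by simp)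
  rw [← pr_eq_ore, Pool.Agent.Ore.pr_eq_two_mul, hG1e] at hlow
  have hup : Pool.Agent.Ore.fmin (K + 1) (2 * K + 1 + p) ≤ G.edgeSet.ncard :=
    Nat.sInf_le ⟨G, (Pool.Agent.Ore.isCritical_iff G hK).2 hG, rfl⟩
  rw [Pool.Agent.Ore.pr_eq_two_mul] at hGp
  push_cast at hlow hGp
  have hup' : (Pool.Agent.Ore.fmin (K + 1) (2 * K + 1 + p) : ℤ) ≤ G.edgeSet.ncard := by
    exact_mod_cast hup
  linarith

/-- Gallai's value for `n = k + p` -/
theorem main_gallai {p K : ℕ} (hp : 2 ≤ p) (hpK : p ≤ K) :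
    2 * (Pool.Agent.Ore.fmin (K + 1) (K + 1 + p) : ℤ) =
      (K : ℤ) * (K + 1 + p) + p * (K + 1 - p) - 2 := by
  have hK : 1 ≤ K := by omega
  have hne : Nonempty (Fin (K + 1 + p)) := ⟨⟨0, by omega⟩⟩
  obtain ⟨a, rfl⟩ := Nat.exists_eq_add_of_le hpK
  obtain ⟨e, ⟨V, hV, G0, v, w, hcard, hpr, hcrit, -, -⟩, he⟩ :=
    Pool.Agent.Ore.good_family p a 0 hp
  have hc : Fintype.card V = p + a + 1 + p := by rw [hcard]; ring
  obtain ⟨G, hG, hG'⟩ := Pool.Agent.Ore.transport G0 hc hcrit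
  rw [hpr] at hG'
  have hmem : Pool.Agent.Ore.fmin (p + a + 1) (p + a + 1 + p) ∈
      {e : ℕ | ∃ G : SimpleGraph (Fin (p + a + 1 + p)),
        Pool.Agent.Ore.IsCritical (p + a + 1) G ∧ G.edgeSet.ncard = e} :=
    Nat.sInf_mem ⟨_, G, (Pool.Agent.Ore.isCritical_iff G hK).2 hG, rfl⟩
  obtain ⟨G1, hG1, hG1e⟩ := hmem
  have hcr := crOn_of_crit hK ((Pool.Agent.Ore.isCritical_iff G1 hK).1 hG1)
  have hga := (gallai univ (p + a) p hcr (by simp)).2.2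
  have hms := pr_add_ms G1 univ
  rw [← pr_eq_ore, Pool.Agent.Ore.pr_eq_two_mul, hG1e, card_univ, Fintype.card_fin] at hms
  have hup : Pool.Agent.Ore.fmin (p + a + 1) (p + a + 1 + p) ≤ G.edgeSet.ncard :=
    Nat.sInf_le ⟨G, (Pool.Agent.Ore.isCritical_iff G hK).2 hG, rfl⟩
  rw [Pool.Agent.Ore.pr_eq_two_mul] at hG'
  have h1 : (2 * (Pool.Agent.Ore.fmin (p + a + 1) (p + a + 1 + p) : ℤ)) ≤ e := by
    have : 2 * Pool.Agent.Ore.fmin (p + a + 1) (p + a + 1 + p) ≤ e := by omega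
    exact_mod_cast this
  have h2 : (2 * (Pool.Agent.Ore.fmin (p + a + 1) (p + a + 1 + p) : ℤ)) + ms G1 univ +
      (p + a + 1 + p) = (p + a + 1 + p) * (p + a + 1 + p) := by exact_mod_cast hms
  have h3 : (ms G1 univ : ℤ) ≤ 2 * (p : ℤ) ^ 2 + 2 := by exact_mod_cast hga
  push_cast at he h1 h2 ⊢
  nlinarith

/-- the statement of the hand-in -/
theorem final {p k : ℕ} (hp : 2 ≤ p) (hk : 10 ^ 7 * p ^ 2 ≤ k) :
    (∃ G : SimpleGraph (Fin (2 * k - 1 + p)), Pool.Agent.Ore.IsCritical k G) ∧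
      2 * (Pool.Agent.Ore.fmin k (2 * k - 1 + p) : ℤ) =
        ((k : ℤ) - 1) * (2 * k - 1 + p) + p * (k - p) + k - 5 ∧
      2 * (Pool.Agent.Ore.fmin k (2 * k - 1 + p) : ℤ) =
        2 * (Pool.Agent.Ore.fmin k (k + p) : ℤ) + ((k : ℤ) - 2) * (k + 1) := by
  have hp2 : 1 ≤ p ^ 2 := Nat.one_le_pow _ _ (by omega)
  obtain ⟨K, rfl⟩ : ∃ K, k = K + 1 := ⟨k - 1, by omega⟩
  have hpK : p ≤ K := by nlinarith
  have e1 : 2 * (K + 1) - 1 + p = 2 * K + 1 + p := by omega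
  rw [e1]
  have hne : Nonempty (Fin (2 * K + 1 + p)) := ⟨⟨0, by omega⟩⟩
  have h1 := main hp hk
  have h2 := main_gallai hp hpK
  obtain ⟨G, hG, -⟩ := upper hp hpK
  refine ⟨⟨G, (Pool.Agent.Ore.isCritical_iff G (by omega)).2 hG⟩, ?_, ?_⟩
  · rw [h1]; push_cast; ring
  · rw [h1, h2]; push_cast; ring

end Pool.Agent.O2
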