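import Pool.Agent.Lib_helper46.O2.L2

/-! The barrier lemma. -/

set_option autoImplicit false
set_option linter.unusedSectionVars false
set_option linter.unusedVariables false

open scoped Classical
open Finset

namespace Pool.Agent.O2

variable {V : Type}

/-- admissible pairs of the barrier lemma -/
structure G0_Adm (H : SimpleGraph V) (S A : Finset V) (D : Finset (Finset V)) : Prop where
  sub : A ⊆ S
  mem : ∀ F ∈ D, F.Nonempty ∧ F ⊆ S \ A
  odd : ∀ F ∈ D, Odd F.card
  dis : ∀ F ∈ D, ∀ F' ∈ D, F ≠ F' → Disjoint F F'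
  out : ∀ F ∈ D, ∀ a ∈ F, ∀ b ∈ S \ (A ∪ F), ¬ H.Adj a b

theorem G0_even {H : SimpleGraph V} {S : Finset V} (h : PM H S) : Even S.card := by
  obtain ⟨k, hk, -⟩ := PM.cb (G := ⊥) (fun a b _ h => h) h
  exact ⟨k, by omega⟩

/-- the members of a barrier are odd -/
theorem G0_bar_odd {H : SimpleGraph V} {S A : Finset V} {D : Finset (Finset V)}
    (h : Bar H S A D) : ∀ F ∈ D, Odd F.card := by
  intro F hF
  obtain ⟨y, hy⟩ := (h.mem F hF).1
  have h1 := G0_even (h.fc F hF y hy)
  rw [card_erase_of_mem hy] at h1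
  have h2 : 1 ≤ F.card := card_pos.2 ⟨y, hy⟩
  rw [← Nat.not_even_iff_odd]
  intro h3
  obtain ⟨a, ha⟩ := h1
  obtain ⟨b, hb⟩ := h3
  omega

/-- parity of a barrier -/
theorem G0_bar_card {H : SimpleGraph V} {S A : Finset V} {D : Finset (Finset V)}
    (h : Bar H S A D) (hS : Even S.card) : A.card + 2 ≤ D.card := by
  have h1 : S \ A = D.biUnion fun F => F := by
    ext v
    constructor
    · intro hv
      obtain ⟨F, hF, hvF⟩ := h.cov v hv
      exact mem_biUnion.2 ⟨F, hF, hvF⟩
    · intro hv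
      obtain ⟨F, hF, hvF⟩ := mem_biUnion.1 hv
      exact (h.mem F hF).2 hvF
  have h2 : (S \ A).card = ∑ F ∈ D, F.card := by
    rw [h1, card_biUnion (fun F hF F' hF' hne => h.dis F hF F' hF' hne)]
  have h3 : (∑ F ∈ D, F.card) % 2 = D.card % 2 := by
    rw [sum_nat_mod]
    rw [sum_congr rfl (fun F hF => Nat.odd_iff.1 (G0_bar_odd h F hF))]
    simp
  have h4 : (S \ A).card + A.card = S.card := card_sdiff_add_card_eq_card h.sub
  have h5 := h.lt
  obtain ⟨k, hk⟩ := hS
  omega

/-- an admissible pair which is maximal -/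
theorem G0_max (H : SimpleGraph V) (S : Finset V) :
    ∃ (A : Finset V) (D : Finset (Finset V)), G0_Adm H S A D ∧
      ∀ A' D', G0_Adm H S A' D' → D'.card + A.card ≤ D.card + A'.card ∧
        (D'.card + A.card = D.card + A'.card → A'.card ≤ A.card) := by
  let w : Finset V × Finset (Finset V) → ℕ :=
    fun p => (S.card + 1) * (S.card + p.2.card - p.1.card) + p.1.card
  have h0 : G0_Adm H S ∅ ∅ := ⟨empty_subset _, by simp, by simp, by simp, by simp⟩
  let X : Finset (Finset V × Finset (Finset V)) :=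
    (S.powerset ×ˢ S.powerset.powerset).filter fun p => G0_Adm H S p.1 p.2
  have hX : ∀ A D, G0_Adm H S A D → (A, D) ∈ X := by
    intro A D h
    refine mem_filter.2 ⟨mem_product.2 ⟨mem_powerset.2 h.sub, mem_powerset.2 fun F hF =>
      mem_powerset.2 ((h.mem F hF).2.trans sdiff_subset)⟩, h⟩
  obtain ⟨⟨A, D⟩, hp, hmax⟩ := exists_max_image X w ⟨_, hX _ _ h0⟩
  have hAD : G0_Adm H S A D := (mem_filter.1 hp).2
  refine ⟨A, D, hAD, fun A' D' h' => ?_⟩
  have h1 : (S.card + 1) * (S.card + D'.card - A'.card) + A'.card ≤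
      (S.card + 1) * (S.card + D.card - A.card) + A.card := hmax (A', D') (hX _ _ h')
  have h2 : A.card ≤ S.card := card_le_card hAD.sub
  have h3 : A'.card ≤ S.card := card_le_card h'.sub
  obtain ⟨u, hu⟩ : ∃ u, S.card + D.card - A.card = u := ⟨_, rfl⟩
  obtain ⟨u', hu'⟩ : ∃ u', S.card + D'.card - A'.card = u' := ⟨_, rfl⟩
  rw [hu, hu'] at h1
  have h4 : u' ≤ u := by
    by_contra hcon
    have h5 : (S.card + 1) * (u + 1) ≤ (S.card + 1) * u' := Nat.mul_le_mul_left _ (by omega)
    have h6 : (S.card + 1) * (u + 1) = (S.card + 1) * u + (S.card + 1) := by ring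
    omega
  refine ⟨by omega, fun h5 => ?_⟩
  have h6 : u' = u := by omega
  rw [h6] at h1
  omega

/-- the leftover of a maximal pair is empty -/
theorem G0_cov {H : SimpleGraph V} {S A : Finset V} {D : Finset (Finset V)}
    (h : G0_Adm H S A D) (hmax : ∀ A' D', G0_Adm H S A' D' →
      D'.card + A.card ≤ D.card + A'.card ∧
        (D'.card + A.card = D.card + A'.card → A'.card ≤ A.card)) :
    ∀ v ∈ S \ A, ∃ F ∈ D, v ∈ F := by
  by_contra hcon
  push Not at hcon
  obtain ⟨v, hv, hvD⟩ := hcon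
  let L : Finset V := (S \ A).filter fun u => ∀ F ∈ D, u ∉ F
  have hL : ∀ u, u ∈ L ↔ u ∈ S ∧ u ∉ A ∧ ∀ F ∈ D, u ∉ F := by
    intro u
    simp only [L, mem_filter, mem_sdiff]
    tauto
  have hvL : v ∈ L := (hL v).2 ⟨(mem_sdiff.1 hv).1, (mem_sdiff.1 hv).2, hvD⟩
  -- a subset of `L` can be added
  have key : ∀ (L' A' : Finset V), L' ⊆ L → L'.Nonempty → Odd L'.card → A ⊆ A' → A' ⊆ S →
      (∀ F ∈ D, Disjoint F A') → Disjoint L' A' → (∀ u ∈ L, u ∈ L' ∨ u ∈ A') →
      G0_Adm H S A' (insert L' D) ∧ (insert L' D).card = D.card + 1 := by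
    intro L' A' hL' hne hodd hAA' hA' hDA' hLA' hcov
    have hLD : ∀ F ∈ D, Disjoint L' F := by
      intro F hF
      rw [disjoint_left]
      intro u hu huF
      exact ((hL u).1 (hL' hu)).2.2 F hF huF
    refine ⟨⟨hA', ?_, ?_, ?_, ?_⟩, ?_⟩
    · intro F hF
      rcases mem_insert.1 hF with rfl | hF
      · refine ⟨hne, fun u hu => mem_sdiff.2 ⟨((hL u).1 (hL' hu)).1, disjoint_left.1 hLA' hu⟩⟩
      · refine ⟨(h.mem F hF).1, fun u hu => mem_sdiff.2
          ⟨(mem_sdiff.1 ((h.mem F hF).2 hu)).1, disjoint_left.1 (hDA' F hF) hu⟩⟩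
    · intro F hF
      rcases mem_insert.1 hF with rfl | hF
      · exact hodd
      · exact h.odd F hF
    · intro F hF F' hF' hne'
      rcases mem_insert.1 hF with e | hF1
      · rcases mem_insert.1 hF' with e' | hF1'
        · exact absurd (e.trans e'.symm) hne'
        · exact e ▸ hLD F' hF1'
      · rcases mem_insert.1 hF' with e' | hF1'
        · exact e' ▸ (hLD F hF1).symm
        · exact h.dis F hF1 F' hF1' hne'
    · intro F hF a ha b hb
      obtain ⟨hb1, hb2⟩ := mem_sdiff.1 hb
      have hb3 : b ∉ A' := fun h' => hb2 (mem_union_left _ h')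
      have hb4 : b ∉ F := fun h' => hb2 (mem_union_right _ h')
      rcases mem_insert.1 hF with rfl | hF
      · intro hab
        have hbL : b ∉ L := fun h' => (hcov b h').elim hb4 hb3
        have hex : ∃ F' ∈ D, b ∈ F' := by
          by_contra hno
          push Not at hno
          exact hbL ((hL b).2 ⟨hb1, fun h' => hb3 (hAA' h'), hno⟩)
        obtain ⟨F', hF', hbF'⟩ := hex
        have haL := (hL a).1 (hL' ha)
        refine h.out F' hF' b hbF' a (mem_sdiff.2 ⟨haL.1, fun h' => ?_⟩) hab.symm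
        rcases mem_union.1 h' with h' | h'
        · exact haL.2.1 h'
        · exact haL.2.2 F' hF' h'
      · refine h.out F hF a ha b (mem_sdiff.2 ⟨hb1, fun h' => ?_⟩)
        rcases mem_union.1 h' with h' | h'
        · exact hb3 (hAA' h')
        · exact hb4 h'
    · rw [card_insert_of_notMem]
      intro hLD'
      obtain ⟨u, hu⟩ := hne
      exact ((hL u).1 (hL' hu)).2.2 L' hLD' hu
  rcases Nat.even_or_odd L.card with he | ho
  · have hc : (L.erase v).card + 1 = L.card := card_erase_add_one hvL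
    have hodd : Odd (L.erase v).card := by
      rw [← Nat.not_even_iff_odd]
      intro h'
      obtain ⟨a, ha⟩ := h'
      obtain ⟨b, hb⟩ := he
      omega
    have hvA : v ∉ A := ((hL v).1 hvL).2.1
    obtain ⟨h1, h2⟩ := key (L.erase v) (insert v A) (erase_subset _ _)
      (card_pos.1 (by obtain ⟨a, ha⟩ := hodd; omega)) hodd (subset_insert _ _)
      (insert_subset ((hL v).1 hvL).1 h.sub)
      (by
        intro F hF
        rw [disjoint_insert_right]
        exact ⟨hvD F hF, disjoint_left.2 fun u hu => (mem_sdiff.1 ((h.mem F hF).2 hu)).2⟩)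
      (by
        rw [disjoint_insert_right]
        exact ⟨notMem_erase _ _, disjoint_left.2 fun u hu => ((hL u).1 (mem_of_mem_erase hu)).2.1⟩)
      (by
        intro u hu
        by_cases huv : u = v
        · exact Or.inr (mem_insert.2 (Or.inl huv))
        · exact Or.inl (mem_erase.2 ⟨huv, hu⟩))
    have h3 : (insert v A).card = A.card + 1 := card_insert_of_notMem hvA
    have h4 := hmax _ _ h1
    have h5 := h4.2 (by omega)
    omega
  · obtain ⟨h1, h2⟩ := key L A (fun u hu => hu) ⟨v, hvL⟩ ho (fun u hu => hu) h.sub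
      (by
        intro F hF
        exact disjoint_left.2 fun u hu => (mem_sdiff.1 ((h.mem F hF).2 hu)).2)
      (disjoint_left.2 fun u hu => ((hL u).1 hu).2.1) (fun u hu => Or.inl hu)
    have h4 := (hmax _ _ h1).1
    omega

/-- the members of a maximal pair are factor critical -/
theorem G0_fc {H : SimpleGraph V} {S A : Finset V} {D : Finset (Finset V)}
    (h : G0_Adm H S A D) (hmax : ∀ A' D', G0_Adm H S A' D' →
      D'.card + A.card ≤ D.card + A'.card ∧
        (D'.card + A.card = D.card + A'.card → A'.card ≤ A.card))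
    (F : Finset V) (hF : F ∈ D) (y : V) (hy : y ∈ F) (A₁ : Finset V) (D₁ : Finset (Finset V))
    (hb : Bar H (F.erase y) A₁ D₁) : False := by
  have hFS : ∀ u ∈ F, u ∈ S ∧ u ∉ A := fun u hu => mem_sdiff.1 ((h.mem F hF).2 hu)
  have hc : (F.erase y).card + 1 = F.card := card_erase_add_one hy
  have heven : Even (F.erase y).card := by
    obtain ⟨a, ha⟩ := h.odd F hF
    exact ⟨a, by omega⟩
  have h2 := G0_bar_card hb heven
  have hA₁ : ∀ u ∈ A₁, u ≠ y ∧ u ∈ F := fun u hu => mem_erase.1 (hb.sub hu)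
  have hD₁ : ∀ F₁ ∈ D₁, ∀ u ∈ F₁, u ≠ y ∧ u ∈ F ∧ u ∉ A₁ := by
    intro F₁ hF₁ u hu
    have h3 := mem_sdiff.1 ((hb.mem F₁ hF₁).2 hu)
    exact ⟨(mem_erase.1 h3.1).1, (mem_erase.1 h3.1).2, h3.2⟩
  have hdF : ∀ F' ∈ D.erase F, ∀ u ∈ F', u ∉ F := by
    intro F' hF' u hu huF
    exact disjoint_left.1 (h.dis F' (mem_of_mem_erase hF') F hF (ne_of_mem_erase hF')) hu huF
  have hadm : G0_Adm H S (insert y (A ∪ A₁)) (D.erase F ∪ D₁) := by
    refine ⟨?_, ?_, ?_, ?_, ?_⟩
    · intro u hu
      rcases mem_insert.1 hu with rfl | hu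
      · exact (hFS u hy).1
      · rcases mem_union.1 hu with hu | hu
        · exact h.sub hu
        · exact (hFS u (hA₁ u hu).2).1
    · intro F' hF'
      rcases mem_union.1 hF' with hF' | hF'
      · refine ⟨(h.mem F' (mem_of_mem_erase hF')).1, fun u hu => ?_⟩
        have h3 := mem_sdiff.1 ((h.mem F' (mem_of_mem_erase hF')).2 hu)
        refine mem_sdiff.2 ⟨h3.1, fun h4 => ?_⟩
        rcases mem_insert.1 h4 with rfl | h4
        · exact hdF F' hF' u hu hy
        · rcases mem_union.1 h4 with h4 | h4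
          · exact h3.2 h4
          · exact hdF F' hF' u hu (hA₁ u h4).2
      · refine ⟨(hb.mem F' hF').1, fun u hu => ?_⟩
        obtain ⟨h3, h4, h5⟩ := hD₁ F' hF' u hu
        refine mem_sdiff.2 ⟨(hFS u h4).1, fun h6 => ?_⟩
        rcases mem_insert.1 h6 with h6 | h6
        · exact h3 h6
        · rcases mem_union.1 h6 with h6 | h6
          · exact (hFS u h4).2 h6
          · exact h5 h6
    · intro F' hF'
      rcases mem_union.1 hF' with hF' | hF'
      · exact h.odd F' (mem_of_mem_erase hF')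
      · exact G0_bar_odd hb F' hF'
    · intro F' hF' F'' hF'' hne
      rcases mem_union.1 hF' with hF' | hF' <;> rcases mem_union.1 hF'' with hF'' | hF''
      · exact h.dis F' (mem_of_mem_erase hF') F'' (mem_of_mem_erase hF'') hne
      · exact disjoint_left.2 fun u hu hu' => hdF F' hF' u hu (hD₁ F'' hF'' u hu').2.1
      · exact disjoint_left.2 fun u hu hu' => hdF F'' hF'' u hu' (hD₁ F' hF' u hu).2.1
      · exact hb.dis F' hF' F'' hF'' hne
    · intro F' hF' a ha b hbb
      obtain ⟨hb1, hb2⟩ := mem_sdiff.1 hbb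
      have hb3 : b ≠ y := fun h' => hb2 (mem_union_left _ (mem_insert.2 (Or.inl h')))
      have hb4 : b ∉ A := fun h' =>
        hb2 (mem_union_left _ (mem_insert.2 (Or.inr (mem_union_left _ h'))))
      have hb5 : b ∉ A₁ := fun h' =>
        hb2 (mem_union_left _ (mem_insert.2 (Or.inr (mem_union_right _ h'))))
      have hb6 : b ∉ F' := fun h' => hb2 (mem_union_right _ h')
      rcases mem_union.1 hF' with hF' | hF'
      · refine h.out F' (mem_of_mem_erase hF') a ha b (mem_sdiff.2 ⟨hb1, fun h' => ?_⟩)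
        rcases mem_union.1 h' with h' | h'
        · exact hb4 h'
        · exact hb6 h'
      · by_cases hbF : b ∈ F
        · obtain ⟨F₂, hF₂, hbF₂⟩ := hb.cov b (mem_sdiff.2 ⟨mem_erase.2 ⟨hb3, hbF⟩, hb5⟩)
          exact hb.non F' hF' F₂ hF₂ (fun e => hb6 (e ▸ hbF₂)) a ha b hbF₂
        · refine h.out F hF a (hD₁ F' hF' a ha).2.1 b (mem_sdiff.2 ⟨hb1, fun h' => ?_⟩)
          rcases mem_union.1 h' with h' | h'
          · exact hb4 h'
          · exact hbF h'
  have hcA : (insert y (A ∪ A₁)).card = A.card + A₁.card + 1 := by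
    rw [card_insert_of_notMem, card_union_of_disjoint]
    · exact disjoint_left.2 fun u hu hu' => (hFS u (hA₁ u hu').2).2 hu
    · intro h'
      rcases mem_union.1 h' with h' | h'
      · exact (hFS y hy).2 h'
      · exact (hA₁ y h').1 rfl
  have hcD : (D.erase F ∪ D₁).card + 1 = D.card + D₁.card := by
    rw [card_union_of_disjoint]
    · have := card_erase_add_one hF
      omega
    · refine disjoint_left.2 fun F' hF' hF'' => ?_
      obtain ⟨u, hu⟩ := (hb.mem F' hF'').1
      exact hdF F' hF' u hu (hD₁ F' hF'' u hu).2.1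
  obtain ⟨h3, h4⟩ := hmax _ _ hadm
  have h5 := h4 (by omega)
  omega

/-- the case of equality -/
theorem G0_hall {H : SimpleGraph V} {S A : Finset V} {D : Finset (Finset V)}
    (h : G0_Adm H S A D) (hmax : ∀ A' D', G0_Adm H S A' D' →
      D'.card + A.card ≤ D.card + A'.card)
    (hcov : ∀ v ∈ S \ A, ∃ F ∈ D, v ∈ F) (hfc : ∀ F ∈ D, ∀ y ∈ F, PM H (F.erase y))
    (hc : D.card = A.card) : PM H S := by
  let t : {F // F ∈ D} → Finset V := fun F => A.filter fun a => ∃ y ∈ F.1, H.Adj a y
  have hall : ∀ s : Finset {F // F ∈ D}, s.card ≤ (s.biUnion t).card := by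
    intro s
    have hsub : s.biUnion t ⊆ A := by
      intro a ha
      obtain ⟨F, -, haF⟩ := mem_biUnion.1 ha
      exact (mem_filter.1 haF).1
    have hD₂ : ∀ F ∈ s.map (Function.Embedding.subtype _), ∃ hF : F ∈ D, (⟨F, hF⟩ : {F // F ∈ D}) ∈ s := by
      intro F hF
      obtain ⟨F', hF', rfl⟩ := mem_map.1 hF
      exact ⟨F'.2, hF'⟩
    have hadm : G0_Adm H S (s.biUnion t) (s.map (Function.Embedding.subtype _)) := by
      refine ⟨hsub.trans h.sub, ?_, ?_, ?_, ?_⟩
      · intro F hF
        obtain ⟨hFD, -⟩ := hD₂ F hF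
        exact ⟨(h.mem F hFD).1, (h.mem F hFD).2.trans (sdiff_subset_sdiff (fun u hu => hu) hsub)⟩
      · intro F hF
        obtain ⟨hFD, -⟩ := hD₂ F hF
        exact h.odd F hFD
      · intro F hF F' hF' hne
        obtain ⟨hFD, -⟩ := hD₂ F hF
        obtain ⟨hFD', -⟩ := hD₂ F' hF'
        exact h.dis F hFD F' hFD' hne
      · intro F hF a ha b hb hab
        obtain ⟨hFD, hFs⟩ := hD₂ F hF
        obtain ⟨hb1, hb2⟩ := mem_sdiff.1 hb
        by_cases hbA : b ∈ A
        · refine hb2 (mem_union_left _ (mem_biUnion.2 ⟨_, hFs, mem_filter.2 ⟨hbA, a, ha, hab.symm⟩⟩))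
        · refine h.out F hFD a ha b (mem_sdiff.2 ⟨hb1, fun h' => ?_⟩) hab
          rcases mem_union.1 h' with h' | h'
          · exact hbA h'
          · exact hb2 (mem_union_right _ h')
    have h1 := hmax _ _ hadm
    rw [card_map] at h1
    omega
  obtain ⟨f, hf, hft⟩ := (Finset.all_card_le_biUnion_card_iff_exists_injective t).1 hall
  have hfA : ∀ F, f F ∈ A := fun F => (mem_filter.1 (hft F)).1
  have hfy : ∀ F : {F // F ∈ D}, ∃ y ∈ F.1, H.Adj (f F) y := fun F => (mem_filter.1 (hft F)).2
  choose y hy hadj using hfy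
  let E : {F // F ∈ D} → Finset V := fun F => {f F, y F} ∪ F.1.erase (y F)
  have hE : ∀ F u, u ∈ E F → u = f F ∨ u ∈ F.1 := by
    intro F u hu
    rcases mem_union.1 hu with hu | hu
    · rcases mem_insert.1 hu with hu | hu
      · exact Or.inl hu
      · rw [mem_singleton] at hu
        exact Or.inr (hu ▸ hy F)
    · exact Or.inr (mem_of_mem_erase hu)
  have hFA : ∀ F : {F // F ∈ D}, ∀ u ∈ F.1, u ∉ A := fun F u hu =>
    (mem_sdiff.1 ((h.mem F.1 F.2).2 hu)).2
  have hPM : ∀ F ∈ (univ : Finset {F // F ∈ D}), PM H (E F) := by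
    intro F _
    refine PM.union ?_ (PM.pair (hadj F)) (hfc F.1 F.2 _ (hy F))
    rw [disjoint_left]
    intro u hu hu'
    rcases mem_insert.1 hu with hu | hu
    · exact hFA F u (mem_of_mem_erase hu') (hu ▸ hfA F)
    · rw [mem_singleton] at hu
      exact (mem_erase.1 hu').1 hu
  have hS : S = (univ : Finset {F // F ∈ D}).biUnion E := by
    ext v
    constructor
    · intro hv
      by_cases hvA : v ∈ A
      · have himg : (univ : Finset {F // F ∈ D}).image f = A := by
          apply eq_of_subset_of_card_le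
          · intro u hu
            obtain ⟨F, -, rfl⟩ := mem_image.1 hu
            exact hfA F
          · rw [card_image_of_injective _ hf, card_univ, Fintype.card_coe]
            omega
        rw [← himg] at hvA
        obtain ⟨F, -, rfl⟩ := mem_image.1 hvA
        exact mem_biUnion.2 ⟨F, mem_univ _, mem_union_left _ (mem_insert_self _ _)⟩
      · obtain ⟨F, hF, hvF⟩ := hcov v (mem_sdiff.2 ⟨hv, hvA⟩)
        refine mem_biUnion.2 ⟨⟨F, hF⟩, mem_univ _, ?_⟩
        by_cases hvy : v = y ⟨F, hF⟩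
        · exact mem_union_left _ (mem_insert.2 (Or.inr (mem_singleton.2 hvy)))
        · exact mem_union_right _ (mem_erase.2 ⟨hvy, hvF⟩)
    · intro hv
      obtain ⟨F, -, hvF⟩ := mem_biUnion.1 hv
      rcases hE F v hvF with h' | h'
      · exact h.sub (h' ▸ hfA F)
      · exact (mem_sdiff.1 ((h.mem F.1 F.2).2 h')).1
  rw [hS]
  refine PM.biUnion _ E ?_ hPM
  intro F _ F' _ hne
  rw [disjoint_left]
  intro u hu hu'
  rcases hE F u hu with h1 | h1 <;> rcases hE F' u hu' with h2 | h2
  · exact hne (hf (h1.symm.trans h2))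
  · exact hFA F' u h2 (h1 ▸ hfA F)
  · exact hFA F u h1 (h2 ▸ hfA F')
  · exact disjoint_left.1 (h.dis F.1 F.2 F'.1 F'.2 fun e => hne (Subtype.ext e)) h1 h2

/-- G0. A set without a perfect matching has a barrier.

PROOF (strong induction on `|S|`). Call `(A, D)` admissible if `A ⊆ S`, the members of `D` are
non-empty disjoint subsets of `S \ A` of odd size, and `F` in `D` has no `H`-edges to
`S \ (A ∪ F)`. `(∅, ∅)` is admissible. Choose `(A, D)` with `|D| - |A|` maximal (so `≥ 0`), and
then `|A|` maximal. The leftover `L = (S \ A) \ ⋃ D` has no edges to the members. If `|L|` is odd,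
add `L` to `D`. If `L ≠ ∅` is even, take `v ∈ L`: `(A + v, D + (L - v))` has the same difference
and larger `A`. So `L = ∅`. Members are factor critical: if `F - y` has no perfect matching, the
induction hypothesis gives a barrier `(A₁, D₁)` of `F - y`, its members are odd, so by parity
(`|F - y|` is even) `|D₁| ≥ |A₁| + 2`; then `(A + y + A₁, D - F + D₁)` is admissible, has at least
the same difference and larger `A`. If `|D| ≥ |A| + 1` we are done. Otherwise `|D| = |A|`. Match
the members into `A` along `H`-edges by Hall's theorem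
(`Finset.all_card_le_biUnion_card_iff_exists_injective`): if some `D₂ ⊆ D` has fewer than `|D₂|`
neighbours `N` in `A`, then `(N, D₂)` is admissible with positive difference. So every member `F`
has its own `a_F ∈ A` with an edge to some `y_F ∈ F`, all of `A` is used, and
`PM.union`, `PM.pair`, `PM.biUnion` give a perfect matching of `S`, contradiction. -/
theorem exists_bar (H : SimpleGraph V) (S : Finset V) (h : ¬ PM H S) :
    ∃ (A : Finset V) (D : Finset (Finset V)), Bar H S A D := by
  induction S using Finset.strongInduction with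
  | H S ih =>
    obtain ⟨A, D, hadm, hmax⟩ := G0_max H S
    have hcov := G0_cov hadm hmax
    have hfc : ∀ F ∈ D, ∀ y ∈ F, PM H (F.erase y) := by
      intro F hF y hy
      by_contra hno
      have hss : F.erase y ⊂ S := by
        refine ⟨fun u hu => (mem_sdiff.1 ((hadm.mem F hF).2 (mem_of_mem_erase hu))).1, fun h' => ?_⟩
        exact notMem_erase y F (h' (mem_sdiff.1 ((hadm.mem F hF).2 hy)).1)
      obtain ⟨A₁, D₁, hb⟩ := ih _ hss hno
      exact G0_fc hadm hmax F hF y hy A₁ D₁ hb
    have h0 : A.card ≤ D.card := by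
      have := (hmax ∅ ∅ ⟨empty_subset _, by simp, by simp, by simp, by simp⟩).1
      simpa using this
    refine ⟨A, D, ⟨hadm.sub, hadm.mem, hcov, hadm.dis, ?_, hfc, ?_⟩⟩
    · intro F hF F' hF' hne a ha b hb
      refine hadm.out F hF a ha b ?_
      have hb' := mem_sdiff.1 ((hadm.mem F' hF').2 hb)
      refine mem_sdiff.2 ⟨hb'.1, fun h' => ?_⟩
      rcases mem_union.1 h' with h' | h'
      · exact hb'.2 h'
      · exact disjoint_left.1 (hadm.dis F hF F' hF' hne) h' hb
    · by_contra hlt
      exact h (G0_hall hadm (fun A' D' h' => (hmax A' D' h').1) hcov hfc (by omega))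

end Pool.Agent.O2
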