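import Pool.Agent.Lib_helper46.O2.L2

/-! Colouring by pairs when the poor members can be matched. -/

set_option autoImplicit false
set_option linter.unusedSectionVars false
set_option linter.unusedVariables false

open scoped Classical
open Finset

namespace Pool.Agent.O2

variable {V : Type}

theorem G1a_card {G : SimpleGraph V} {S A : Finset V} {D : Finset (Finset V)}
    (hb : Bar Gᶜ S A D) {F : Finset V} (hF : F ∈ D) {y : V} (hy : y ∈ F) :
    F.card = 2 * ((F.card - 1) / 2) + 1 ∧ Cb G (F.erase y) ((F.card - 1) / 2) := by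
  have hGH : ∀ a b, Gᶜ.Adj a b → ¬ G.Adj a b := fun a b h => (G.compl_adj a b).1 h |>.2
  obtain ⟨k, hk, hk'⟩ := PM.cb hGH (hb.fc F hF y hy)
  rw [card_erase_of_mem hy] at hk
  have h1 : 0 < F.card := card_pos.2 ⟨y, hy⟩
  have h2 : (F.card - 1) / 2 = k := by omega
  rw [h2]
  exact ⟨by omega, hk'⟩

theorem G1a_sum {H : SimpleGraph V} {S A : Finset V} {D : Finset (Finset V)}
    (hb : Bar H S A D) : ∑ F ∈ D, F.card + A.card = S.card := by
  have h1 : D.biUnion (fun F => F) = S \ A := by
    ext v
    rw [mem_biUnion]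
    constructor
    · rintro ⟨F, hF, hv⟩
      exact (hb.mem F hF).2 hv
    · intro hv
      exact hb.cov v hv
  have h2 : (D.biUnion (fun F => F)).card = ∑ F ∈ D, F.card :=
    card_biUnion fun F hF F' hF' hne => hb.dis F hF F' hF' hne
  rw [← h2, h1]
  exact card_sdiff_add_card_eq_card hb.sub

theorem G1a_poor {G : SimpleGraph V} {F : Finset V} {b y : V} {k : ℕ}
    (hk : Cb G (F.erase y) k) (hby : ¬ G.Adj b y) : Cb G (insert b F) (k + 1) := by
  have h1 : Cb G ({b, y} : Finset V) 1 := by
    apply cb_one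
    intro u hu v hv huv
    rw [mem_insert, mem_singleton] at hu hv
    rcases hu with rfl | rfl <;> rcases hv with rfl | rfl
    · exact G.irrefl huv
    · exact hby huv
    · exact hby huv.symm
    · exact G.irrefl huv
  refine cb_sub ?_ (cb_union hk h1)
  intro v hv
  rw [mem_insert] at hv
  rw [mem_union, mem_erase, mem_insert, mem_singleton]
  by_cases h : v = y
  · exact Or.inr (Or.inr h)
  · rcases hv with hv | hv
    · exact Or.inr (Or.inl hv)
    · exact Or.inl ⟨h, hv⟩

/-- G1a. PROOF. For `F` in `D` and `y ∈ F`, `PM.cb` for `F - y` (with `Hᶜ`-pairs non-adjacent in `G`)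
gives `|F| = 2 a + 1`, `Cb G (F.erase y) a`, so `Cb G F (a + 1)`. If `F` is not poor it is
`a`-colourable. If `F` is poor, with `g F = b ∈ A` and `y ∈ F` not adjacent to `b`, then
`{b, y}` and the pairs of `F - y` colour `insert b F` with `a + 1` colours. The vertices of `A`
not of the form `g F` (`F` poor) get their own colours. Number of colours:
`|A| - #poor + Σ (|F| - 1) / 2 + #poor = |A| + (|S| - |A| - |D|) / 2 ≤ (|S| - 1) / 2 ≤ K`.
Use `cb_union`, `cb_biUnion`, `cb_card`. -/
theorem bar_match {G : SimpleGraph V} {S A : Finset V} {D : Finset (Finset V)}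
    (hb : Bar Gᶜ S A D) {K : ℕ} (hn : S.card ≤ 2 * K + 1) (g : Finset V → V)
    (hg : ∀ F ∈ D, Poor G F → g F ∈ A ∧ ∃ y ∈ F, ¬ G.Adj (g F) y)
    (hinj : ∀ F ∈ D, ∀ F' ∈ D, Poor G F → Poor G F' → g F = g F' → F = F') : Cb G S K := by
  have hcb : ∀ F ∈ D, Cb G (if Poor G F then insert (g F) F else F)
      ((F.card - 1) / 2 + if Poor G F then 1 else 0) := by
    intro F hF
    by_cases hP : Poor G F
    · rw [if_pos hP, if_pos hP]
      obtain ⟨_, y, hy, hby⟩ := hg F hF hP
      exact G1a_poor (G1a_card hb hF hy).2 hby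
    · rw [if_neg hP, if_neg hP]
      exact not_not.1 hP
  have h1 := cb_biUnion D (fun F => if Poor G F then insert (g F) F else F)
    (fun F => (F.card - 1) / 2 + if Poor G F then 1 else 0) hcb
  set P : Finset (Finset V) := D.filter fun F => Poor G F with hPdef
  have hA' : P.image g ⊆ A := by
    intro v hv
    obtain ⟨F, hF, rfl⟩ := mem_image.1 hv
    exact (hg F (mem_filter.1 hF).1 (mem_filter.1 hF).2).1
  have hcard : (P.image g).card = P.card := by
    apply card_image_of_injOn
    intro F hF F' hF' h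
    have hF1 := mem_filter.1 hF
    have hF2 := mem_filter.1 hF'
    exact hinj F hF1.1 F' hF2.1 hF1.2 hF2.2 h
  have h2 := cb_union h1 (cb_card G (A \ P.image g))
  have hsum : ∑ F ∈ D, ((F.card - 1) / 2 + if Poor G F then 1 else 0) =
      ∑ F ∈ D, (F.card - 1) / 2 + P.card := by
    rw [sum_add_distrib, hPdef, card_filter]
  have hsd : (A \ P.image g).card + P.card = A.card := by
    rw [← hcard]
    exact card_sdiff_add_card_eq_card hA'
  have hS := G1a_sum hb
  have hS2 : ∑ F ∈ D, F.card = ∑ F ∈ D, (2 * ((F.card - 1) / 2) + 1) := by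
    refine sum_congr rfl fun F hF => ?_
    obtain ⟨y, hy⟩ := (hb.mem F hF).1
    exact (G1a_card hb hF hy).1
  rw [sum_add_distrib, ← mul_sum, sum_const, smul_eq_mul, mul_one] at hS2
  have hlt := hb.lt
  refine cb_mono ?_ (cb_sub ?_ h2)
  · rw [hsum]
    omega
  · intro v hv
    rw [mem_union, mem_biUnion]
    by_cases hvA : v ∈ A
    · by_cases hvP : v ∈ P.image g
      · obtain ⟨F, hF, rfl⟩ := mem_image.1 hvP
        have hF' := mem_filter.1 hF
        refine Or.inl ⟨F, hF'.1, ?_⟩
        rw [if_pos hF'.2]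
        exact mem_insert_self _ _
      · exact Or.inr (mem_sdiff.2 ⟨hvA, hvP⟩)
    · obtain ⟨F, hF, hvF⟩ := hb.cov v (mem_sdiff.2 ⟨hv, hvA⟩)
      refine Or.inl ⟨F, hF, ?_⟩
      split_ifs
      · exact mem_insert_of_mem hvF
      · exact hvF

end Pool.Agent.O2
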