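import Pool.Agent.Lib_helper46.O2.L3

/-! Recolouring the poor members. -/

set_option autoImplicit false
set_option linter.unusedSectionVars false
set_option linter.unusedVariables false

open scoped Classical
open Finset

namespace Pool.Agent.O2

variable {V : Type}

/-- G1b. PROOF. Let `W = A₁.biUnion g` and `R = (S \ A₁) \ W`. Two different members of `D` are
completely joined in `G` (disjoint, no `Gᶜ`-edges), and every `g a` is completely joined to `R`
(`R` consists of vertices of `A \ A₁`, see `hN`, and of vertices of other members). So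
`cb_join_family` for `S \ A₁ = R ∪ W` gives `k₀` and `k a` with `k₀ + Σ k a ≤ K`; `g a` is
poor, so `k a ≥ (|g a| + 1) / 2` (`|g a|` is odd by `PM.cb`). Finally `insert a (g a)` is
colourable with `(|g a| + 1) / 2` colours: the pair `{a, y}` and the pairs of `g a - y`; so
`S = R ∪ A₁.biUnion (fun a => insert a (g a))` is `K`-colourable. -/
theorem bar_recolor {G : SimpleGraph V} {S A : Finset V} {D : Finset (Finset V)}
    (hb : Bar Gᶜ S A D) {K : ℕ} {A₁ : Finset V} (hA : A₁ ⊆ A) (g : V → Finset V)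
    (hg : ∀ a ∈ A₁, g a ∈ D ∧ Poor G (g a) ∧ ∃ y ∈ g a, ¬ G.Adj a y)
    (hinj : ∀ a ∈ A₁, ∀ a' ∈ A₁, g a = g a' → a = a')
    (hN : ∀ a ∈ A₁, ∀ b ∈ A \ A₁, ∀ y ∈ g a, G.Adj b y)
    (hc : Cb G (S \ A₁) K) : Cb G S K := by
  have hjoin : ∀ F ∈ D, ∀ F' ∈ D, F ≠ F' → ∀ a ∈ F, ∀ b ∈ F', G.Adj a b := by
    intro F hF F' hF' hne a ha b hbb
    have h2 := hb.dis F hF F' hF' hne
    have h3 := hb.non F hF F' hF' hne a ha b hbb
    have h4 : a ≠ b := fun e => disjoint_left.1 h2 ha (by rw [e]; exact hbb)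
    by_contra h5
    exact h3 ((SimpleGraph.compl_adj _ _ _).2 ⟨h4, h5⟩)
  have hsubA : ∀ a ∈ A₁, g a ⊆ S \ A := fun a ha => (hb.mem _ (hg a ha).1).2
  set W := A₁.biUnion g with hW
  set R := (S \ A₁) \ W with hR
  have hWsub : W ⊆ S \ A₁ := by
    intro v hv
    obtain ⟨a, ha, hva⟩ := mem_biUnion.1 hv
    have h1 := mem_sdiff.1 (hsubA a ha hva)
    exact mem_sdiff.2 ⟨h1.1, fun h2 => h1.2 (hA h2)⟩
  have hRW : R ∪ W = S \ A₁ := by rw [hR]; exact sdiff_union_of_subset hWsub
  rw [← hRW, hW] at hc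
  obtain ⟨k₀, k, hk0, hk, hsum⟩ := cb_join_family A₁ g R K
    (fun i hi j hj hij a ha b hb' => hjoin _ (hg i hi).1 _ (hg j hj).1
      (fun e => hij (hinj i hi j hj e)) a ha b hb')
    (by
      intro i hi a ha b hb'
      obtain ⟨h1, h2⟩ := mem_sdiff.1 hb'
      obtain ⟨h3, h4⟩ := mem_sdiff.1 h1
      by_cases h5 : b ∈ A
      · exact (hN i hi b (mem_sdiff.2 ⟨h5, h4⟩) a ha).symm
      · obtain ⟨F, hF, hbF⟩ := hb.cov b (mem_sdiff.2 ⟨h3, h5⟩)
        refine hjoin _ (hg i hi).1 F hF (fun e => h2 ?_) a ha b hbF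
        rw [hW]
        exact mem_biUnion.2 ⟨i, hi, by rw [e]; exact hbF⟩) hc
  have hins : ∀ a ∈ A₁, Cb G (insert a (g a)) (k a) := by
    intro a ha
    obtain ⟨h1, h2, y, hy, hay⟩ := hg a ha
    obtain ⟨m, hm, hcb⟩ := (hb.fc _ h1 y hy).cb (G := G)
      (fun u v huv => ((SimpleGraph.compl_adj _ _ _).1 huv).2)
    have hcard : (g a).card = 2 * m + 1 := by
      have h3 := card_erase_of_mem hy
      have h4 : 0 < (g a).card := card_pos.2 ⟨y, hy⟩
      omega
    have hkm : m + 1 ≤ k a := by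
      by_contra h3
      apply h2
      apply cb_mono _ (hk a ha)
      rw [hcard]
      omega
    have hone : Cb G ({a, y} : Finset V) 1 := by
      apply cb_one
      intro u hu v hv huv
      rcases mem_insert.1 hu with h | h <;> rcases mem_insert.1 hv with h' | h'
      · rw [h, h'] at huv; exact G.irrefl huv
      · rw [mem_singleton] at h'; rw [h, h'] at huv; exact hay huv
      · rw [mem_singleton] at h; rw [h, h'] at huv; exact hay huv.symm
      · rw [mem_singleton] at h h'; rw [h, h'] at huv; exact G.irrefl huv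
    have h5 := cb_union hcb hone
    refine cb_mono hkm (cb_sub ?_ h5)
    intro v hv
    rcases mem_insert.1 hv with h | h
    · rw [h]; exact mem_union_right _ (mem_insert_self _ _)
    · by_cases h6 : v = y
      · rw [h6]; exact mem_union_right _ (mem_insert_of_mem (mem_singleton_self _))
      · exact mem_union_left _ (mem_erase.2 ⟨h6, h⟩)
  have hfin := cb_union hk0 (cb_biUnion A₁ (fun a => insert a (g a)) k hins)
  refine cb_mono hsum (cb_sub ?_ hfin)
  intro v hv
  by_cases h1 : v ∈ A₁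
  · exact mem_union_right _ (mem_biUnion.2 ⟨v, h1, mem_insert_self _ _⟩)
  · by_cases h2 : v ∈ W
    · obtain ⟨a, ha, hva⟩ := mem_biUnion.1 h2
      exact mem_union_right _ (mem_biUnion.2 ⟨a, ha, mem_insert_of_mem hva⟩)
    · exact mem_union_left _ (mem_sdiff.2 ⟨mem_sdiff.2 ⟨hv, h1⟩, h2⟩)

end Pool.Agent.O2
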