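import Pool.Agent.Lib_helper46.O2.G0
import Pool.Agent.Lib_helper46.O2.G1a
import Pool.Agent.Lib_helper46.O2.G1b

/-! Critical graphs with connected complement and few vertices. -/

set_option autoImplicit false
set_option linter.unusedSectionVars false
set_option linter.unusedVariables false

open scoped Classical
open Finset

namespace Pool.Agent.O2

variable {V : Type}

/-- a tight set of the barrier -/
theorem G1_tight {G : SimpleGraph V} {S A : Finset V} {D : Finset (Finset V)}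
    (hb : Bar Gᶜ S A D) {K : ℕ} (hK : ¬ Cb G S K) (hn : S.card ≤ 2 * K + 1) :
    ∃ A₁ ⊆ A, A₁.card + 1 ≤ (D.filter fun F => Poor G F ∧ ∀ a ∈ A, (∃ y ∈ F, ¬ G.Adj a y) →
        a ∈ A₁).card ∧
      ∃ g : V → Finset V, (∀ a ∈ A₁, g a ∈ (D.filter fun F => Poor G F ∧ ∀ a ∈ A,
        (∃ y ∈ F, ¬ G.Adj a y) → a ∈ A₁) ∧ ∃ y ∈ g a, ¬ G.Adj a y) ∧
      ∀ a ∈ A₁, ∀ a' ∈ A₁, g a = g a' → a = a' := by
  obtain ⟨E, hE⟩ : ∃ E : Finset V → Finset (Finset V), ∀ A' F, F ∈ E A' ↔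
      (F ∈ D ∧ Poor G F ∧ ∀ a ∈ A, (∃ y ∈ F, ¬ G.Adj a y) → a ∈ A') :=
    ⟨fun A' => D.filter fun F => Poor G F ∧ ∀ a ∈ A, (∃ y ∈ F, ¬ G.Adj a y) → a ∈ A',
      fun A' F => mem_filter⟩
  have hEe : ∀ A', (D.filter fun F => Poor G F ∧ ∀ a ∈ A, (∃ y ∈ F, ¬ G.Adj a y) →
      a ∈ A') = E A' := fun A' => by
    ext F
    rw [hE, mem_filter]
  -- a bad set
  have hbad : ∃ A' ⊆ A, A'.card + 1 ≤ (E A').card := by
    by_contra hcon
    push Not at hcon
    apply hK
    obtain ⟨t, ht⟩ : ∃ t : {F // F ∈ D.filter fun F => Poor G F} → Finset V,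
        ∀ F a, a ∈ t F ↔ (a ∈ A ∧ ∃ y ∈ F.1, ¬ G.Adj a y) :=
      ⟨fun F => A.filter fun a => ∃ y ∈ F.1, ¬ G.Adj a y, fun F a => mem_filter⟩
    have hall : ∀ Q : Finset {F // F ∈ D.filter fun F => Poor G F}, Q.card ≤ (Q.biUnion t).card := by
      intro Q
      have h1 : Q.biUnion t ⊆ A := by
        intro a ha
        obtain ⟨F, -, hF⟩ := mem_biUnion.1 ha
        exact ((ht F a).1 hF).1
      have h2 := hcon _ h1
      have h3 : Q.image Subtype.val ⊆ E (Q.biUnion t) := by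
        intro F hF
        obtain ⟨F', hF', rfl⟩ := mem_image.1 hF
        obtain ⟨h4, h5⟩ := mem_filter.1 F'.2
        exact (hE _ _).2 ⟨h4, h5, fun a ha hy => mem_biUnion.2 ⟨F', hF', (ht F' a).2 ⟨ha, hy⟩⟩⟩
      have h4 := card_le_card h3
      rw [card_image_of_injective _ Subtype.val_injective] at h4
      omega
    obtain ⟨f, hf, hf'⟩ := (all_card_le_biUnion_card_iff_exists_injective t).1 hall
    obtain ⟨v0, hv0⟩ : S.Nonempty := by
      rw [nonempty_iff_ne_empty]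
      rintro rfl
      exact hK (cb_mono (Nat.zero_le _) (cb_zero.2 rfl))
    have hgF : ∀ F (hF : F ∈ D.filter fun F => Poor G F),
        (if hF : F ∈ D.filter fun F => Poor G F then f ⟨F, hF⟩ else v0) = f ⟨F, hF⟩ :=
      fun F hF => dif_pos hF
    refine bar_match hb hn
      (fun F => if hF : F ∈ D.filter fun F => Poor G F then f ⟨F, hF⟩ else v0) ?_ ?_
    · intro F hF hp
      have hF' : F ∈ D.filter fun F => Poor G F := mem_filter.2 ⟨hF, hp⟩
      simp only [hgF F hF']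
      exact (ht _ _).1 (hf' ⟨F, hF'⟩)
    · intro F hF F' hF' hp hp' he
      have h1 : F ∈ D.filter fun F => Poor G F := mem_filter.2 ⟨hF, hp⟩
      have h2 : F' ∈ D.filter fun F => Poor G F := mem_filter.2 ⟨hF', hp'⟩
      simp only [hgF F h1, hgF F' h2] at he
      exact congrArg Subtype.val (hf he)
  -- a minimal one
  obtain ⟨A₁, hA₁, hmin⟩ := exists_min_image
    (A.powerset.filter fun A' => A'.card + 1 ≤ (E A').card) card (by
      obtain ⟨A', h1, h2⟩ := hbad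
      exact ⟨A', mem_filter.2 ⟨mem_powerset.2 h1, h2⟩⟩)
  obtain ⟨h1, h2⟩ := mem_filter.1 hA₁
  rw [mem_powerset] at h1
  refine ⟨A₁, h1, by rw [hEe]; exact h2, ?_⟩
  obtain ⟨u, hu⟩ : ∃ u : {a // a ∈ A₁} → Finset (Finset V),
      ∀ a F, F ∈ u a ↔ (F ∈ E A₁ ∧ ∃ y ∈ F, ¬ G.Adj a.1 y) :=
    ⟨fun a => (E A₁).filter fun F => ∃ y ∈ F, ¬ G.Adj a.1 y, fun a F => mem_filter⟩
  have hall : ∀ Q : Finset {a // a ∈ A₁}, Q.card ≤ (Q.biUnion u).card := by
    intro Q
    by_contra hcon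
    push Not at hcon
    have hQ : (Q.image Subtype.val).card = Q.card :=
      card_image_of_injective _ Subtype.val_injective
    have hQA : Q.image Subtype.val ⊆ A₁ := by
      intro a ha
      obtain ⟨a', -, rfl⟩ := mem_image.1 ha
      exact a'.2
    have h3 := card_sdiff_add_card_eq_card hQA
    have h4 : E A₁ \ Q.biUnion u ⊆ E (A₁ \ Q.image Subtype.val) := by
      intro F hF
      obtain ⟨h5, h6⟩ := mem_sdiff.1 hF
      obtain ⟨h7, h8, h9⟩ := (hE _ _).1 h5
      refine (hE _ _).2 ⟨h7, h8, fun a ha hy => mem_sdiff.2 ⟨h9 a ha hy, fun h10 => h6 ?_⟩⟩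
      obtain ⟨a', ha', rfl⟩ := mem_image.1 h10
      exact mem_biUnion.2 ⟨a', ha', (hu _ _).2 ⟨h5, hy⟩⟩
    have h5 := card_le_card h4
    have h6 := le_card_sdiff (Q.biUnion u) (E A₁)
    have h7 := hmin (A₁ \ Q.image Subtype.val) (mem_filter.2
      ⟨mem_powerset.2 (sdiff_subset.trans h1), by omega⟩)
    omega
  obtain ⟨f, hf, hf'⟩ := (all_card_le_biUnion_card_iff_exists_injective u).1 hall
  have hga : ∀ a (ha : a ∈ A₁), (if ha : a ∈ A₁ then f ⟨a, ha⟩ else ∅) = f ⟨a, ha⟩ :=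
    fun a ha => dif_pos ha
  refine ⟨fun a => if ha : a ∈ A₁ then f ⟨a, ha⟩ else ∅, ?_, ?_⟩
  · intro a ha
    simp only [hga a ha]
    rw [hEe]
    exact (hu _ _).1 (hf' ⟨a, ha⟩)
  · intro a ha a' ha' he
    simp only [hga a ha, hga a' ha'] at he
    exact congrArg Subtype.val (hf he)

/-- G1. PROOF. `¬ PM Gᶜ S`: else `PM.cb` gives `|S| = 2 k ≤ 2 K + 1` and `Cb G S k`. Take a
barrier `(A, D)` (`exists_bar`). For `F ∈ D` let `t F = A.filter (∃ y ∈ F, ¬ G.Adj a y)`. If Hall's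
condition holds for the poor members and `t`, `bar_match` gives a contradiction. So some set
`A' ⊆ A` (namely the union of `t F` over a bad set of poor members) satisfies
(*) at least `|A'| + 1` poor members have `t F ⊆ A'`. Take `A₁` of least cardinality with (*), `D₁`
the poor `F` with `t F ⊆ A₁`. Hall's condition holds for `A₁` and `u a = D₁.filter (a ∈ t F)`: if
`A₂ ⊆ A₁` has `|⋃ u a| < |A₂|` then `A₁ \ A₂` satisfies (*) and is smaller. So there is an
injective `g` on `A₁` with `g a ∈ D₁`, `a ∈ t (g a)`. If `A₁ ≠ ∅` then `S \ A₁` is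
`K`-colourable (`CrOn.sub`) and `bar_recolor` gives a contradiction. If `A₁ = ∅`: some poor `F` has
`t F = ∅`, so `F` is joined in `G` to all of `S \ F`; as `S` is not `Joined`, `F = S`. Then all
`S - y` have perfect matchings, `|S| = 2 k + 1` and `Cb G S (k + 1)`, so `k = K`. -/
theorem gallai_conn {G : SimpleGraph V} {S : Finset V} {K : ℕ} (h : CrOn G S K)
    (hj : ¬ Joined G S) (hn : S.card ≤ 2 * K + 1) :
    S.card = 2 * K + 1 ∧ ∀ y ∈ S, PM Gᶜ (S.erase y) := by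
  have hGH : ∀ a b, Gᶜ.Adj a b → ¬ G.Adj a b := fun a b hab => by
    rw [SimpleGraph.compl_adj] at hab; exact hab.2
  have hpm : ¬ PM Gᶜ S := by
    intro h1
    obtain ⟨k, hk, hk'⟩ := h1.cb hGH
    exact h.1 (cb_mono (by omega) hk')
  obtain ⟨A, D, hb⟩ := exists_bar Gᶜ S hpm
  obtain ⟨A₁, hA, hD, g, hg, hinj⟩ := G1_tight hb h.1 hn
  by_cases h0 : A₁ = ∅
  · subst h0
    have h1 : 0 < (D.filter fun F => Poor G F ∧ ∀ a ∈ A, (∃ y ∈ F, ¬ G.Adj a y) →
        a ∈ (∅ : Finset V)).card := by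
      rw [card_empty] at hD
      exact hD
    obtain ⟨F, hF⟩ := card_pos.1 h1
    obtain ⟨hFD, -, hF2⟩ := mem_filter.1 hF
    have hFs := hb.mem F hFD
    have hFS : F ⊆ S := hFs.2.trans sdiff_subset
    have hadj : ∀ a ∈ F, ∀ b ∈ S \ F, G.Adj a b := by
      intro a ha b hb'
      obtain ⟨hbS, hbF⟩ := mem_sdiff.1 hb'
      by_cases hbA : b ∈ A
      · by_contra hcon
        exact absurd (hF2 b hbA ⟨a, ha, fun e => hcon e.symm⟩) (notMem_empty _)
      · obtain ⟨F', hF', hbF'⟩ := hb.cov b (mem_sdiff.2 ⟨hbS, hbA⟩)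
        have hne : F ≠ F' := fun e => hbF (by rw [e]; exact hbF')
        have h2 := hb.non F hFD F' hF' hne a ha b hbF'
        rw [SimpleGraph.compl_adj] at h2
        push Not at h2
        exact h2 (fun e => hbF (by rw [← e]; exact ha))
    have hFe : F = S := by
      by_contra hne
      apply hj
      refine ⟨F, S \ F, hFs.1, ?_, disjoint_sdiff, union_sdiff_of_subset hFS, hadj⟩
      rw [sdiff_nonempty]
      exact fun h3 => hne (Subset.antisymm hFS h3)
    subst hFe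
    have hall : ∀ y ∈ F, PM Gᶜ (F.erase y) := hb.fc F hFD
    obtain ⟨y, hy⟩ := hFs.1
    obtain ⟨k, hk, hk'⟩ := (hall y hy).cb hGH
    have h3 := cb_insert y hk'
    rw [insert_erase hy] at h3
    rw [card_erase_of_mem hy] at hk
    have h4 : 0 < F.card := card_pos.2 ⟨y, hy⟩
    have h5 : K < k + 1 := by
      by_contra h6
      exact h.1 (cb_mono (by omega) h3)
    exact ⟨by omega, hall⟩
  · exfalso
    apply h.1
    refine bar_recolor hb hA g ?_ hinj ?_ ?_
    · intro a ha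
      obtain ⟨h1, h2⟩ := hg a ha
      obtain ⟨h3, h4, -⟩ := mem_filter.1 h1
      exact ⟨h3, h4, h2⟩
    · intro a ha b hb' y hy
      obtain ⟨h1, -⟩ := hg a ha
      obtain ⟨-, -, h4⟩ := mem_filter.1 h1
      obtain ⟨h5, h6⟩ := mem_sdiff.1 hb'
      by_contra h7
      exact h6 (h4 b h5 ⟨y, hy, h7⟩)
    · refine h.sub sdiff_subset ?_
      intro h1
      obtain ⟨a, ha⟩ := nonempty_iff_ne_empty.2 h0
      have h2 : a ∈ S := hb.sub (hA ha)
      rw [← h1] at h2
      exact (mem_sdiff.1 h2).2 ha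

end Pool.Agent.O2
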