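import Pool.Agent.Lib_helper46.O2.L2

/-! Dirac case: the configuration. -/

set_option autoImplicit false
set_option linter.unusedSectionVars false
set_option linter.unusedVariables false

open scoped Classical
open Finset

namespace Pool.Agent.O2

variable {V : Type}

/-- G2a. PROOF. Let `f` be the involution of `PM Gᶜ (S.erase x)`, `N = S.filter (G.Adj x)`,
`|N| = K`. For `v ∈ S.erase x`: `v ∈ N` or `f v ∈ N`; otherwise `{x, v, f v}` is independent, and
`S \ {x, v, f v}` has a perfect matching (`f` again) on `2 K - 2` vertices, so it has a colouring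
with `K - 1` colours (`PM.cb`) and `S` one with `K`, contradiction. Hence
`S.erase x = N ∪ N.image f`, and as `2 K = |N| + |N|` these are disjoint. Take an enumeration
`c : Fin K → V` of `N` and `c' i = f (c i)`. -/
theorem exists_conf {G : SimpleGraph V} {S : Finset V} {K : ℕ} (h : CrOn G S K)
    (hn : S.card = 2 * K + 1) {x : V} (hx : x ∈ S) (hd : dg G S x = K)
    (hpm : PM Gᶜ (S.erase x)) : ∃ c c' : Fin K → V, Conf G S K x c c' := by
  obtain ⟨f, hf⟩ := hpm
  obtain ⟨N, hN⟩ : ∃ N, N = S.filter fun y => G.Adj x y := ⟨_, rfl⟩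
  have hNc : N.card = K := by rw [hN]; exact hd
  have hNm : ∀ v, v ∈ N ↔ v ∈ S ∧ G.Adj x v := fun v => by rw [hN, mem_filter]
  have hNS : N ⊆ S.erase x := by
    intro v hv
    rw [hN] at hv
    obtain ⟨h1, h2⟩ := mem_filter.1 hv
    exact mem_erase.2 ⟨h2.ne', h1⟩
  -- every pair meets the neighbourhood of `x`
  have key : ∀ v ∈ S.erase x, v ∈ N ∨ f v ∈ N := by
    intro v hv
    by_contra hcon
    push Not at hcon
    obtain ⟨h1, h2⟩ := hcon
    obtain ⟨h3, h4, h5⟩ := hf v hv
    have hv' := mem_erase.1 hv
    have h3' := mem_erase.1 h3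
    have a1 : ¬ G.Adj x v := fun h => h1 (by rw [hN]; exact mem_filter.2 ⟨hv'.2, h⟩)
    have a2 : ¬ G.Adj x (f v) := fun h => h2 (by rw [hN]; exact mem_filter.2 ⟨h3'.2, h⟩)
    have a3 : ¬ G.Adj v (f v) := ((SimpleGraph.compl_adj G v (f v)).1 h5).2
    have a4 : v ≠ f v := h5.ne
    obtain ⟨T, hT⟩ : ∃ T, T = (S.erase x) \ {v, f v} := ⟨_, rfl⟩
    have hPM : PM Gᶜ T := by
      refine ⟨f, fun u hu => ?_⟩
      rw [hT] at hu
      have hu' := mem_sdiff.1 hu
      obtain ⟨b1, b2, b3⟩ := hf u hu'.1
      refine ⟨?_, b2, b3⟩
      rw [hT]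
      refine mem_sdiff.2 ⟨b1, fun b4 => hu'.2 ?_⟩
      rcases mem_insert.1 b4 with b5 | b5
      · rw [mem_insert, mem_singleton]
        right
        rw [← b5, b2]
      · rw [mem_singleton] at b5
        rw [mem_insert]
        left
        rw [← b2, b5, h4]
    obtain ⟨k, hk, hk'⟩ := PM.cb (G := G) (fun a b hab => ((SimpleGraph.compl_adj G a b).1 hab).2) hPM
    have hsub : ({v, f v} : Finset V) ⊆ S.erase x := by
      intro u hu
      rcases mem_insert.1 hu with rfl | hu
      · exact hv
      · rw [mem_singleton] at hu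
        rw [hu]
        exact h3
    have hTc : T.card + 2 = 2 * K := by
      have e1 := card_sdiff_add_card_eq_card hsub
      rw [← hT, card_pair a4, card_erase_of_mem hx, hn] at e1
      omega
    have hone : Cb G {x, v, f v} 1 := by
      apply cb_one
      intro a ha b hb hab
      simp only [mem_insert, mem_singleton] at ha hb
      rcases ha with rfl | rfl | rfl <;> rcases hb with rfl | rfl | rfl
      · exact G.irrefl hab
      · exact a1 hab
      · exact a2 hab
      · exact a1 hab.symm
      · exact G.irrefl hab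
      · exact a3 hab
      · exact a2 hab.symm
      · exact a3 hab.symm
      · exact G.irrefl hab
    have hun := cb_union hk' hone
    apply h.1
    refine cb_mono (k := k + 1) (by omega) (cb_sub ?_ hun)
    intro u hu
    rw [hT]
    simp only [mem_union, mem_sdiff, mem_erase, mem_insert, mem_singleton]
    by_cases c1 : u = x
    · right; left; exact c1
    · by_cases c2 : u = v
      · right; right; left; exact c2
      · by_cases c3 : u = f v
        · right; right; right; exact c3
        · left
          exact ⟨⟨c1, hu⟩, fun c4 => c4.elim c2 c3⟩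
  -- the partners are new
  have hcov : S.erase x ⊆ N ∪ N.image f := by
    intro v hv
    rcases key v hv with h1 | h1
    · exact mem_union_left _ h1
    · exact mem_union_right _ (mem_image.2 ⟨f v, h1, (hf v hv).2.1⟩)
  have hdis : Disjoint N (N.image f) := by
    have e1 := card_le_card hcov
    rw [card_erase_of_mem hx, hn] at e1
    have e2 := card_union_add_card_inter N (N.image f)
    have e3 : (N.image f).card ≤ N.card := card_image_le
    rw [disjoint_iff_inter_eq_empty, ← card_eq_zero]
    omega
  obtain ⟨e⟩ : Nonempty (N ≃ Fin K) := ⟨N.equivFinOfCardEq hNc⟩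
  have hcN : ∀ i, ((e.symm i : N) : V) ∈ N := fun i => (e.symm i).2
  have hcE : ∀ i, ((e.symm i : N) : V) ∈ S.erase x := fun i => hNS (hcN i)
  refine ⟨fun i => ((e.symm i : N) : V), fun i => f ((e.symm i : N) : V), ?_⟩
  exact
    { crit := h
      hx := hx
      mc := fun i => (mem_erase.1 (hcE i)).2
      mc' := fun i => (mem_erase.1 (hf _ (hcE i)).1).2
      ic := fun i j hij => e.symm.injective (Subtype.ext hij)
      ic' := fun i j hij => by
        have h1 := (hf _ (hcE i)).2.1
        have h2 := (hf _ (hcE j)).2.1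
        have h3 : f (f ((e.symm i : N) : V)) = f (f ((e.symm j : N) : V)) := congrArg f hij
        rw [h1, h2] at h3
        exact e.symm.injective (Subtype.ext h3)
      ne := fun i j hij => by
        apply (disjoint_left.1 hdis) (hcN i)
        rw [hij]
        exact mem_image_of_mem f (hcN j)
      cx := fun i => (mem_erase.1 (hcE i)).1
      cx' := fun i => (mem_erase.1 (hf _ (hcE i)).1).1
      cov := fun v hv => by
        by_cases h1 : v = x
        · exact Or.inl h1
        · right
          rcases mem_union.1 (hcov (mem_erase.2 ⟨h1, hv⟩)) with h2 | h2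
          · left
            refine ⟨e ⟨v, h2⟩, ?_⟩
            rw [Equiv.symm_apply_apply]
          · right
            obtain ⟨u, hu, huv⟩ := mem_image.1 h2
            refine ⟨e ⟨u, hu⟩, ?_⟩
            rw [Equiv.symm_apply_apply]
            exact huv.symm
      non := fun i => ((SimpleGraph.compl_adj G _ _).1 (hf _ (hcE i)).2.2).2
      adj := fun i => ((hNm _).1 (hcN i)).2
      adj' := fun i h1 => by
        have h2 : f ((e.symm i : N) : V) ∈ N :=
          (hNm _).2 ⟨(mem_erase.1 (hf _ (hcE i)).1).2, h1⟩
        exact (disjoint_left.1 hdis) h2 (mem_image_of_mem f (hcN i)) }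

end Pool.Agent.O2
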