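import Pool.Agent.Lib_helper46.O2.L2

/-! Dirac case: red pairs. -/

set_option autoImplicit false
set_option linter.unusedSectionVars false
set_option linter.unusedVariables false

open scoped Classical
open Finset

namespace Pool.Agent.O2

variable {V : Type}

/-- the index of a vertex of a pair -/
theorem G2b_idx {G : SimpleGraph V} {S : Finset V} {K : ℕ} {x : V} {c c' : Fin K → V}
    (h : Conf G S K x c c') (i0 : Fin K) : ∃ idx : V → Fin K,
      (∀ v ∈ S, v ≠ x → v = c (idx v) ∨ v = c' (idx v)) ∧ (∀ l, idx (c l) = l) ∧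
      ∀ l, idx (c' l) = l := by
  refine ⟨fun v => if hv : ∃ l, v = c l ∨ v = c' l then hv.choose else i0, ?_, ?_, ?_⟩
  · intro v hv hx
    have h1 : ∃ l, v = c l ∨ v = c' l := by
      rcases h.cov v hv with h2 | ⟨l, h2⟩ | ⟨l, h2⟩
      · exact absurd h2 hx
      · exact ⟨l, Or.inl h2⟩
      · exact ⟨l, Or.inr h2⟩
    simp only [h1, dif_pos]
    exact h1.choose_spec
  · intro l
    have h1 : ∃ m, c l = c m ∨ c l = c' m := ⟨l, Or.inl rfl⟩
    simp only [h1, dif_pos]
    rcases h1.choose_spec with h2 | h2
    · exact (h.ic h2).symm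
    · exact absurd h2 (h.ne _ _)
  · intro l
    have h1 : ∃ m, c' l = c m ∨ c' l = c' m := ⟨l, Or.inr rfl⟩
    simp only [h1, dif_pos]
    rcases h1.choose_spec with h2 | h2
    · exact absurd h2.symm (h.ne _ _)
    · exact (h.ic' h2).symm

/-- vertices with the same index are not adjacent -/
theorem G2b_non {G : SimpleGraph V} {S : Finset V} {K : ℕ} {x : V} {c c' : Fin K → V}
    (h : Conf G S K x c c') {l : Fin K} {a b : V} (ha : a = c l ∨ a = c' l)
    (hb : b = c l ∨ b = c' l) : ¬ G.Adj a b := by
  rcases ha with rfl | rfl <;> rcases hb with rfl | rfl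
  · exact G.irrefl
  · exact h.non l
  · exact fun h1 => h.non l h1.symm
  · exact G.irrefl

/-- G2b. Two independent sets cannot cover `x` and two pairs. PROOF: colour `U₁` with `i`,
`U₂ \ U₁` with `j` and every other vertex `c l` or `c' l` with `l`. -/
theorem Conf.two {G : SimpleGraph V} {S : Finset V} {K : ℕ} {x : V} {c c' : Fin K → V}
    (h : Conf G S K x c c') {i j : Fin K} (hij : i ≠ j) {U₁ U₂ : Finset V}
    (h1 : ∀ a ∈ U₁, ∀ b ∈ U₁, ¬ G.Adj a b) (h2 : ∀ a ∈ U₂, ∀ b ∈ U₂, ¬ G.Adj a b)
    (hU : ∀ v, v = x ∨ v = c i ∨ v = c' i ∨ v = c j ∨ v = c' j → v ∈ U₁ ∪ U₂) : False := by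
  obtain ⟨idx, k1, k2, k3⟩ := G2b_idx h i
  have hU' : ∀ v ∈ S, v ∉ U₁ → v ∉ U₂ → (v = c (idx v) ∨ v = c' (idx v)) ∧ idx v ≠ i ∧
      idx v ≠ j := by
    intro v hv h3 h4
    have h5 : v ∉ U₁ ∪ U₂ := fun h6 => (mem_union.1 h6).elim h3 h4
    have h6 : ¬ (v = x ∨ v = c i ∨ v = c' i ∨ v = c j ∨ v = c' j) := fun h7 => h5 (hU v h7)
    push Not at h6
    obtain ⟨a1, a2, a3, a4, a5⟩ := h6
    have h7 := k1 v hv a1
    refine ⟨h7, ?_, ?_⟩
    · intro h8
      rw [h8] at h7
      exact h7.elim a2 a3
    · intro h8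
      rw [h8] at h7
      exact h7.elim a4 a5
  apply h.crit.1
  apply cb_of_pc (φ := fun v => if v ∈ U₁ then i else if v ∈ U₂ then j else idx v)
  intro a ha b hb hab
  by_cases a1 : a ∈ U₁ <;> by_cases b1 : b ∈ U₁
  · exact absurd hab (h1 a a1 b b1)
  · by_cases b2 : b ∈ U₂
    · simp only [a1, b1, b2, if_true, if_false]
      exact hij
    · simp only [a1, b1, b2, if_true, if_false]
      exact (hU' b hb b1 b2).2.1.symm
  · by_cases a2 : a ∈ U₂
    · simp only [a1, b1, a2, if_true, if_false]
      exact hij.symm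
    · simp only [a1, b1, a2, if_true, if_false]
      exact (hU' a ha a1 a2).2.1
  · by_cases a2 : a ∈ U₂ <;> by_cases b2 : b ∈ U₂
    · exact absurd hab (h2 a a2 b b2)
    · simp only [a1, b1, a2, b2, if_true, if_false]
      exact (hU' b hb b1 b2).2.2.symm
    · simp only [a1, b1, a2, b2, if_true, if_false]
      exact (hU' a ha a1 a2).2.2
    · simp only [a1, b1, a2, b2, if_false]
      intro h3
      have h4 := (hU' a ha a1 a2).1
      have h5 := (hU' b hb b1 b2).1
      rw [← h3] at h5
      exact G2b_non h h4 h5 hab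

/-- PROOF: `Conf.two` with `{c i, c j, c' j}, {x, c' i}`, with `{c i, c j, c' i}, {x, c' j}` and
with `{c i, c j}, {x, c' i, c' j}`. -/
theorem Conf.red {G : SimpleGraph V} {S : Finset V} {K : ℕ} {x : V} {c c' : Fin K → V}
    (h : Conf G S K x c c') {i j : Fin K} (hij : i ≠ j) (hr : ¬ G.Adj (c i) (c j)) :
    G.Adj (c i) (c' j) ∧ G.Adj (c j) (c' i) ∧ G.Adj (c' i) (c' j) := by
  refine ⟨?_, ?_, ?_⟩
  · by_contra hc
    refine h.two hij (U₁ := {c i, c j, c' j}) (U₂ := {x, c' i}) ?_ ?_ ?_
    · intro a ha b hb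
      simp only [mem_insert, mem_singleton] at ha hb
      rcases ha with rfl | rfl | rfl <;> rcases hb with rfl | rfl | rfl
      · exact G.irrefl
      · exact hr
      · exact hc
      · exact fun h1 => hr h1.symm
      · exact G.irrefl
      · exact h.non j
      · exact fun h1 => hc h1.symm
      · exact fun h1 => h.non j h1.symm
      · exact G.irrefl
    · intro a ha b hb
      simp only [mem_insert, mem_singleton] at ha hb
      rcases ha with rfl | rfl <;> rcases hb with rfl | rfl
      · exact G.irrefl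
      · exact h.adj' i
      · exact fun h1 => h.adj' i h1.symm
      · exact G.irrefl
    · intro v hv
      simp only [mem_union, mem_insert, mem_singleton]
      tauto
  · by_contra hc
    refine h.two hij (U₁ := {c i, c j, c' i}) (U₂ := {x, c' j}) ?_ ?_ ?_
    · intro a ha b hb
      simp only [mem_insert, mem_singleton] at ha hb
      rcases ha with rfl | rfl | rfl <;> rcases hb with rfl | rfl | rfl
      · exact G.irrefl
      · exact hr
      · exact h.non i
      · exact fun h1 => hr h1.symm
      · exact G.irrefl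
      · exact hc
      · exact fun h1 => h.non i h1.symm
      · exact fun h1 => hc h1.symm
      · exact G.irrefl
    · intro a ha b hb
      simp only [mem_insert, mem_singleton] at ha hb
      rcases ha with rfl | rfl <;> rcases hb with rfl | rfl
      · exact G.irrefl
      · exact h.adj' j
      · exact fun h1 => h.adj' j h1.symm
      · exact G.irrefl
    · intro v hv
      simp only [mem_union, mem_insert, mem_singleton]
      tauto
  · by_contra hc
    refine h.two hij (U₁ := {c i, c j}) (U₂ := {x, c' i, c' j}) ?_ ?_ ?_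
    · intro a ha b hb
      simp only [mem_insert, mem_singleton] at ha hb
      rcases ha with rfl | rfl <;> rcases hb with rfl | rfl
      · exact G.irrefl
      · exact hr
      · exact fun h1 => hr h1.symm
      · exact G.irrefl
    · intro a ha b hb
      simp only [mem_insert, mem_singleton] at ha hb
      rcases ha with rfl | rfl | rfl <;> rcases hb with rfl | rfl | rfl
      · exact G.irrefl
      · exact h.adj' i
      · exact h.adj' j
      · exact fun h1 => h.adj' i h1.symm
      · exact G.irrefl
      · exact hc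
      · exact fun h1 => h.adj' j h1.symm
      · exact fun h1 => hc h1.symm
      · exact G.irrefl
    · intro v hv
      simp only [mem_union, mem_insert, mem_singleton]
      tauto

/-- the degree of `c' j`. PROOF: if `i ≠ j` is a red neighbour of `j`, colour `S - c' j`: `c i` and
`c j` get `j`; `x` and `c' i` get `i`; every other `c l`, `c' l` gets `l`. If `l ≠ i, j` is another
red neighbour of `j` then `c' j` is adjacent to `c l` and `c' l` (`Conf.red`), so it has two
neighbours in the class `l`; apply `CrOn.two_le`. -/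
theorem Conf.deg {G : SimpleGraph V} {S : Finset V} {K : ℕ} {x : V} {c c' : Fin K → V}
    (h : Conf G S K x c c') (j : Fin K) :
    K + (univ.filter fun l : Fin K => l ≠ j ∧ ¬ G.Adj (c j) (c l)).card ≤
      dg G S (c' j) + 1 := by
  rcases (univ.filter fun l : Fin K => l ≠ j ∧ ¬ G.Adj (c j) (c l)).eq_empty_or_nonempty
    with h0 | ⟨i, hi⟩
  · rw [h0, card_empty]
    have := h.crit.dg_ge (h.mc' j)
    omega
  obtain ⟨hij, hr⟩ : i ≠ j ∧ ¬ G.Adj (c j) (c i) := (mem_filter.1 hi).2
  obtain ⟨idx, k1, k2, k3⟩ := G2b_idx h i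
  set φ : V → Fin K := fun v => if v = x then i else if v = c i then j else idx v with hφ
  have f1 : φ x = i := by simp only [hφ, if_true]
  have f2 : φ (c i) = j := by simp only [hφ, h.cx i, if_true, if_false]
  have f3 : ∀ v, v ≠ x → v ≠ c i → φ v = idx v := by
    intro v h1 h2
    simp only [hφ, h1, h2, if_false]
  have f4 : ∀ v ∈ S, v ≠ c' j → φ v = j → v = c i ∨ v = c j := by
    intro v hv h1 h2
    by_cases h3 : v = x
    · rw [h3, f1] at h2
      exact absurd h2 hij
    · by_cases h4 : v = c i
      · exact Or.inl h4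
      · rw [f3 v h3 h4] at h2
        have h5 := k1 v hv h3
        rw [h2] at h5
        exact Or.inr (h5.resolve_right h1)
  have f5 : ∀ v ∈ S, φ v = i → v = x ∨ v = c' i := by
    intro v hv h2
    by_cases h3 : v = x
    · exact Or.inl h3
    · by_cases h4 : v = c i
      · rw [h4, f2] at h2
        exact absurd h2 hij.symm
      · rw [f3 v h3 h4] at h2
        have h5 := k1 v hv h3
        rw [h2] at h5
        exact Or.inr (h5.resolve_left h4)
  have f6 : ∀ l, l ≠ i → l ≠ j → ∀ v ∈ S, φ v = l → v = c l ∨ v = c' l := by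
    intro l hl hl' v hv h2
    by_cases h3 : v = x
    · rw [h3, f1] at h2
      exact absurd h2.symm hl
    · by_cases h4 : v = c i
      · rw [h4, f2] at h2
        exact absurd h2.symm hl'
      · rw [f3 v h3 h4] at h2
        have h5 := k1 v hv h3
        rw [h2] at h5
        exact h5
  have hpc : PC G (S.erase (c' j)) φ := by
    intro a ha b hb hab heq
    obtain ⟨a1, a2⟩ := mem_erase.1 ha
    obtain ⟨b1, b2⟩ := mem_erase.1 hb
    by_cases hj : φ a = j
    · have h3 := f4 a a2 a1 hj
      have h4 := f4 b b2 b1 (heq ▸ hj)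
      rcases h3 with rfl | rfl <;> rcases h4 with rfl | rfl
      · exact G.irrefl hab
      · exact hr hab.symm
      · exact hr hab
      · exact G.irrefl hab
    · by_cases hi' : φ a = i
      · have h3 := f5 a a2 hi'
        have h4 := f5 b b2 (heq ▸ hi')
        rcases h3 with rfl | rfl <;> rcases h4 with rfl | rfl
        · exact G.irrefl hab
        · exact h.adj' i hab
        · exact h.adj' i hab.symm
        · exact G.irrefl hab
      · have h3 := f6 (φ a) hi' hj a a2 rfl
        have h4 := f6 (φ a) hi' hj b b2 heq.symm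
        exact G2b_non h h3 h4 hab
  have h5 := h.crit.two_le (h.mc' j) hpc
  have h6 : (univ.filter fun l : Fin K => l ≠ j ∧ ¬ G.Adj (c j) (c l)).erase i ⊆
      univ.filter fun l : Fin K =>
        2 ≤ (S.filter fun y => G.Adj (c' j) y ∧ φ y = l).card := by
    intro l hl
    obtain ⟨hli, hl2⟩ := mem_erase.1 hl
    obtain ⟨hlj, hlr⟩ := (mem_filter.1 hl2).2
    obtain ⟨r1, r2, r3⟩ := h.red hlj (fun h7 => hlr h7.symm)
    refine mem_filter.2 ⟨mem_univ _, ?_⟩
    have g1 : φ (c l) = l := by
      rw [f3 _ (h.cx l) (fun h7 => hli (h.ic h7)), k2]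
    have g2 : φ (c' l) = l := by
      rw [f3 _ (h.cx' l) (fun h7 => h.ne i l h7.symm), k3]
    have g3 : ({c l, c' l} : Finset V) ⊆ S.filter fun y => G.Adj (c' j) y ∧ φ y = l := by
      intro v hv
      rcases mem_insert.1 hv with rfl | hv
      · exact mem_filter.2 ⟨h.mc l, r1.symm, g1⟩
      · rw [mem_singleton] at hv
        subst hv
        exact mem_filter.2 ⟨h.mc' l, r3.symm, g2⟩
    have g4 := card_le_card g3
    rwa [card_pair (h.ne l l)] at g4
  have h7 := card_le_card h6
  rw [card_erase_of_mem hi] at h7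
  omega

end Pool.Agent.O2
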