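import Pool.Agent.Lib_helper46.O2.Defs

/-! Basic facts on colourings of finite sets. -/

set_option autoImplicit false
set_option linter.unusedSectionVars false

open scoped Classical
open Finset

namespace Pool.Agent.O2

variable {V : Type}

theorem cb_mono {G : SimpleGraph V} {S : Finset V} {k l : ℕ} (h : k ≤ l) (hS : Cb G S k) :
    Cb G S l := by
  obtain ⟨φ, h1, h2⟩ := hS
  exact ⟨φ, fun v hv => (h1 v hv).trans_le h, h2⟩

theorem cb_sub {G : SimpleGraph V} {S T : Finset V} {k : ℕ} (h : T ⊆ S) (hS : Cb G S k) :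
    Cb G T k := by
  obtain ⟨φ, h1, h2⟩ := hS
  exact ⟨φ, fun v hv => h1 v (h hv), fun a ha b hb => h2 a (h ha) b (h hb)⟩

/-- a colouring of `S` with colours of any kind, `k` of them used on `S` -/
theorem cb_image {α : Type*} [DecidableEq α] {G : SimpleGraph V} {S : Finset V} {k : ℕ} (φ : V → α)
    (h1 : (S.image φ).card ≤ k) (h2 : ∀ a ∈ S, ∀ b ∈ S, G.Adj a b → φ a ≠ φ b) : Cb G S k := by
  let e := (S.image φ).equivFin
  refine ⟨fun v => if h : φ v ∈ S.image φ then (e ⟨φ v, h⟩ : ℕ) else 0, ?_, ?_⟩
  · intro v hv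
    have h : φ v ∈ S.image φ := mem_image_of_mem _ hv
    simp only [h, dif_pos]
    exact (e ⟨φ v, h⟩).2.trans_le h1
  · intro a ha b hb hab
    have h : φ a ∈ S.image φ := mem_image_of_mem _ ha
    have h' : φ b ∈ S.image φ := mem_image_of_mem _ hb
    simp only [h, h', dif_pos]
    intro heq
    have h3 := e.injective (Fin.ext heq)
    exact h2 a ha b hb hab (congrArg Subtype.val h3)

theorem cb_union {G : SimpleGraph V} {S T : Finset V} {k l : ℕ} (hS : Cb G S k) (hT : Cb G T l) :
    Cb G (S ∪ T) (k + l) := by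
  obtain ⟨φ, h1, h2⟩ := hS
  obtain ⟨ψ, h3, h4⟩ := hT
  refine ⟨fun v => if v ∈ S then φ v else k + ψ v, ?_, ?_⟩
  · intro v hv
    by_cases h : v ∈ S
    · simp only [h, if_true]; have := h1 v h; omega
    · simp only [h, if_false]
      have := h3 v ((mem_union.1 hv).resolve_left h)
      omega
  · intro a ha b hb hab
    by_cases h : a ∈ S <;> by_cases h' : b ∈ S
    · simp only [h, h', if_true]; exact h2 a h b h' hab
    · simp only [h, h', if_true, if_false]; have := h1 a h; omega
    · simp only [h, h', if_true, if_false]; have := h1 b h'; omega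
    · simp only [h, h', if_false]
      have := h4 a ((mem_union.1 ha).resolve_left h) b ((mem_union.1 hb).resolve_left h') hab
      omega

theorem cb_fin {G : SimpleGraph V} {S : Finset V} {K : ℕ} (hK : 0 < K) :
    Cb G S K ↔ ∃ φ : V → Fin K, PC G S φ := by
  constructor
  · rintro ⟨φ, h1, h2⟩
    refine ⟨fun v => if h : φ v < K then ⟨φ v, h⟩ else ⟨0, hK⟩, ?_⟩
    intro a ha b hb hab h
    simp only [h1 a ha, h1 b hb, dif_pos, Fin.mk.injEq] at h
    exact h2 a ha b hb hab h
  · rintro ⟨φ, h⟩
    exact ⟨fun v => φ v, fun v _ => (φ v).2, fun a ha b hb hab h' => h a ha b hb hab (Fin.ext h')⟩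

theorem cb_of_pc {G : SimpleGraph V} {S : Finset V} {K : ℕ} {φ : V → Fin K} (h : PC G S φ) :
    Cb G S K :=
  ⟨fun v => φ v, fun v _ => (φ v).2, fun a ha b hb hab h' => h a ha b hb hab (Fin.ext h')⟩

theorem pc_sub {K : ℕ} {G : SimpleGraph V} {S T : Finset V} {φ : V → Fin K} (h : T ⊆ S)
    (hS : PC G S φ) : PC G T φ :=
  fun a ha b hb => hS a (h ha) b (h hb)

theorem cb_card (G : SimpleGraph V) (S : Finset V) : Cb G S S.card :=
  cb_image (fun v => v) (by simp) (fun a _ b _ hab => hab.ne)

/-- an independent set has a colouring with one colour -/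
theorem cb_one {G : SimpleGraph V} {S : Finset V} (h : ∀ a ∈ S, ∀ b ∈ S, ¬ G.Adj a b) :
    Cb G S 1 :=
  ⟨fun _ => 0, fun _ _ => Nat.one_pos, fun a ha b hb hab => absurd hab (h a ha b hb)⟩

theorem cb_zero {G : SimpleGraph V} {S : Finset V} : Cb G S 0 ↔ S = ∅ := by
  constructor
  · rintro ⟨φ, h1, -⟩
    by_contra h
    obtain ⟨v, hv⟩ := nonempty_iff_ne_empty.2 h
    exact absurd (h1 v hv) (Nat.not_lt_zero _)
  · rintro rfl
    exact ⟨fun _ => 0, by simp, by simp⟩

theorem cb_insert {G : SimpleGraph V} {S : Finset V} {k : ℕ} (x : V) (h : Cb G S k) :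
    Cb G (insert x S) (k + 1) := by
  have h1 := cb_union h (cb_card G {x})
  have h2 : S ∪ {x} = insert x S := by rw [union_comm]; rfl
  rw [h2, card_singleton] at h1
  exact h1

/-- a colouring of a union from colourings of the members -/
theorem cb_biUnion {ι : Type*} {G : SimpleGraph V} (D : Finset ι) (E : ι → Finset V) (k : ι → ℕ)
    (h : ∀ i ∈ D, Cb G (E i) (k i)) : Cb G (D.biUnion E) (∑ i ∈ D, k i) := by
  induction D using Finset.induction_on with
  | empty => simpa using (cb_zero (G := G) (S := ∅)).2 rfl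
  | insert F D hF ih =>
    rw [biUnion_insert, sum_insert hF]
    exact cb_union (h F (mem_insert_self _ _)) (ih fun F' hF' => h F' (mem_insert_of_mem hF'))

/-- a set which is not `K`-colourable contains a critical one -/
theorem exists_crOn {G : SimpleGraph V} {S : Finset V} {K : ℕ} (h : ¬ Cb G S K) :
    ∃ T ⊆ S, CrOn G T K := by
  induction S using Finset.strongInduction with
  | H S ih =>
    by_cases h1 : ∀ x ∈ S, Cb G (S.erase x) K
    · exact ⟨S, Subset.refl _, h, h1⟩
    · push Not at h1
      obtain ⟨x, hx, hx'⟩ := h1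
      obtain ⟨T, hT, hT'⟩ := ih _ (erase_ssubset hx) hx'
      exact ⟨T, hT.trans (erase_subset _ _), hT'⟩

theorem CrOn.nonempty {G : SimpleGraph V} {S : Finset V} {K : ℕ} (h : CrOn G S K) :
    S.Nonempty := by
  by_contra h'
  rw [not_nonempty_iff_eq_empty] at h'
  subst h'
  exact h.1 (cb_mono (Nat.zero_le _) (cb_zero.2 rfl))

/-- a proper subset of a critical set is colourable -/
theorem CrOn.sub {G : SimpleGraph V} {S T : Finset V} {K : ℕ} (h : CrOn G S K) (hT : T ⊆ S)
    (hne : T ≠ S) : Cb G T K := by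
  obtain ⟨x, hx, hx'⟩ := exists_of_ssubset (hT.ssubset_of_ne hne)
  exact cb_sub (fun v hv => mem_erase.2 ⟨fun e => hx' (by rw [← e]; exact hv), hT hv⟩) (h.2 x hx)

/-- the colouring of `S - x` -/
theorem CrOn.pc {G : SimpleGraph V} {S : Finset V} {K : ℕ} (h : CrOn G S K) (hK : 0 < K) {x : V}
    (hx : x ∈ S) : ∃ φ : V → Fin K, PC G (S.erase x) φ :=
  (cb_fin hK).1 (h.2 x hx)

/-- the number of vertices of a critical graph -/
theorem CrOn.card_ge {G : SimpleGraph V} {S : Finset V} {K : ℕ} (h : CrOn G S K) :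
    K + 1 ≤ S.card := by
  by_contra h'
  exact h.1 (cb_mono (by omega) (cb_card G S))

theorem PM.empty (H : SimpleGraph V) : PM H ∅ := ⟨id, by simp⟩

theorem PM.pair {H : SimpleGraph V} {a b : V} (h : H.Adj a b) : PM H {a, b} := by
  refine ⟨fun v => if v = a then b else a, ?_⟩
  have hab := h.ne
  intro v hv
  rcases mem_insert.1 hv with rfl | hv
  · simp only [if_true, hab.symm, if_false]
    exact ⟨by simp, trivial, h⟩
  · rw [mem_singleton] at hv
    subst hv
    simp only [hab.symm, if_false, if_true]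
    exact ⟨by simp, trivial, h.symm⟩

theorem PM.union {H : SimpleGraph V} {S T : Finset V} (hd : Disjoint S T) (hS : PM H S)
    (hT : PM H T) : PM H (S ∪ T) := by
  obtain ⟨f, hf⟩ := hS
  obtain ⟨g, hg⟩ := hT
  refine ⟨fun v => if v ∈ S then f v else g v, ?_⟩
  intro v hv
  by_cases h : v ∈ S
  · obtain ⟨h1, h2, h3⟩ := hf v h
    simp only [h, if_true, h1]
    exact ⟨mem_union_left _ h1, h2, h3⟩
  · have hv' := (mem_union.1 hv).resolve_left h
    obtain ⟨h1, h2, h3⟩ := hg v hv'
    have h4 : g v ∉ S := fun h5 => (disjoint_left.1 hd h5) h1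
    simp only [h, if_false, h4]
    exact ⟨mem_union_right _ h1, h2, h3⟩

theorem PM.biUnion {ι : Type*} {H : SimpleGraph V} (D : Finset ι) (E : ι → Finset V)
    (hd : ∀ i ∈ D, ∀ j ∈ D, i ≠ j → Disjoint (E i) (E j)) (h : ∀ i ∈ D, PM H (E i)) :
    PM H (D.biUnion E) := by
  induction D using Finset.induction_on with
  | empty => simpa using PM.empty H
  | insert F D hF ih =>
    rw [biUnion_insert]
    apply PM.union _ (h F (mem_insert_self _ _))
    · exact ih (fun F₁ h1 F₂ h2 => hd F₁ (mem_insert_of_mem h1) F₂ (mem_insert_of_mem h2))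
        fun F' hF' => h F' (mem_insert_of_mem hF')
    · rw [disjoint_biUnion_right]
      intro F' hF'
      exact hd F (mem_insert_self _ _) F' (mem_insert_of_mem hF') (fun e => hF (e ▸ hF'))

/-- pairs of a perfect matching of non-edges are colour classes: `S` has even size `2 k` and a
colouring with `k` colours -/
theorem PM.cb {G H : SimpleGraph V} (hGH : ∀ a b, H.Adj a b → ¬ G.Adj a b) {S : Finset V}
    (h : PM H S) : ∃ k, S.card = 2 * k ∧ Cb G S k := by
  induction S using Finset.strongInduction with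
  | H S ih =>
    rcases S.eq_empty_or_nonempty with rfl | ⟨v, hv⟩
    · exact ⟨0, by simp, cb_zero.2 rfl⟩
    · obtain ⟨f, hf⟩ := h
      obtain ⟨h1, h2, h3⟩ := hf v hv
      have hne : v ≠ f v := h3.ne
      set T := S \ {v, f v} with hT
      have hsub : ({v, f v} : Finset V) ⊆ S := by
        intro u hu
        rcases mem_insert.1 hu with rfl | hu
        · exact hv
        · rw [mem_singleton] at hu; rw [hu]; exact h1
      have hPM : PM H T := by
        refine ⟨f, ?_⟩
        intro u hu
        have hu' := mem_sdiff.1 hu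
        obtain ⟨h4, h5, h6⟩ := hf u hu'.1
        refine ⟨mem_sdiff.2 ⟨h4, ?_⟩, h5, h6⟩
        intro h7
        apply hu'.2
        rcases mem_insert.1 h7 with h8 | h8
        · rw [mem_insert, mem_singleton]; right; rw [← h8, h5]
        · rw [mem_singleton] at h8
          rw [mem_insert]; left; rw [← h5, h8, h2]
      have hss : T ⊂ S := by
        refine ⟨sdiff_subset, fun h => ?_⟩
        have := h hv
        rw [hT, mem_sdiff] at this
        exact this.2 (mem_insert_self _ _)
      obtain ⟨k, hk, hk'⟩ := ih T hss hPM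
      have hc : ({v, f v} : Finset V).card = 2 := card_pair hne
      have hST : T ∪ {v, f v} = S := by rw [hT]; exact sdiff_union_of_subset hsub
      refine ⟨k + 1, ?_, ?_⟩
      · have := card_union_of_disjoint (s := T) (t := {v, f v}) sdiff_disjoint
        rw [hST, hk, hc] at this
        omega
      · rw [← hST]
        apply cb_union hk' (cb_one _)
        intro a ha b hb hab
        have hvf := hGH _ _ h3
        rcases mem_insert.1 ha with h | h <;> rcases mem_insert.1 hb with h' | h'
        · rw [h, h'] at hab; exact G.irrefl hab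
        · rw [mem_singleton] at h'; rw [h, h'] at hab; exact hvf hab
        · rw [mem_singleton] at h; rw [h, h'] at hab; exact hvf hab.symm
        · rw [mem_singleton] at h h'; rw [h, h'] at hab; exact G.irrefl hab

end Pool.Agent.O2
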