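import Pool.Agent.Lib_helper46.O2.L1

/-! Degrees, edges, non-edges. -/

set_option autoImplicit false
set_option linter.unusedSectionVars false
set_option linter.unusedVariables false

open scoped Classical
open Finset

namespace Pool.Agent.O2

variable {V : Type}

theorem pr_sum (G : SimpleGraph V) (X Y : Finset V) : pr G X Y = ∑ x ∈ X, dg G Y x := by
  unfold pr dg
  rw [card_filter, sum_product]
  refine sum_congr rfl fun x _ => ?_
  rw [card_filter]

theorem ms_sum (G : SimpleGraph V) (X : Finset V) : ms G X = ∑ x ∈ X, nd G X x := by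
  unfold ms nd
  rw [card_filter, sum_product]
  refine sum_congr rfl fun x _ => ?_
  rw [card_filter]
  refine sum_congr rfl fun y _ => ?_
  simp only [ne_comm]

theorem pr_symm (G : SimpleGraph V) (X Y : Finset V) : pr G X Y = pr G Y X := by
  unfold pr
  apply card_bij (fun p _ => (p.2, p.1))
  · intro p hp
    simp only [mem_filter, mem_product] at hp ⊢
    exact ⟨⟨hp.1.2, hp.1.1⟩, hp.2.symm⟩
  · intro p _ q _ h
    simp only [Prod.mk.injEq] at h
    exact Prod.ext h.2 h.1
  · intro p hp
    simp only [mem_filter, mem_product] at hp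
    exact ⟨(p.2, p.1), by simp only [mem_filter, mem_product]; exact ⟨⟨hp.1.2, hp.1.1⟩, hp.2.symm⟩,
      rfl⟩

theorem pr_sum' (G : SimpleGraph V) (X Y : Finset V) : pr G X Y = ∑ y ∈ Y, dg G X y := by
  rw [pr_symm, pr_sum]

theorem dg_union {G : SimpleGraph V} {X Y : Finset V} (h : Disjoint X Y) (v : V) :
    dg G (X ∪ Y) v = dg G X v + dg G Y v := by
  unfold dg
  rw [filter_union, card_union_of_disjoint]
  exact disjoint_filter_filter h

theorem dg_mono {G : SimpleGraph V} {X Y : Finset V} (h : X ⊆ Y) (v : V) :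
    dg G X v ≤ dg G Y v := card_le_card (filter_subset_filter _ h)

theorem pr_union_left {G : SimpleGraph V} {X X' : Finset V} (Y : Finset V) (h : Disjoint X X') :
    pr G (X ∪ X') Y = pr G X Y + pr G X' Y := by
  rw [pr_sum, pr_sum, pr_sum, sum_union h]

theorem pr_union_right {G : SimpleGraph V} (X : Finset V) {Y Y' : Finset V} (h : Disjoint Y Y') :
    pr G X (Y ∪ Y') = pr G X Y + pr G X Y' := by
  rw [pr_symm, pr_union_left X h, pr_symm G Y, pr_symm G Y']

theorem pr_mono {G : SimpleGraph V} {X X' Y Y' : Finset V} (h : X ⊆ X') (h' : Y ⊆ Y') :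
    pr G X Y ≤ pr G X' Y' :=
  card_le_card (filter_subset_filter _ (product_subset_product h h'))

theorem dg_erase_self (G : SimpleGraph V) (X : Finset V) (v : V) :
    dg G (X.erase v) v = dg G X v := by
  unfold dg
  congr 1
  ext y
  simp only [mem_filter, mem_erase]
  constructor
  · rintro ⟨⟨-, h1⟩, h2⟩; exact ⟨h1, h2⟩
  · rintro ⟨h1, h2⟩; exact ⟨⟨h2.ne', h1⟩, h2⟩

theorem dg_add_nd {G : SimpleGraph V} {X : Finset V} {v : V} (hv : v ∈ X) :
    dg G X v + nd G X v + 1 = X.card := by
  have h1 : (X.filter fun y => G.Adj v y) ∪ (X.filter fun y => y ≠ v ∧ ¬ G.Adj v y) = X.erase v := by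
    ext y
    simp only [mem_union, mem_filter, mem_erase]
    constructor
    · rintro (⟨h1, h2⟩ | ⟨h1, h2, -⟩)
      · exact ⟨h2.ne', h1⟩
      · exact ⟨h2, h1⟩
    · rintro ⟨h1, h2⟩
      by_cases h : G.Adj v y
      · exact Or.inl ⟨h2, h⟩
      · exact Or.inr ⟨h2, h1, h⟩
  have h2 : Disjoint (X.filter fun y => G.Adj v y) (X.filter fun y => y ≠ v ∧ ¬ G.Adj v y) := by
    rw [disjoint_left]
    intro y hy hy'
    exact (mem_filter.1 hy').2.2 (mem_filter.1 hy).2
  have h3 := card_union_of_disjoint h2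
  rw [h1, card_erase_of_mem hv] at h3
  have h4 : 0 < X.card := card_pos.2 ⟨v, hv⟩
  unfold dg nd
  omega

theorem pr_add_ms (G : SimpleGraph V) (X : Finset V) :
    pr G X X + ms G X + X.card = X.card * X.card := by
  rw [pr_sum, ms_sum]
  have h1 : ∑ x ∈ X, (dg G X x + nd G X x + 1) = ∑ _x ∈ X, X.card :=
    sum_congr rfl fun x hx => dg_add_nd hx
  rw [sum_add_distrib, sum_add_distrib, sum_const, sum_const] at h1
  simpa using h1

theorem pr_le (G : SimpleGraph V) (X : Finset V) : pr G X X + X.card ≤ X.card * X.card := by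
  have := pr_add_ms G X
  omega

theorem ms_mono {G : SimpleGraph V} {X Y : Finset V} (h : X ⊆ Y) : ms G X ≤ ms G Y :=
  card_le_card (filter_subset_filter _ (product_subset_product h h))

/-- all colours appear in the neighbourhood of a vertex of a critical graph -/
theorem CrOn.nbr_all {G : SimpleGraph V} {S : Finset V} {K : ℕ} (h : CrOn G S K) {x : V}
    (hx : x ∈ S) {φ : V → Fin K} (hφ : PC G (S.erase x) φ) (i : Fin K) :
    ∃ y ∈ S, y ≠ x ∧ G.Adj x y ∧ φ y = i := by
  by_contra hcon
  push Not at hcon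
  apply h.1
  apply cb_of_pc (φ := fun v => if v = x then i else φ v)
  intro a ha b hb hab
  by_cases h1 : a = x <;> by_cases h2 : b = x
  · rw [h1, h2] at hab; exact absurd hab G.irrefl
  · simp only [h1, h2, if_true, if_false]
    rw [h1] at hab
    exact fun h3 => hcon b hb h2 hab h3.symm
  · simp only [h1, h2, if_true, if_false]
    rw [h2] at hab
    exact fun h3 => hcon a ha h1 hab.symm h3
  · simp only [h1, h2, if_false]
    exact hφ a (mem_erase.2 ⟨h1, ha⟩) b (mem_erase.2 ⟨h2, hb⟩) hab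

/-- degrees split over the classes -/
theorem dg_classes {K : ℕ} (G : SimpleGraph V) (S : Finset V) (x : V) (φ : V → Fin K) :
    dg G S x = ∑ i, (S.filter fun y => G.Adj x y ∧ φ y = i).card := by
  unfold dg
  rw [card_eq_sum_card_fiberwise (f := φ) (t := univ) (fun _ _ => by simp)]
  refine sum_congr rfl fun i _ => ?_
  rw [filter_filter]

/-- the number of classes in which `x` has at least two neighbours is at most the excess -/
theorem CrOn.two_le {G : SimpleGraph V} {S : Finset V} {K : ℕ} (h : CrOn G S K) {x : V}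
    (hx : x ∈ S) {φ : V → Fin K} (hφ : PC G (S.erase x) φ) :
    (univ.filter fun i : Fin K => 2 ≤ (S.filter fun y => G.Adj x y ∧ φ y = i).card).card + K ≤
      dg G S x := by
  rw [dg_classes G S x φ]
  have h1 : ∀ i : Fin K, 1 + (if 2 ≤ (S.filter fun y => G.Adj x y ∧ φ y = i).card then 1 else 0) ≤
      (S.filter fun y => G.Adj x y ∧ φ y = i).card := by
    intro i
    obtain ⟨y, hy, -, hxy, hyi⟩ := h.nbr_all hx hφ i
    have h2 : 0 < (S.filter fun y => G.Adj x y ∧ φ y = i).card :=
      card_pos.2 ⟨y, mem_filter.2 ⟨hy, hxy, hyi⟩⟩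
    split_ifs with h3
    · exact h3
    · omega
  have h2 := sum_le_sum fun i (_ : i ∈ (univ : Finset (Fin K))) => h1 i
  rw [sum_add_distrib, sum_const, card_univ, Fintype.card_fin, smul_eq_mul, mul_one,
    ← card_filter] at h2
  omega

/-- minimum degree -/
theorem CrOn.dg_ge {G : SimpleGraph V} {S : Finset V} {K : ℕ} (h : CrOn G S K) {x : V}
    (hx : x ∈ S) : K ≤ dg G S x := by
  rcases Nat.eq_zero_or_pos K with rfl | hK
  · exact Nat.zero_le _
  · obtain ⟨φ, hφ⟩ := h.pc hK hx
    have := h.two_le hx hφ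
    omega

/-- the edges between `A` and `B` split over the classes -/
theorem pr_classes {K : ℕ} (G : SimpleGraph V) (A B : Finset V) (ψ : V → Fin K) :
    pr G A B = ∑ j, pr G A (cls B ψ j) := by
  rw [pr_sum']
  simp_rw [pr_sum' G A (cls B ψ _)]
  unfold cls
  exact (sum_fiberwise B ψ (fun y => dg G A y)).symm

theorem nbr_card_le (G : SimpleGraph V) (A Q : Finset V) : (nbr G A Q).card ≤ pr G A Q := by
  rw [pr_sum, card_eq_sum_ones]
  have h1 : nbr G A Q ⊆ A := filter_subset _ _
  refine le_trans (sum_le_sum fun a ha => ?_) (sum_le_sum_of_subset h1)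
  obtain ⟨-, y, hy, hay⟩ := mem_filter.1 ha
  exact card_pos.2 ⟨y, mem_filter.2 ⟨hy, hay⟩⟩

/-- a blocking set has at least `K` elements -/
theorem Blk.card_ge {G : SimpleGraph V} {K : ℕ} {A N : Finset V} (h : Blk G K A N)
    {φ : V → Fin K} (hφ : PC G A φ) : K ≤ N.card := by
  have h1 : (univ : Finset (Fin K)) ⊆ N.image φ := by
    intro i _
    obtain ⟨a, ha, hai⟩ := h φ hφ i
    exact mem_image.2 ⟨a, ha, hai⟩
  have h2 := (card_le_card h1).trans card_image_le
  simpa using h2

theorem Blk.mono {G : SimpleGraph V} {K : ℕ} {A N N' : Finset V} (h : Blk G K A N) (hN : N ⊆ N') :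
    Blk G K A N' := by
  intro φ hφ i
  obtain ⟨a, ha, hai⟩ := h φ hφ i
  exact ⟨a, hN ha, hai⟩

theorem nbr_mono (G : SimpleGraph V) (A : Finset V) {Q Q' : Finset V} (h : Q ⊆ Q') :
    nbr G A Q ⊆ nbr G A Q' := by
  intro a ha
  obtain ⟨h1, y, hy, hay⟩ := mem_filter.1 ha
  exact mem_filter.2 ⟨h1, y, h hy, hay⟩

end Pool.Agent.O2
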