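import Pool.Agent.Lib_helper46.O2.L2

/-! Joins. -/

set_option autoImplicit false
set_option linter.unusedSectionVars false

open scoped Classical
open Finset

namespace Pool.Agent.O2

variable {V : Type}

/-- colourings of a join -/
theorem cb_join {G : SimpleGraph V} {S₁ S₂ : Finset V} {K : ℕ}
    (hj : ∀ a ∈ S₁, ∀ b ∈ S₂, G.Adj a b) (h : Cb G (S₁ ∪ S₂) K) :
    ∃ k₁ k₂, k₁ + k₂ = K ∧ Cb G S₁ k₁ ∧ Cb G S₂ k₂ := by
  obtain ⟨φ, h1, h2⟩ := h
  have hd : Disjoint (S₁.image φ) (S₂.image φ) := by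
    rw [disjoint_left]
    intro i hi hi'
    obtain ⟨a, ha, rfl⟩ := mem_image.1 hi
    obtain ⟨b, hb, hab⟩ := mem_image.1 hi'
    exact h2 a (mem_union_left _ ha) b (mem_union_right _ hb) (hj a ha b hb) hab.symm
  have hc : (S₁.image φ).card + (S₂.image φ).card ≤ K := by
    rw [← card_union_of_disjoint hd]
    have h3 : S₁.image φ ∪ S₂.image φ ⊆ range K := by
      intro i hi
      rw [← image_union] at hi
      obtain ⟨a, ha, rfl⟩ := mem_image.1 hi
      exact mem_range.2 (h1 a ha)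
    simpa using card_le_card h3
  refine ⟨(S₁.image φ).card, K - (S₁.image φ).card, by omega, ?_, ?_⟩
  · exact cb_image φ le_rfl fun a ha b hb =>
      h2 a (mem_union_left _ ha) b (mem_union_left _ hb)
  · exact cb_image φ (by omega) fun a ha b hb =>
      h2 a (mem_union_right _ ha) b (mem_union_right _ hb)

/-- colourings of a join of a family of sets and one more set -/
theorem cb_join_family {ι : Type*} {G : SimpleGraph V} (D : Finset ι) (E : ι → Finset V) :
    ∀ (R : Finset V) (K : ℕ),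
    (∀ i ∈ D, ∀ j ∈ D, i ≠ j → ∀ a ∈ E i, ∀ b ∈ E j, G.Adj a b) →
    (∀ i ∈ D, ∀ a ∈ E i, ∀ b ∈ R, G.Adj a b) → Cb G (R ∪ D.biUnion E) K →
    ∃ (k₀ : ℕ) (k : ι → ℕ), Cb G R k₀ ∧ (∀ i ∈ D, Cb G (E i) (k i)) ∧
      k₀ + ∑ i ∈ D, k i ≤ K := by
  induction D using Finset.induction_on with
  | empty =>
    intro R K _ _ h
    exact ⟨K, fun _ => 0, by simpa using h, by simp, by simp⟩
  | insert F D hF ih =>
    intro R K h1 h2 h
    rw [biUnion_insert, ← union_assoc, union_comm R, union_assoc] at h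
    obtain ⟨k₁, k₂, hk, hk1, hk2⟩ := cb_join (G := G) (S₁ := E F) (S₂ := R ∪ D.biUnion E)
      (by
        intro a ha b hb
        rcases mem_union.1 hb with hb | hb
        · exact h2 F (mem_insert_self _ _) a ha b hb
        · obtain ⟨F', hF', hb'⟩ := mem_biUnion.1 hb
          exact h1 F (mem_insert_self _ _) F' (mem_insert_of_mem hF')
            (fun e => hF (by rw [e]; exact hF')) a ha b hb') h
    obtain ⟨k₀, k, h3, h4, h5⟩ := ih R k₂
      (fun F₁ e1 F₂ e2 => h1 F₁ (mem_insert_of_mem e1) F₂ (mem_insert_of_mem e2))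
      (fun F₁ e1 => h2 F₁ (mem_insert_of_mem e1)) hk2
    refine ⟨k₀, fun F' => if F' = F then k₁ else k F', h3, ?_, ?_⟩
    · intro F' hF'
      rcases mem_insert.1 hF' with rfl | hF'
      · simpa using hk1
      · have hne : F' ≠ F := fun e => hF (by rw [← e]; exact hF')
        simp only [hne, if_false]
        exact h4 F' hF'
    · rw [sum_insert hF]
      simp only [if_true]
      have h6 : ∑ F' ∈ D, (if F' = F then k₁ else k F') = ∑ F' ∈ D, k F' := by
        refine sum_congr rfl fun F' hF' => ?_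
        have hne : F' ≠ F := fun e => hF (by rw [← e]; exact hF')
        simp only [hne, if_false]
      rw [h6]
      omega

/-- a critical join: both parts are critical -/
theorem CrOn.join {G : SimpleGraph V} {S₁ S₂ : Finset V} {K : ℕ} (h1 : S₁.Nonempty)
    (h2 : S₂.Nonempty) (hd : Disjoint S₁ S₂) (hj : ∀ a ∈ S₁, ∀ b ∈ S₂, G.Adj a b)
    (h : CrOn G (S₁ ∪ S₂) K) :
    ∃ K₁ K₂, K₁ + K₂ + 1 = K ∧ CrOn G S₁ K₁ ∧ CrOn G S₂ K₂ := by
  -- chromatic numbers
  have hex : ∀ S : Finset V, S.Nonempty → ∃ k, ¬ Cb G S k ∧ Cb G S (k + 1) := by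
    intro S hS
    have h3 : ∃ k, Cb G S k := ⟨_, cb_card G S⟩
    have h4 : Nat.find h3 ≠ 0 := by
      intro h5
      have h6 := Nat.find_spec h3
      rw [h5, cb_zero] at h6
      exact hS.ne_empty h6
    obtain ⟨k, hk⟩ := Nat.exists_eq_succ_of_ne_zero h4
    refine ⟨k, Nat.find_min h3 (by omega), ?_⟩
    have h6 := Nat.find_spec h3
    rwa [hk] at h6
  obtain ⟨K₁, hK1, hK1'⟩ := hex S₁ h1
  obtain ⟨K₂, hK2, hK2'⟩ := hex S₂ h2
  have hle : ∀ {S : Finset V} {k l : ℕ}, ¬ Cb G S k → Cb G S l → k < l := by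
    intro S k l h3 h4
    by_contra h5
    exact h3 (cb_mono (by omega) h4)
  have hlow : K < K₁ + 1 + (K₂ + 1) := hle h.1 (cb_union hK1' hK2')
  have hup1 : ∀ x ∈ S₁, Cb G (S₁.erase x) K₁ ∧ K₁ + K₂ + 1 = K := by
    intro x hx
    have h3 := h.2 x (mem_union_left _ hx)
    have hx2 : x ∉ S₂ := fun h4 => disjoint_left.1 hd hx h4
    have h5 : (S₁ ∪ S₂).erase x = S₁.erase x ∪ S₂ := by
      rw [erase_union_distrib, erase_eq_of_notMem hx2]
    rw [h5] at h3
    obtain ⟨k₁, k₂, hk, hk1, hk2⟩ := cb_join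
      (fun a ha b hb => hj a (mem_of_mem_erase ha) b hb) h3
    have h6 := hle hK2 hk2
    have h7 : K₁ < k₁ + 1 := by
      have h8 := cb_insert x hk1
      rw [insert_erase hx] at h8
      exact hle hK1 h8
    exact ⟨cb_mono (by omega) hk1, by omega⟩
  have hup2 : ∀ x ∈ S₂, Cb G (S₂.erase x) K₂ := by
    intro x hx
    have h3 := h.2 x (mem_union_right _ hx)
    have hx2 : x ∉ S₁ := fun h4 => disjoint_left.1 hd h4 hx
    have h5 : (S₁ ∪ S₂).erase x = S₁ ∪ S₂.erase x := by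
      rw [erase_union_distrib, erase_eq_of_notMem hx2]
    rw [h5] at h3
    obtain ⟨k₁, k₂, hk, hk1, hk2⟩ := cb_join
      (fun a ha b hb => hj a ha b (mem_of_mem_erase hb)) h3
    have h6 := hle hK1 hk1
    exact cb_mono (by omega) hk2
  obtain ⟨x, hx⟩ := h1
  exact ⟨K₁, K₂, (hup1 x hx).2, ⟨hK1, fun y hy => (hup1 y hy).1⟩, ⟨hK2, hup2⟩⟩

/-- non-edges of a join -/
theorem ms_join {G : SimpleGraph V} {S₁ S₂ : Finset V} (hd : Disjoint S₁ S₂)
    (hj : ∀ a ∈ S₁, ∀ b ∈ S₂, G.Adj a b) : ms G (S₁ ∪ S₂) = ms G S₁ + ms G S₂ := by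
  have h1 : ∀ {X Y : Finset V} (v : V), Disjoint X Y → nd G (X ∪ Y) v = nd G X v + nd G Y v := by
    intro X Y v hXY
    unfold nd
    rw [filter_union, card_union_of_disjoint]
    exact disjoint_filter_filter hXY
  rw [ms_sum, ms_sum, ms_sum, sum_union hd]
  congr 1
  · refine sum_congr rfl fun v hv => ?_
    rw [h1 v hd]
    have : nd G S₂ v = 0 := by
      unfold nd
      rw [card_eq_zero, filter_eq_empty_iff]
      rintro y hy ⟨-, h2⟩
      exact h2 (hj v hv y hy)
    omega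
  · refine sum_congr rfl fun v hv => ?_
    rw [h1 v hd]
    have : nd G S₁ v = 0 := by
      unfold nd
      rw [card_eq_zero, filter_eq_empty_iff]
      rintro y hy ⟨-, h2⟩
      exact h2 (hj y hy v hv).symm
    omega

end Pool.Agent.O2
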