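import Pool.Agent.Lib_helper46.O2.L2

/-! The theorem of Hall and König in the form used for gluing colourings. -/

set_option autoImplicit false
set_option linter.unusedSectionVars false

open scoped Classical
open Finset

namespace Pool.Agent.O2

variable {V : Type}

theorem konig {K : ℕ} (R : Fin K → Fin K → Prop)
    (h : ¬ ∃ σ : Equiv.Perm (Fin K), ∀ i, ¬ R i (σ i)) :
    ∃ P Q : Finset (Fin K), P.card + Q.card = K + 1 ∧ ∀ i ∈ P, ∀ j ∈ Q, R i j := by
  have h1 : ¬ ∃ f : Fin K → Fin K, Function.Injective f ∧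
      ∀ x, f x ∈ (univ.filter fun j => ¬ R x j) := by
    rintro ⟨f, hf, hf'⟩
    apply h
    refine ⟨Equiv.ofBijective f (Finite.injective_iff_bijective.1 hf), ?_⟩
    intro i
    have := (mem_filter.1 (hf' i)).2
    simpa using this
  rw [← all_card_le_biUnion_card_iff_exists_injective] at h1
  push Not at h1
  obtain ⟨P, hP⟩ := h1
  set N := P.biUnion fun x => univ.filter fun j => ¬ R x j with hN
  have hc : (univ \ N).card + N.card = K := by
    rw [card_sdiff_add_card_eq_card (subset_univ N)]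
    simp
  obtain ⟨Q, hQ, hQ'⟩ := exists_subset_card_eq (s := univ \ N) (n := K + 1 - P.card) (by omega)
  have hPK : P.card ≤ K := by
    have := card_le_card (subset_univ P)
    simpa using this
  refine ⟨P, Q, by omega, ?_⟩
  intro i hi j hj
  by_contra hR
  have h2 := (mem_sdiff.1 (hQ hj)).2
  apply h2
  rw [hN, mem_biUnion]
  exact ⟨i, hi, mem_filter.2 ⟨mem_univ _, hR⟩⟩

/-- if colourings of `A` and of `B` cannot be combined then there are many pairs of classes joined
by edges -/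
theorem glue_or {G : SimpleGraph V} {A B : Finset V} {K : ℕ} {φ ψ : V → Fin K}
    (hφ : PC G A φ) (hψ : PC G B ψ) (hn : ¬ Cb G (A ∪ B) K) :
    ∃ P Q : Finset (Fin K), P.card + Q.card = K + 1 ∧
      ∀ i ∈ P, ∀ j ∈ Q, ∃ a ∈ A, ∃ b ∈ B, φ a = i ∧ ψ b = j ∧ G.Adj a b := by
  apply konig fun i j => ∃ a ∈ A, ∃ b ∈ B, φ a = i ∧ ψ b = j ∧ G.Adj a b
  rintro ⟨σ, hσ⟩
  apply hn
  apply cb_of_pc (φ := fun v => if v ∈ A then σ (φ v) else ψ v)
  have key : ∀ a ∈ A, ∀ b ∈ B, G.Adj a b → σ (φ a) ≠ ψ b := by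
    intro a ha b hb hab h
    exact hσ (φ a) ⟨a, ha, b, hb, rfl, h.symm, hab⟩
  intro a ha b hb hab
  by_cases h1 : a ∈ A <;> by_cases h2 : b ∈ A
  · simp only [h1, h2, if_true]
    exact fun h => hφ a h1 b h2 hab (σ.injective h)
  · simp only [h1, h2, if_true, if_false]
    exact key a h1 b ((mem_union.1 hb).resolve_left h2) hab
  · simp only [h1, h2, if_true, if_false]
    exact (key b h2 a ((mem_union.1 ha).resolve_left h1) hab.symm).symm
  · simp only [h1, h2, if_false]
    exact hψ a ((mem_union.1 ha).resolve_left h1) b ((mem_union.1 hb).resolve_left h2) hab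

/-- the number of cross edges is at least the number of pairs of classes joined by edges -/
theorem mul_le_pr {G : SimpleGraph V} {A B : Finset V} {K : ℕ} {φ ψ : V → Fin K}
    {P Q : Finset (Fin K)}
    (h : ∀ i ∈ P, ∀ j ∈ Q, ∃ a ∈ A, ∃ b ∈ B, φ a = i ∧ ψ b = j ∧ G.Adj a b) :
    P.card * Q.card ≤ pr G A B := by
  rw [← card_product]
  have h1 : P ×ˢ Q ⊆ ((A ×ˢ B).filter fun p => G.Adj p.1 p.2).image fun e => (φ e.1, ψ e.2) := by
    intro p hp
    obtain ⟨a, ha, b, hb, h2, h3, h4⟩ := h p.1 (mem_product.1 hp).1 p.2 (mem_product.1 hp).2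
    refine mem_image.2 ⟨(a, b), mem_filter.2 ⟨mem_product.2 ⟨ha, hb⟩, h4⟩, ?_⟩
    exact Prod.ext h2 h3
  exact (card_le_card h1).trans card_image_le

end Pool.Agent.O2
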