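import Pool.Agent.Lib_helper46.O2.L5

/-! The types of a small cut. -/

set_option autoImplicit false
set_option linter.unusedSectionVars false
set_option linter.unusedVariables false

open scoped Classical
open Finset

namespace Pool.Agent.O2

variable {V : Type}

/-- some class of `ψ` in `B` has neighbours in all classes of `φ` in `A` -/
def M1T (G : SimpleGraph V) (K : ℕ) (A B : Finset V) (φ ψ : V → Fin K) : Prop :=
  ∃ j, ∀ i, ∃ a ∈ A, ∃ b ∈ B, φ a = i ∧ ψ b = j ∧ G.Adj a b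

theorem M1_class_ge {G : SimpleGraph V} {K : ℕ} {A B : Finset V} {φ ψ : V → Fin K} {j : Fin K}
    (h : ∀ i, ∃ a ∈ A, ∃ b ∈ B, φ a = i ∧ ψ b = j ∧ G.Adj a b) : K ≤ pr G A (cls B ψ j) := by
  have h1 : (univ : Finset (Fin K)) ⊆
      ((A ×ˢ cls B ψ j).filter fun p => G.Adj p.1 p.2).image fun e => φ e.1 := by
    intro i _
    obtain ⟨a, ha, b, hb, h2, h3, h4⟩ := h i
    refine mem_image.2 ⟨(a, b), mem_filter.2 ⟨mem_product.2 ⟨ha, ?_⟩, h4⟩, h2⟩
    exact mem_filter.2 ⟨hb, h3⟩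
  have h2 := (card_le_card h1).trans card_image_le
  rw [card_univ, Fintype.card_fin] at h2
  exact h2

theorem M1_two {G : SimpleGraph V} {K : ℕ} {A B : Finset V} {ψ : V → Fin K} {j j' : Fin K}
    (hne : j ≠ j') : pr G A (cls B ψ j) + pr G A (cls B ψ j') ≤ pr G A B := by
  rw [pr_classes G A B ψ, ← sum_pair (f := fun j => pr G A (cls B ψ j)) hne]
  exact sum_le_sum_of_subset (subset_univ _)

theorem M1_excl {G : SimpleGraph V} {K : ℕ} {A B : Finset V} {φ φ' ψ : V → Fin K}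
    (h : M1T G K A B φ ψ) (h' : M1T G K B A ψ φ') : 2 * K ≤ pr G A B + 1 := by
  obtain ⟨j, hj⟩ := h
  obtain ⟨i, hi⟩ := h'
  rw [pr_classes G A B ψ, ← add_sum_erase _ _ (mem_univ j)]
  have h1 := M1_class_ge hj
  have h2 : ∑ j' ∈ univ.erase j, 1 ≤ ∑ j' ∈ univ.erase j, pr G A (cls B ψ j') := by
    refine sum_le_sum fun j' _ => ?_
    obtain ⟨b, hb, a, ha, h3, h4, h5⟩ := hi j'
    exact card_pos.2 ⟨(a, b), mem_filter.2 ⟨mem_product.2 ⟨ha, mem_filter.2 ⟨hb, h3⟩⟩, h5.symm⟩⟩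
  rw [sum_const, card_erase_of_mem (mem_univ j), card_univ, Fintype.card_fin, smul_eq_mul,
    mul_one] at h2
  omega

theorem M1_or {G : SimpleGraph V} {K : ℕ} {A B : Finset V} {φ ψ : V → Fin K} (hK : 3 ≤ K)
    (hφ : PC G A φ) (hψ : PC G B ψ) (hn : ¬ Cb G (A ∪ B) K) (hm : 3 * pr G A B < 4 * K) :
    M1T G K A B φ ψ ∨ M1T G K B A ψ φ := by
  obtain ⟨P, Q, hPQ, h⟩ := glue_or hφ hψ hn
  have h1 := mul_le_pr h
  have hP : P.card ≤ K := by simpa using card_le_univ P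
  have hQ : Q.card ≤ K := by simpa using card_le_univ Q
  by_cases hq : Q.card = 1
  · left
    obtain ⟨j, hj⟩ := card_eq_one.1 hq
    have hPu : P = univ := eq_univ_of_card P (by rw [Fintype.card_fin]; omega)
    refine ⟨j, fun i => h i (by rw [hPu]; exact mem_univ i) j (by rw [hj]; exact mem_singleton_self j)⟩
  by_cases hp : P.card = 1
  · right
    obtain ⟨i, hi⟩ := card_eq_one.1 hp
    have hQu : Q = univ := eq_univ_of_card Q (by rw [Fintype.card_fin]; omega)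
    refine ⟨i, fun j => ?_⟩
    obtain ⟨a, ha, b, hb, h2, h3, h4⟩ :=
      h i (by rw [hi]; exact mem_singleton_self i) j (by rw [hQu]; exact mem_univ j)
    exact ⟨b, hb, a, ha, h3, h2, h4.symm⟩
  · exfalso
    obtain ⟨p, hp'⟩ : ∃ p, P.card = p + 2 := ⟨P.card - 2, by omega⟩
    obtain ⟨q, hq'⟩ : ∃ q, Q.card = q + 2 := ⟨Q.card - 2, by omega⟩
    rw [hp', hq'] at h1
    have h2 : 2 * (K - 1) ≤ (p + 2) * (q + 2) := by
      have h3 : K - 1 = p + q + 2 := by omega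
      rw [h3]
      nlinarith [Nat.zero_le (p * q)]
    omega

theorem M1_main [Fintype V] {G : SimpleGraph V} {K : ℕ} {A B : Finset V} (hK : 3 ≤ K)
    (hcr : CrOn G univ K) (hd : Disjoint A B) (hu : A ∪ B = univ) (hA : 2 ≤ A.card)
    (hB : 2 ≤ B.card) (hm : 3 * pr G A B < 4 * K)
    {φ₀ ψ₀ : V → Fin K} (hφ₀ : PC G A φ₀) (hψ₀ : PC G B ψ₀)
    (h : ∀ φ ψ : V → Fin K, PC G A φ → PC G B ψ → M1T G K A B φ ψ) :
    ∃ c, Sit G K c A B := by
  have hK1 : K ≤ pr G A B := by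
    obtain ⟨j, hj⟩ := h φ₀ ψ₀ hφ₀ hψ₀
    refine (M1_class_ge hj).trans (pr_mono (Subset.refl _) (filter_subset _ _))
  refine ⟨pr G A B - K, hcr, hd, hu, hA, hB, by omega, by omega, ?_⟩
  intro ψ hψ
  obtain ⟨j, hj⟩ := h φ₀ ψ hφ₀ hψ
  refine ⟨j, fun φ hφ i => ?_⟩
  obtain ⟨j', hj'⟩ := h φ ψ hφ hψ
  have hjj : j' = j := by
    by_contra hne
    have h1 := M1_class_ge hj
    have h2 := M1_class_ge hj'
    have h3 := M1_two (G := G) (A := A) (B := B) (ψ := ψ) hne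
    omega
  subst hjj
  obtain ⟨a, ha, b, hb, h2, h3, h4⟩ := hj' i
  exact ⟨a, mem_filter.2 ⟨ha, b, mem_filter.2 ⟨hb, h3⟩, h4⟩, h2⟩

/-- M1. PROOF. `A` and `B` are `K`-colourable (`CrOn.sub`). For colourings `φ` of `A`, `ψ` of `B`
`glue_or` gives `P`, `Q`, `|P| + |Q| = K + 1`; `|P|, |Q| ≥ 2` would give
`2 (K - 1) ≤ |P| |Q| ≤ pr G A B` (`mul_le_pr`), so `|Q| = 1` (type I: one class of `ψ` has
neighbours in all classes of `φ`) or `|P| = 1` (type II). If `(φ, ψ)` has type I and `(φ', ψ)` has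
type II: the class `j` of `ψ` sends an edge to every class of `φ` (`≥ K` edges) and the class `i`
of `φ'` sends an edge to every class of `ψ` other than `j` (`≥ K - 1` more edges), so
`2 K - 1 ≤ pr G A B`, impossible; the same if `(φ, ψ)` has type I and `(φ, ψ')` type II. So all
pairs have the same type. Say type I (the other case is symmetric, `pr_symm`). For fixed `ψ` the
class `j` is the same for all `φ`: two different ones would give `2 K ≤ pr G A B`. So its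
neighbours block `A`, `K ≤ pr G A B` and `c = pr G A B - K`. -/
theorem sit_exists [Fintype V] {G : SimpleGraph V} {K : ℕ} {A B : Finset V} (hK : 3 ≤ K)
    (hcr : CrOn G univ K) (hd : Disjoint A B) (hu : A ∪ B = univ) (hA : 2 ≤ A.card)
    (hB : 2 ≤ B.card) (hm : 3 * pr G A B < 4 * K) :
    (∃ c, Sit G K c A B) ∨ ∃ c, Sit G K c B A := by
  have hK0 : 0 < K := by omega
  have hne : ∀ {X Y : Finset V}, Disjoint X Y → 2 ≤ Y.card → X ≠ univ := by
    intro X Y hXY hY hX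
    obtain ⟨y, hy⟩ := card_pos.1 (by omega : 0 < Y.card)
    exact disjoint_left.1 hXY (by rw [hX]; exact mem_univ y) hy
  obtain ⟨φ₀, hφ₀⟩ := (cb_fin hK0).1 (hcr.sub (subset_univ A) (hne hd hB))
  obtain ⟨ψ₀, hψ₀⟩ := (cb_fin hK0).1 (hcr.sub (subset_univ B) (hne hd.symm hA))
  have hn : ¬ Cb G (A ∪ B) K := by rw [hu]; exact hcr.1
  have hor : ∀ φ ψ : V → Fin K, PC G A φ → PC G B ψ →
      M1T G K A B φ ψ ∨ M1T G K B A ψ φ := fun φ ψ h1 h2 => M1_or hK h1 h2 hn hm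
  have hsym : pr G B A = pr G A B := pr_symm G B A
  by_cases h : ∃ φ ψ : V → Fin K, PC G A φ ∧ PC G B ψ ∧ M1T G K A B φ ψ
  · left
    obtain ⟨φ₁, ψ₁, h1, h2, h3⟩ := h
    refine M1_main hK hcr hd hu hA hB hm hφ₀ hψ₀ fun φ ψ hφ hψ => ?_
    have h4 : M1T G K A B φ ψ₁ := by
      rcases hor φ ψ₁ hφ h2 with h4 | h4
      · exact h4
      · have := M1_excl h3 h4
        omega
    rcases hor φ ψ hφ hψ with h5 | h5
    · exact h5
    · have := M1_excl h5 h4
      omega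
  · right
    push Not at h
    refine M1_main hK hcr hd.symm (by rw [union_comm]; exact hu) hB hA (by omega) hψ₀ hφ₀
      fun ψ φ hψ hφ => ?_
    exact (hor φ ψ hφ hψ).resolve_left (h φ ψ hφ hψ)

end Pool.Agent.O2
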