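import Pool.Agent.Lib_helper46.O2.L2

/-! First consequences. -/

set_option autoImplicit false
set_option linter.unusedSectionVars false
set_option linter.unusedVariables false

open scoped Classical
open Finset

namespace Pool.Agent.O2

variable {V : Type}

/-- M2. Simple facts about the situation. `A` and `B` are colourable. -/
theorem Sit.colA [Fintype V] {G : SimpleGraph V} {K c : ℕ} {A B : Finset V}
    (h : Sit G K c A B) : ∃ φ : V → Fin K, PC G A φ := by
  have hK : 0 < K := by have := h.small; omega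
  refine (cb_fin hK).1 (h.crit.sub (subset_univ A) ?_)
  intro hA
  have h1 : 0 < B.card := by have := h.hB; omega
  obtain ⟨b, hb⟩ := card_pos.1 h1
  exact disjoint_left.1 h.disj (by rw [hA]; exact mem_univ b) hb

theorem Sit.colB [Fintype V] {G : SimpleGraph V} {K c : ℕ} {A B : Finset V}
    (h : Sit G K c A B) : ∃ ψ : V → Fin K, PC G B ψ := by
  have hK : 0 < K := by have := h.small; omega
  refine (cb_fin hK).1 (h.crit.sub (subset_univ B) ?_)
  intro hB
  have h1 : 0 < A.card := by have := h.hA; omega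
  obtain ⟨b, hb⟩ := card_pos.1 h1
  exact disjoint_left.1 h.disj hb (by rw [hB]; exact mem_univ b)

theorem Sit.dg_tot [Fintype V] {G : SimpleGraph V} {K c : ℕ} {A B : Finset V}
    (h : Sit G K c A B) (v : V) : K ≤ dg G A v + dg G B v := by
  rw [← dg_union h.disj, h.cover]
  exact h.crit.dg_ge (mem_univ v)

/-- PROOF: `Blk.card_ge`, `nbr_card_le`. -/
theorem Sit.heavy_ge [Fintype V] {G : SimpleGraph V} {K c : ℕ} {A B : Finset V}
    (h : Sit G K c A B) {Q : Finset V} (hQ : Blk G K A (nbr G A Q)) : K ≤ pr G A Q := by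
  obtain ⟨φ, hφ⟩ := h.colA
  exact (hQ.card_ge hφ).trans (nbr_card_le G A Q)

/-- PROOF: every colouring of `B` has a heavy class. -/
theorem Sit.exists_heavy [Fintype V] {G : SimpleGraph V} {K c : ℕ} {A B : Finset V}
    (h : Sit G K c A B) {ψ : V → Fin K} (hψ : PC G B ψ) : ∃ j, Heavy G K A B (cls B ψ j) := by
  obtain ⟨j, hj⟩ := h.typ ψ hψ
  exact ⟨j, ψ, hψ, j, rfl, hj⟩

/-- the weight outside a set and inside add up. -/
theorem Sit.add [Fintype V] {G : SimpleGraph V} {K c : ℕ} {A B : Finset V}
    (h : Sit G K c A B) {Q : Finset V} (hQ : Q ⊆ B) : pr G A Q + pr G A (B \ Q) = K + c := by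
  rw [← pr_union_right A disjoint_sdiff, union_sdiff_of_subset hQ, h.cut]

/-- one vertex never blocks. PROOF: otherwise `nbr G A Q ⊆ nbr G A {u}`. If `u ∈ B`: `A ∪ {u}` is not
everything, so it has a colouring; its restriction to `A` has no neighbour of `u` in the class of
`u`. If `u ∉ B` then `nbr G A Q = ∅`. -/
theorem Sit.not_single [Fintype V] {G : SimpleGraph V} {K c : ℕ} {A B : Finset V}
    (h : Sit G K c A B) {Q : Finset V} (hQ : Q ⊆ B) (hb : Blk G K A (nbr G A Q)) (u : V) :
    ∃ y ∈ Q, y ≠ u ∧ 1 ≤ dg G A y := by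
  have hK : 0 < K := by have := h.small; omega
  by_contra hcon
  push Not at hcon
  have key : ∀ a ∈ nbr G A Q, a ∈ A ∧ u ∈ Q ∧ G.Adj a u := by
    intro a ha
    obtain ⟨h1, y, hy, hay⟩ := mem_filter.1 ha
    have h2 : y = u := by
      by_contra h3
      have h4 := hcon y hy h3
      have h5 : 0 < dg G A y := card_pos.2 ⟨a, mem_filter.2 ⟨h1, hay.symm⟩⟩
      omega
    rw [h2] at hy hay
    exact ⟨h1, hy, hay⟩
  obtain ⟨φ, hφ⟩ : ∃ φ : V → Fin K, PC G (insert u A) φ := by
    by_cases hu : u ∈ B
    · refine (cb_fin hK).1 (h.crit.sub (subset_univ _) ?_)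
      intro hA
      have h1 : 0 < (B.erase u).card := by
        rw [card_erase_of_mem hu]
        have := h.hB
        omega
      obtain ⟨b, hb'⟩ := card_pos.1 h1
      obtain ⟨hbu, hbB⟩ := mem_erase.1 hb'
      have h2 : b ∈ insert u A := by rw [hA]; exact mem_univ b
      rcases mem_insert.1 h2 with h3 | h3
      · exact hbu h3
      · exact disjoint_left.1 h.disj h3 hbB
    · have huA : u ∈ A := by
        have h1 : u ∈ A ∪ B := by rw [h.cover]; exact mem_univ u
        exact (mem_union.1 h1).resolve_right hu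
      rw [insert_eq_of_mem huA]
      exact h.colA
  obtain ⟨a, ha, hau⟩ := hb φ (pc_sub (subset_insert u A) hφ) (φ u)
  obtain ⟨h1, -, h3⟩ := key a ha
  exact hφ a (mem_insert_of_mem h1) u (mem_insert_self _ _) h3 hau

/-- at most one vertex of `B` has large weight -/
theorem Sit.uniq [Fintype V] {G : SimpleGraph V} {K c : ℕ} {A B : Finset V}
    (h : Sit G K c A B) {w w' : V} (hw : w ∈ B) (hw' : w' ∈ B) (hne : w ≠ w')
    (hx : K ≤ dg G A w + c) : dg G A w' + c < K := by
  have h1 := h.cut
  rw [pr_sum'] at h1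
  have h2 : ∑ y ∈ ({w, w'} : Finset V), dg G A y ≤ ∑ y ∈ B, dg G A y := by
    apply sum_le_sum_of_subset
    intro y hy
    rcases mem_insert.1 hy with h3 | h3
    · rw [h3]; exact hw
    · rw [mem_singleton.1 h3]; exact hw'
  rw [sum_pair hne] at h2
  have h3 := h.small
  omega

end Pool.Agent.O2
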