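import Pool.Agent.Lib_helper46.O2.M2

/-! Vertices of A. -/

set_option autoImplicit false
set_option linter.unusedSectionVars false
set_option linter.unusedVariables false

open scoped Classical
open Finset

namespace Pool.Agent.O2

variable {V : Type}

/-- M2a. PROOF. `χ` is a proper colouring of `B`, so some class `j` of it blocks `A`. If `w` had no
neighbour of colour `i ≠ j` in `A`, give `w` the colour `i`: this is a colouring of `A` whose class
`j` has no neighbours in the class `j` of `B` (`χ` is proper on `univ.erase w`), contradiction. -/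
theorem Sit.typeA [Fintype V] {G : SimpleGraph V} {K c : ℕ} {A B : Finset V}
    (h : Sit G K c A B) {w : V} (hw : w ∈ A) {χ : V → Fin K} (hχ : PC G (univ.erase w) χ) :
    ∃ j, Blk G K A (nbr G A (cls B χ j)) ∧
      (∀ i, i ≠ j → ∃ a ∈ A, a ≠ w ∧ χ a = i ∧ G.Adj w a) ∧
      ∀ a ∈ A, a ≠ w → χ a = j → a ∉ nbr G A (cls B χ j) := by
  have hwB : ∀ y ∈ B, y ≠ w := fun y hy e => by
    subst e; exact (Finset.disjoint_left.1 h.disj hw) hy
  have hB : PC G B χ := pc_sub (fun y hy => mem_erase.2 ⟨hwB y hy, mem_univ _⟩) hχ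
  obtain ⟨j, hj⟩ := h.typ χ hB
  have hno : ∀ a ∈ A, a ≠ w → χ a = j → a ∉ nbr G A (cls B χ j) := by
    intro a ha haw haj hmem
    obtain ⟨-, y, hy, hay⟩ := mem_filter.1 hmem
    obtain ⟨hyB, hyj⟩ := mem_filter.1 hy
    exact hχ a (mem_erase.2 ⟨haw, mem_univ _⟩) y (mem_erase.2 ⟨hwB y hyB, mem_univ _⟩) hay
      (haj.trans hyj.symm)
  refine ⟨j, hj, fun i hij => ?_, hno⟩
  by_contra hcon
  push Not at hcon
  have hφ : PC G A (Function.update χ w i) := by
    intro a ha b hb hab
    by_cases haw : a = w
    · subst haw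
      have hbw : b ≠ a := hab.ne'
      rw [Function.update_self, Function.update_of_ne hbw]
      intro e
      exact hcon b hb hbw e.symm hab
    · by_cases hbw : b = w
      · subst hbw
        rw [Function.update_self, Function.update_of_ne haw]
        intro e
        exact hcon a ha haw e hab.symm
      · rw [Function.update_of_ne haw, Function.update_of_ne hbw]
        exact hχ a (mem_erase.2 ⟨haw, mem_univ _⟩) b (mem_erase.2 ⟨hbw, mem_univ _⟩) hab
  obtain ⟨a, ha, haj⟩ := hj _ hφ j
  have haA : a ∈ A := (mem_filter.1 ha).1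
  have haw : a ≠ w := by
    rintro rfl
    rw [Function.update_self] at haj
    exact hij haj
  rw [Function.update_of_ne haw] at haj
  exact hno a haA haw haj ha

/-- PROOF: `K - 1` different colours `i ≠ j` appear at neighbours of `w` in `A`. -/
theorem Sit.dgA [Fintype V] {G : SimpleGraph V} {K c : ℕ} {A B : Finset V}
    (h : Sit G K c A B) {w : V} (hw : w ∈ A) : K ≤ dg G A w + 1 := by
  have hK : 0 < K := by have := h.small; omega
  obtain ⟨χ, hχ⟩ := h.crit.pc hK (mem_univ w)
  obtain ⟨j, -, hj, -⟩ := h.typeA hw hχ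
  have h1 : (univ : Finset (Fin K)).erase j ⊆ (A.filter fun y => G.Adj w y).image χ := by
    intro i hi
    obtain ⟨a, ha, -, hai, hwa⟩ := hj i (mem_erase.1 hi).1
    exact mem_image.2 ⟨a, mem_filter.2 ⟨ha, hwa⟩, hai⟩
  have h2 := card_le_card h1
  rw [card_erase_of_mem (mem_univ _), card_univ, Fintype.card_fin] at h2
  have h3 := h2.trans card_image_le
  unfold dg
  omega

end Pool.Agent.O2
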