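import Pool.Agent.Lib_helper46.O2.L1

/-! The pairs, small weights. -/

set_option autoImplicit false
set_option linter.unusedSectionVars false
set_option linter.unusedVariables false

open scoped Classical
open Finset

namespace Pool.Agent.O2

variable {V : Type}

/-- positions: each `y ∈ B` is written `x y` times, in consecutive places -/
theorem M4a_seq (v0 : V) (x : V → ℕ) (B : Finset V) :
    ∃ f : ℕ → V, (∀ i, i < ∑ y ∈ B, x y → f i ∈ B) ∧
      (∀ U ⊆ B, ((range (∑ y ∈ B, x y)).filter fun i => f i ∈ U).card = ∑ y ∈ U, x y) ∧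
      ∀ i j, i < j → j < ∑ y ∈ B, x y → f i = f j → j - i < x (f i) := by
  induction B using Finset.induction_on with
  | empty =>
    refine ⟨fun _ => v0, ?_, ?_, ?_⟩
    · intro i hi
      simp at hi
    · intro U hU
      rw [Finset.subset_empty.1 hU]
      simp
    · intro i j _ hj
      simp at hj
  | insert a B ha ih =>
    obtain ⟨f, h1, h2, h3⟩ := ih
    set N := ∑ y ∈ B, x y with hN
    have hN' : ∑ y ∈ insert a B, x y = N + x a := by
      rw [Finset.sum_insert ha, add_comm]
    rw [hN']
    refine ⟨fun i => if i < N then f i else a, ?_, ?_, ?_⟩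
    · intro i hi
      show (if i < N then f i else a) ∈ insert a B
      split_ifs with h
      · exact Finset.mem_insert_of_mem (h1 i h)
      · exact Finset.mem_insert_self a B
    · intro U hU
      have h4 : (range (N + x a)).filter (fun i => (if i < N then f i else a) ∈ U) =
          ((range N).filter fun i => f i ∈ U.erase a) ∪
            ((Finset.Ico N (N + x a)).filter fun _ => a ∈ U) := by
        ext i
        simp only [Finset.mem_filter, Finset.mem_range, Finset.mem_union, Finset.mem_Ico,
          Finset.mem_erase]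
        by_cases hi : i < N
        · rw [if_pos hi]
          have h5 : f i ≠ a := fun h => ha (h ▸ h1 i hi)
          constructor
          · rintro ⟨-, h6⟩
            exact Or.inl ⟨hi, h5, h6⟩
          · rintro (⟨-, -, h6⟩ | ⟨⟨h6, -⟩, -⟩)
            · exact ⟨by omega, h6⟩
            · omega
        · rw [if_neg hi]
          constructor
          · rintro ⟨h5, h6⟩
            exact Or.inr ⟨⟨by omega, h5⟩, h6⟩
          · rintro (⟨h5, -⟩ | ⟨⟨-, h5⟩, h6⟩)
            · exact absurd h5 hi
            · exact ⟨h5, h6⟩
      have h5 : Disjoint ((range N).filter fun i => f i ∈ U.erase a)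
          ((Finset.Ico N (N + x a)).filter fun _ => a ∈ U) := by
        rw [Finset.disjoint_left]
        intro i hi hi'
        have h6 := Finset.mem_range.1 (Finset.mem_filter.1 hi).1
        have h7 := (Finset.mem_Ico.1 (Finset.mem_filter.1 hi').1).1
        omega
      have h6 : U.erase a ⊆ B := by
        intro y hy
        rw [Finset.mem_erase] at hy
        rcases Finset.mem_insert.1 (hU hy.2) with h | h
        · exact absurd h hy.1
        · exact h
      rw [h4, Finset.card_union_of_disjoint h5, h2 _ h6]
      by_cases haU : a ∈ U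
      · rw [Finset.filter_true_of_mem (fun _ _ => haU), Nat.card_Ico,
          ← Finset.sum_erase_add U x haU]
        omega
      · rw [Finset.filter_false_of_mem (fun _ _ => haU), Finset.card_empty, add_zero,
          Finset.erase_eq_of_notMem haU]
    · intro i j hij hj
      show (if i < N then f i else a) = (if j < N then f j else a) →
        j - i < x (if i < N then f i else a)
      intro h4
      by_cases hjN : j < N
      · have hiN : i < N := by omega
        rw [if_pos hiN, if_pos hjN] at h4
        rw [if_pos hiN]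
        exact h3 i j hij hjN h4
      · by_cases hiN : i < N
        · rw [if_pos hiN, if_neg hjN] at h4
          exact absurd (h4 ▸ h1 i hiN) ha
        · rw [if_neg hiN]
          omega

/-- M4, case of small weights. PROOF. Write the elements of `B` with `x y ≥ 1` in some order, each `y`
repeated `x y` times: `y_1, …, y_N`, `N = Σ x ≥ 2 c' + 2`. `F` is the set of the pairs
`(y_i, y_(i + c' + 1))`, `i = 1, …, c' + 1`. As `x y ≤ c'` the two elements are different. A heavy
`Q` misses at most `c'` positions, the `c' + 1` pairs of positions are disjoint, so `Q` contains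
both elements of a pair. If `U` meets all pairs of `F''` then `U` contains at least `|F''|`
positions. -/
theorem pairs_small (B : Finset V) (x : V → ℕ) (c' : ℕ) (hN : 2 * c' + 2 ≤ ∑ y ∈ B, x y)
    (hsm : ∀ y ∈ B, x y ≤ c') (HQ : Finset V → Prop)
    (hw : ∀ Q, HQ Q → Q ⊆ B ∧ ∑ y ∈ B \ Q, x y ≤ c') :
    ∃ F : Finset (V × V), F.card ≤ c' + 1 ∧ (∀ f ∈ F, f.1 ∈ B ∧ f.2 ∈ B ∧ f.1 ≠ f.2) ∧
      (∀ Q, HQ Q → ∃ f ∈ F, f.1 ∈ Q ∧ f.2 ∈ Q) ∧
      ∀ F'' ⊆ F, ∀ U ⊆ B, (∀ f ∈ F'', f.1 ∈ U ∨ f.2 ∈ U) → F''.card ≤ ∑ y ∈ U, x y := by
  have hBne : B.Nonempty := by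
    rw [Finset.nonempty_iff_ne_empty]
    rintro rfl
    simp at hN
  obtain ⟨v0, hv0⟩ := hBne
  obtain ⟨f, h1, h2, h3⟩ := M4a_seq v0 x B
  set N := ∑ y ∈ B, x y with hNdef
  set g : ℕ → V × V := fun i => (f i, f (i + (c' + 1))) with hg
  refine ⟨(range (c' + 1)).image g, ?_, ?_, ?_, ?_⟩
  · exact Finset.card_image_le.trans (by rw [Finset.card_range])
  · intro p hp
    obtain ⟨i, hi, rfl⟩ := Finset.mem_image.1 hp
    rw [Finset.mem_range] at hi
    refine ⟨h1 i (by omega), h1 _ (by omega), ?_⟩
    intro h4
    have h5 := h3 i (i + (c' + 1)) (by omega) (by omega) h4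
    have h6 := hsm (f i) (h1 i (by omega))
    omega
  · intro Q hQ
    obtain ⟨hQB, hQs⟩ := hw Q hQ
    by_contra hcon
    push Not at hcon
    have h4 : ∀ i ∈ range (c' + 1), f i ∈ Q → f (i + (c' + 1)) ∉ Q := by
      intro i hi
      exact hcon (g i) (Finset.mem_image_of_mem g hi)
    have h5 : (range (c' + 1)).card ≤ ((range N).filter fun i => f i ∈ B \ Q).card := by
      refine Finset.card_le_card_of_injOn (fun i => if f i ∈ Q then i + (c' + 1) else i) ?_ ?_
      · intro i hi
        rw [Finset.mem_coe] at hi
        have hi' := Finset.mem_range.1 hi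
        rw [Finset.mem_coe, Finset.mem_filter]
        show (if f i ∈ Q then i + (c' + 1) else i) ∈ range N ∧
          f (if f i ∈ Q then i + (c' + 1) else i) ∈ B \ Q
        split_ifs with h6
        · exact ⟨Finset.mem_range.2 (by omega), Finset.mem_sdiff.2 ⟨h1 _ (by omega), h4 i hi h6⟩⟩
        · exact ⟨Finset.mem_range.2 (by omega), Finset.mem_sdiff.2 ⟨h1 _ (by omega), h6⟩⟩
      · intro i hi j hj hij
        rw [Finset.mem_coe, Finset.mem_range] at hi hj
        have hij' : (if f i ∈ Q then i + (c' + 1) else i) =
          (if f j ∈ Q then j + (c' + 1) else j) := hij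
        split_ifs at hij' <;> omega
    rw [h2 _ Finset.sdiff_subset, Finset.card_range] at h5
    omega
  · intro F'' hF U hU hmeet
    rw [← h2 U hU]
    have h4 : ∀ p ∈ F'', ∃ i, i < c' + 1 ∧ g i = p := by
      intro p hp
      obtain ⟨i, hi, h⟩ := Finset.mem_image.1 (hF hp)
      exact ⟨i, Finset.mem_range.1 hi, h⟩
    choose! e he1 he2 using h4
    refine Finset.card_le_card_of_injOn
      (fun p => if f (e p) ∈ U then e p else e p + (c' + 1)) ?_ ?_
    · intro p hp
      rw [Finset.mem_coe] at hp
      have h5 := he1 p hp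
      rw [Finset.mem_coe, Finset.mem_filter]
      show (if f (e p) ∈ U then e p else e p + (c' + 1)) ∈ range N ∧
        f (if f (e p) ∈ U then e p else e p + (c' + 1)) ∈ U
      split_ifs with h6
      · exact ⟨Finset.mem_range.2 (by omega), h6⟩
      · refine ⟨Finset.mem_range.2 (by omega), ?_⟩
        rcases hmeet p hp with h7 | h7
        · rw [← he2 p hp] at h7
          exact absurd h7 h6
        · rw [← he2 p hp] at h7
          exact h7
    · intro p hp q hq hpq
      rw [Finset.mem_coe] at hp hq
      have h5 := he1 p hp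
      have h6 := he1 q hq
      have h7 : (if f (e p) ∈ U then e p else e p + (c' + 1)) =
        (if f (e q) ∈ U then e q else e q + (c' + 1)) := hpq
      have h8 : e p = e q := by split_ifs at h7 <;> omega
      rw [← he2 p hp, ← he2 q hq, h8]

end Pool.Agent.O2
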